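import Pool.Agent.Y183.LS.N
set_option autoImplicit false

/-! Kernels of the decomposition of frequency space into unit cells: one variable. -/

namespace Pool.Agent.Q89.WS

open MeasureTheory Set Complex
open scoped ENNReal NNReal FourierTransform
open Pool.Agent.Y183.LS (ec ec_norm ec_enorm ec_add ec_cont ec_zero ec_sum)

lemma ec_deriv (x η : ℝ) : HasDerivAt (fun η : ℝ => ec (x * η)) (2 * Real.pi * I * x * ec (x * η)) η := by
  unfold ec
  have h1 : HasDerivAt (fun η : ℝ => 2 * Real.pi * I * ((x * η : ℝ) : ℂ)) (2 * Real.pi * I * x) η := by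
    have h2 : HasDerivAt (fun η : ℝ => ((x * η : ℝ) : ℂ)) (x : ℂ) η := by
      have h3 := ((hasDerivAt_id η).const_mul x).ofReal_comp
      simpa using h3
    exact h2.const_mul _
  convert h1.cexp using 1
  ring

/-- an oscillatory integral of a function vanishing at the end points -/
lemma osc (P P' P'' : ℝ → ℝ) (h1 : ∀ η, HasDerivAt P (P' η) η) (h2 : ∀ η, HasDerivAt P' (P'' η) η)
    (h3 : Continuous P'') (hP1 : P 1 = 0) (hP2 : P (-1) = 0) :
    ∃ C : ℝ, 0 < C ∧ ∀ x : ℝ, ‖∫ η in (-1 : ℝ)..1, (P η : ℂ) * ec (x * η)‖ ≤ C / (1 + x ^ 2) := by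
  have hPc : Continuous P := continuous_iff_continuousAt.mpr fun η => (h1 η).continuousAt
  have hP'c : Continuous P' := continuous_iff_continuousAt.mpr fun η => (h2 η).continuousAt
  have hec : ∀ x : ℝ, Continuous fun η : ℝ => ec (x * η) := fun x => ec_cont.comp (by fun_prop)
  set M0 : ℝ := ∫ η in (-1 : ℝ)..1, |P η| with hM0
  set M2 : ℝ := |P' 1| + |P' (-1)| + ∫ η in (-1 : ℝ)..1, |P'' η| with hM2
  have hM0n : 0 ≤ M0 := intervalIntegral.integral_nonneg (by norm_num) fun η _ => abs_nonneg _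
  have hM2n : 0 ≤ M2 := by
    have := intervalIntegral.integral_nonneg (a := (-1 : ℝ)) (b := 1) (μ := volume)
      (by norm_num) fun η _ => abs_nonneg (P'' η)
    positivity
  have hb0 : ∀ x : ℝ, ‖∫ η in (-1 : ℝ)..1, (P η : ℂ) * ec (x * η)‖ ≤ M0 := by
    intro x
    refine (intervalIntegral.norm_integral_le_integral_norm (by norm_num)).trans (le_of_eq ?_)
    apply intervalIntegral.integral_congr
    intro η _
    simp only [norm_mul, ec_norm, mul_one, Complex.norm_real, Real.norm_eq_abs]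
  have hb2 : ∀ x : ℝ, x ^ 2 * ‖∫ η in (-1 : ℝ)..1, (P η : ℂ) * ec (x * η)‖ ≤ M2 := by
    intro x
    by_cases hx : x = 0
    · rw [hx]
      simpa using hM2n
    set ω : ℂ := 2 * Real.pi * I * x with hω
    have hω0 : ω ≠ 0 := by
      rw [hω]
      simp [hx, Real.pi_ne_zero]
    have hP1' : ∀ η : ℝ, HasDerivAt (fun η : ℝ => (P η : ℂ)) (P' η : ℂ) η := fun η => (h1 η).ofReal_comp
    have hP2' : ∀ η : ℝ, HasDerivAt (fun η : ℝ => (P' η : ℂ)) (P'' η : ℂ) η := fun η => (h2 η).ofReal_comp
    have he : ∀ η : ℝ, HasDerivAt (fun η : ℝ => ω⁻¹ * ec (x * η)) (ec (x * η)) η := by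
      intro η
      have h := (ec_deriv x η).const_mul ω⁻¹
      rw [← hω, ← mul_assoc, inv_mul_cancel₀ hω0, one_mul] at h
      exact h
    have i1 := intervalIntegral.integral_mul_deriv_eq_deriv_mul (a := (-1 : ℝ)) (b := 1)
      (fun η _ => hP1' η) (fun η _ => he η)
      ((Complex.continuous_ofReal.comp hP'c).intervalIntegrable _ _) ((hec x).intervalIntegrable _ _)
    have i2 := intervalIntegral.integral_mul_deriv_eq_deriv_mul (a := (-1 : ℝ)) (b := 1)
      (fun η _ => hP2' η) (fun η _ => he η)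
      ((Complex.continuous_ofReal.comp h3).intervalIntegrable _ _) ((hec x).intervalIntegrable _ _)
    rw [hP1, hP2] at i1
    simp only [Complex.ofReal_zero, zero_mul, sub_self, zero_sub] at i1
    have e1 : (∫ η in (-1 : ℝ)..1, (P' η : ℂ) * (ω⁻¹ * ec (x * η))) =
        ω⁻¹ * ∫ η in (-1 : ℝ)..1, (P' η : ℂ) * ec (x * η) := by
      rw [← intervalIntegral.integral_const_mul]
      congr 1
      ext η
      ring
    have e2 : (∫ η in (-1 : ℝ)..1, (P'' η : ℂ) * (ω⁻¹ * ec (x * η))) =
        ω⁻¹ * ∫ η in (-1 : ℝ)..1, (P'' η : ℂ) * ec (x * η) := by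
      rw [← intervalIntegral.integral_const_mul]
      congr 1
      ext η
      ring
    rw [e1] at i1
    rw [e2] at i2
    have e3 : ω ^ 2 * ∫ η in (-1 : ℝ)..1, (P η : ℂ) * ec (x * η) =
        -((P' 1 : ℂ) * ec (x * 1) - (P' (-1) : ℂ) * ec (x * (-1)) -
          ∫ η in (-1 : ℝ)..1, (P'' η : ℂ) * ec (x * η)) := by
      rw [i1, i2]
      field_simp
    have e4 : ‖ω‖ ^ 2 * ‖∫ η in (-1 : ℝ)..1, (P η : ℂ) * ec (x * η)‖ ≤ M2 := by
      rw [← norm_pow, ← norm_mul, e3, norm_neg]
      refine (norm_sub_le _ _).trans ?_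
      rw [hM2]
      refine add_le_add ?_ ?_
      · refine (norm_sub_le _ _).trans ?_
        simp only [norm_mul, ec_norm, mul_one, Complex.norm_real, Real.norm_eq_abs]
        exact le_rfl
      · refine (intervalIntegral.norm_integral_le_integral_norm (by norm_num)).trans (le_of_eq ?_)
        apply intervalIntegral.integral_congr
        intro η _
        simp only [norm_mul, ec_norm, mul_one, Complex.norm_real, Real.norm_eq_abs]
    have e5 : x ^ 2 ≤ ‖ω‖ ^ 2 := by
      rw [hω]
      simp only [norm_mul, Complex.norm_real, Complex.norm_I, mul_one, Complex.norm_ofNat,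
        Real.norm_eq_abs, mul_pow, sq_abs]
      have : (1 : ℝ) ≤ 2 ^ 2 * Real.pi ^ 2 := by
        have := Real.pi_gt_three
        nlinarith
      nlinarith [sq_nonneg x]
    exact (mul_le_mul_of_nonneg_right e5 (norm_nonneg _)).trans e4
  refine ⟨M0 + M2 + 1, by positivity, fun x => ?_⟩
  rw [le_div_iff₀ (by positivity)]
  have := hb0 x
  have := hb2 x
  nlinarith

/-- the square root of the bump -/
noncomputable def b1 (η : ℝ) : ℝ := Real.cos (Real.pi / 2 * max (-1) (min η 1))

lemma b1_cont : Continuous b1 := by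
  unfold b1
  fun_prop

lemma b1_in {η : ℝ} (h : η ∈ Icc (-1 : ℝ) 1) : b1 η = Real.cos (Real.pi / 2 * η) := by
  unfold b1
  rw [min_eq_left h.2, max_eq_right h.1]

lemma b1_out {η : ℝ} (h : 1 ≤ |η|) : b1 η = 0 := by
  unfold b1
  rcases le_abs.mp h with h | h
  · rw [min_eq_right h, max_eq_right (by norm_num), mul_one, Real.cos_pi_div_two]
  · rw [min_eq_left (by linarith), max_eq_left (by linarith)]
    rw [mul_neg_one, Real.cos_neg, Real.cos_pi_div_two]

lemma b1_abs (η : ℝ) : |b1 η| ≤ 1 := Real.abs_cos_le_one _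

/-- the kernel with symbol `b1 w` -/
noncomputable def kr (w : ℝ → ℝ) (x : ℝ) : ℂ :=
  ∫ η in (-1 : ℝ)..1, ((b1 η * w η : ℝ) : ℂ) * ec (x * η)

lemma kr_eq (w : ℝ → ℝ) (x : ℝ) : kr w x =
    ∫ η in (-1 : ℝ)..1, ((Real.cos (Real.pi / 2 * η) * w η : ℝ) : ℂ) * ec (x * η) := by
  unfold kr
  apply intervalIntegral.integral_congr
  intro η hη
  rw [uIcc_of_le (by norm_num)] at hη
  simp only [b1_in hη]

lemma kr_cont (w : ℝ → ℝ) (hw : Continuous w) : Continuous (kr w) := by
  unfold kr
  apply intervalIntegral.continuous_parametric_intervalIntegral_of_continuous'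
  have h1 := b1_cont
  have h2 := ec_cont
  fun_prop

lemma kr_bound (w : ℝ → ℝ) (hw : ContDiff ℝ 2 w) :
    ∃ C : ℝ, 0 < C ∧ ∀ x : ℝ, ‖kr w x‖ ≤ C / (1 + x ^ 2) := by
  set P : ℝ → ℝ := fun η => Real.cos (Real.pi / 2 * η) * w η with hP
  have hPc : ContDiff ℝ 2 P := by
    rw [hP]
    exact (Real.contDiff_cos.comp (by fun_prop)).mul hw
  have h1 : ∀ η, HasDerivAt P (deriv P η) η := fun η =>
    (hPc.differentiable (by norm_num) η).hasDerivAt
  have hP' : ContDiff ℝ 1 (deriv P) := by
    have : ContDiff ℝ (1 + 1) P := by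
      have e : (1 + 1 : WithTop ℕ∞) = 2 := by norm_num
      rw [e]
      exact hPc
    exact (contDiff_succ_iff_deriv.mp this).2.2
  have h2 : ∀ η, HasDerivAt (deriv P) (deriv (deriv P) η) η := fun η =>
    (hP'.differentiable (by norm_num) η).hasDerivAt
  have h3 : Continuous (deriv (deriv P)) := hP'.continuous_deriv (by norm_num)
  have h4 : P 1 = 0 := by
    simp only [hP, mul_one, Real.cos_pi_div_two, zero_mul]
  have h5 : P (-1) = 0 := by
    simp only [hP, mul_neg, mul_one, Real.cos_neg, Real.cos_pi_div_two, zero_mul]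
  obtain ⟨C, hC, h⟩ := osc P _ _ h1 h2 h3 h4 h5
  refine ⟨C, hC, fun x => ?_⟩
  rw [kr_eq]
  exact h x

lemma inv_sq_int : Integrable fun x : ℝ => (1 + x ^ 2)⁻¹ := integrable_inv_one_add_sq

lemma kr_int (w : ℝ → ℝ) (hw : ContDiff ℝ 2 w) : Integrable (kr w) := by
  obtain ⟨C, hC, h⟩ := kr_bound w hw
  refine (inv_sq_int.const_mul C).mono' (kr_cont w hw.continuous).aestronglyMeasurable ?_
  filter_upwards with x
  rw [← div_eq_mul_inv]
  exact h x

/-- the Fourier transform of the kernel -/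
lemma kr_ft (w : ℝ → ℝ) (hw : ContDiff ℝ 2 w) (η : ℝ) :
    ∫ x, ec (-(x * η)) * kr w x = ((b1 η * w η : ℝ) : ℂ) := by
  set φ : ℝ → ℂ := fun η => ((b1 η * w η : ℝ) : ℂ) with hφ
  have hφc : Continuous φ := by
    have := b1_cont
    have := hw.continuous
    rw [hφ]
    fun_prop
  have hsupp : Function.support φ ⊆ Icc (-1 : ℝ) 1 := by
    intro x hx
    by_contra hc
    apply hx
    have : 1 ≤ |x| := by
      by_contra h
      push Not at h
      exact hc ⟨(abs_lt.mp h).1.le, (abs_lt.mp h).2.le⟩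
    simp only [hφ, b1_out this, zero_mul, Complex.ofReal_zero]
  have hφi : Integrable φ := by
    have h1 : IntegrableOn φ (Icc (-1 : ℝ) 1) := hφc.continuousOn.integrableOn_compact isCompact_Icc
    exact (integrableOn_iff_integrable_of_support_subset hsupp).mp h1
  have hinv : 𝓕⁻ φ = kr w := by
    ext x
    rw [Real.fourierInv_eq']
    unfold kr
    rw [intervalIntegral.integral_of_le (by norm_num), ← integral_Icc_eq_integral_Ioc,
      setIntegral_eq_integral_of_forall_compl_eq_zero]
    · congr 1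
      ext v
      rw [smul_eq_mul, mul_comm]
      congr 1
      unfold ec
      congr 1
      simp only [RCLike.inner_apply, conj_trivial]
      push_cast
      ring
    · intro y hy
      have : φ y = 0 := by
        by_contra h
        exact hy (hsupp h)
      simp only [hφ] at this
      rw [this, zero_mul]
  have hF : 𝓕 φ = fun x => kr w (-x) := by
    rw [← hinv]
    ext x
    rw [Real.fourierInv_eq_fourier_neg, neg_neg]
  have h1 := hφc.fourier_fourierInv_eq hφi (by
    rw [hF]
    exact (kr_int w hw).comp_neg)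
  have h2 := congrFun h1 η
  rw [hinv, Real.fourier_real_eq_integral_exp_smul] at h2
  refine Eq.trans ?_ h2
  congr 1
  ext v
  rw [smul_eq_mul]
  congr 1
  unfold ec
  congr 1
  push_cast
  ring

end Pool.Agent.Q89.WS
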