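import Pool.Agent.Q89.WS.A
set_option autoImplicit false

/-! Kernels of the decomposition of frequency space into unit cells: several variables. -/

namespace Pool.Agent.Q89.WS

open MeasureTheory Set Complex
open scoped ENNReal NNReal FourierTransform
open Pool.Agent.Y183.LS (ec ec_norm ec_enorm ec_add ec_cont ec_zero ec_sum dt dt_add dt_comm dt_cont
  dt_cont2 iz dt_add_left)

variable {d : ℕ}

/-- the kernel in several variables -/
noncomputable def KR (w : ℝ → ℝ) (x : Fin d → ℝ) : ℂ := ∏ i, kr w (x i)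

/-- the kernel at frequency `k` -/
noncomputable def KM (w : ℝ → ℝ) (k : Fin d → ℤ) (x : Fin d → ℝ) : ℂ := ec (dt (iz k) x) * KR w x

/-- the symbol -/
noncomputable def SB (w : ℝ → ℝ) (ξ : Fin d → ℝ) : ℝ := ∏ i, (b1 (ξ i) * w (ξ i))

/-- the Fourier transform -/
noncomputable def ft (f : (Fin d → ℝ) → ℂ) (ξ : Fin d → ℝ) : ℂ := ∫ x, ec (-(dt x ξ)) * f x

/-- convolution -/
noncomputable def cnv (g f : (Fin d → ℝ) → ℂ) (x : Fin d → ℝ) : ℂ := ∫ z, g (x - z) * f z

lemma KR_cont (w : ℝ → ℝ) (hw : ContDiff ℝ 2 w) : Continuous (KR w : (Fin d → ℝ) → ℂ) := by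
  unfold KR
  apply continuous_finsetProd
  intro i _
  exact (kr_cont w hw.continuous).comp (continuous_apply i)

lemma KM_cont (w : ℝ → ℝ) (hw : ContDiff ℝ 2 w) (k : Fin d → ℤ) : Continuous (KM w k) := by
  unfold KM
  exact (ec_cont.comp (dt_cont _)).mul (KR_cont w hw)

lemma KM_norm (w : ℝ → ℝ) (k : Fin d → ℤ) (x : Fin d → ℝ) : ‖KM w k x‖ = ‖KR w x‖ := by
  unfold KM
  rw [norm_mul, ec_norm, one_mul]

/-- the weight -/
noncomputable def Wt (x : Fin d → ℝ) : ℝ := ∏ i, (1 + x i ^ 2)⁻¹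

lemma Wt_pos (x : Fin d → ℝ) : 0 < Wt x := Finset.prod_pos fun i _ => by positivity

lemma Wt_le (x : Fin d → ℝ) : Wt x ≤ 1 := by
  unfold Wt
  refine Finset.prod_le_one (fun i _ => by positivity) fun i _ => ?_
  exact inv_le_one_of_one_le₀ (by nlinarith [sq_nonneg (x i)])

lemma Wt_cont : Continuous (Wt : (Fin d → ℝ) → ℝ) := by
  unfold Wt
  apply continuous_finsetProd
  intro i _
  exact Continuous.inv₀ (by fun_prop) fun x => by positivity

lemma Wt_int : Integrable (Wt : (Fin d → ℝ) → ℝ) := by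
  have h := Integrable.fintype_prod (𝕜 := ℝ) (ι := Fin d) (μ := fun _ => (volume : Measure ℝ))
    (f := fun _ x => (1 + x ^ 2)⁻¹) (fun _ => inv_sq_int)
  exact h

lemma KR_bound (w : ℝ → ℝ) (hw : ContDiff ℝ 2 w) (d : ℕ) : ∃ C : ℝ, 0 < C ∧
    ∀ x : Fin d → ℝ, ‖KR w x‖ ≤ C * Wt x := by
  obtain ⟨C, hC, h⟩ := kr_bound w hw
  refine ⟨C ^ d, by positivity, fun x => ?_⟩
  unfold KR Wt
  rw [norm_prod]
  have e : C ^ d * ∏ i, (1 + x i ^ 2)⁻¹ = ∏ i, C * (1 + x i ^ 2)⁻¹ := by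
    rw [Finset.prod_mul_distrib, Finset.prod_const, Finset.card_univ, Fintype.card_fin]
  rw [e]
  refine Finset.prod_le_prod (fun i _ => norm_nonneg _) fun i _ => ?_
  rw [← div_eq_mul_inv]
  exact h (x i)

lemma KR_int (w : ℝ → ℝ) (hw : ContDiff ℝ 2 w) : Integrable (KR w : (Fin d → ℝ) → ℂ) := by
  obtain ⟨C, hC, h⟩ := KR_bound w hw d
  refine (Wt_int.const_mul C).mono' (KR_cont w hw).aestronglyMeasurable ?_
  filter_upwards with x
  exact h x

lemma KM_int (w : ℝ → ℝ) (hw : ContDiff ℝ 2 w) (k : Fin d → ℤ) : Integrable (KM w k) := by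
  refine (KR_int w hw).mono (KM_cont w hw k).aestronglyMeasurable ?_
  filter_upwards with x
  rw [KM_norm]

lemma KM_ft (w : ℝ → ℝ) (hw : ContDiff ℝ 2 w) (k : Fin d → ℤ) (ξ : Fin d → ℝ) :
    ft (KM w k) ξ = (SB w (ξ - iz k) : ℂ) := by
  unfold ft SB
  have h1 : ∀ x : Fin d → ℝ, ec (-(dt x ξ)) * KM w k x =
      ∏ i, (ec (-(x i * (ξ i - iz k i))) * kr w (x i)) := by
    intro x
    rw [Finset.prod_mul_distrib, ← ec_sum]
    unfold KM KR
    rw [← mul_assoc, ← ec_add]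
    congr 2
    unfold dt
    rw [← Finset.sum_neg_distrib, ← Finset.sum_add_distrib]
    apply Finset.sum_congr rfl
    intro i _
    ring
  simp only [h1]
  rw [integral_fintype_prod_volume_eq_prod (𝕜 := ℂ)
    (fun i x => ec (-(x * (ξ i - iz k i))) * kr w x)]
  rw [Complex.ofReal_prod]
  apply Finset.prod_congr rfl
  intro i _
  rw [kr_ft w hw]
  rfl

lemma cnv_eq (g f : (Fin d → ℝ) → ℂ) :
    cnv g f = convolution f g (ContinuousLinearMap.mul ℂ ℂ) volume := by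
  ext x
  unfold cnv convolution
  congr 1
  ext z
  rw [ContinuousLinearMap.mul_apply', mul_comm]

lemma cnv_int {g f : (Fin d → ℝ) → ℂ} (hg : Integrable g) (hf : Integrable f) :
    Integrable (cnv g f) := by
  rw [cnv_eq]
  exact hf.integrable_convolution _ hg

lemma ec_dt_cont (ξ : Fin d → ℝ) : Continuous fun x : Fin d → ℝ => ec (-(dt x ξ)) := by
  apply ec_cont.comp
  unfold dt
  fun_prop

lemma mul_ec_int {f : (Fin d → ℝ) → ℂ} (hf : Integrable f) (ξ : Fin d → ℝ) :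
    Integrable fun x => ec (-(dt x ξ)) * f x := by
  refine hf.mono ((ec_dt_cont ξ).aestronglyMeasurable.mul hf.1) ?_
  filter_upwards with x
  rw [norm_mul, ec_norm, one_mul]

lemma dt_sub_left (x z ξ : Fin d → ℝ) : dt (x - z) ξ = dt x ξ - dt z ξ := by
  unfold dt
  rw [← Finset.sum_sub_distrib]
  apply Finset.sum_congr rfl
  intro i _
  rw [Pi.sub_apply]
  ring

lemma cnv_ft {g f : (Fin d → ℝ) → ℂ} (hg : Integrable g) (hf : Integrable f) (ξ : Fin d → ℝ) :
    ft (cnv g f) ξ = ft g ξ * ft f ξ := by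
  have h1 : (fun x => ec (-(dt x ξ)) * cnv g f x) =
      cnv (fun x => ec (-(dt x ξ)) * g x) (fun x => ec (-(dt x ξ)) * f x) := by
    ext x
    unfold cnv
    rw [← integral_const_mul]
    congr 1
    ext z
    have e : ec (-(dt x ξ)) = ec (-(dt (x - z) ξ)) * ec (-(dt z ξ)) := by
      rw [← ec_add, dt_sub_left]
      congr 1
      ring
    rw [e]
    ring
  unfold ft
  rw [h1, cnv_eq, integral_convolution _ (mul_ec_int hf ξ) (mul_ec_int hg ξ),
    ContinuousLinearMap.mul_apply', mul_comm]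

lemma cnv_cont {g f : (Fin d → ℝ) → ℂ} (hg : Continuous g) (B : ℝ) (hB : ∀ x, ‖g x‖ ≤ B)
    (hf : Integrable f) : Continuous (cnv g f) := by
  unfold cnv
  refine continuous_of_dominated (bound := fun z => B * ‖f z‖) ?_ ?_ (hf.norm.const_mul B) ?_
  · intro x
    exact (hg.comp (by fun_prop)).aestronglyMeasurable.mul hf.1
  · intro x
    filter_upwards with z
    rw [norm_mul]
    exact mul_le_mul_of_nonneg_right (hB _) (norm_nonneg _)
  · filter_upwards with z
    exact (hg.comp (by fun_prop)).mul continuous_const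

/-- the Gaussian weight -/
noncomputable def wg (η : ℝ) : ℝ := Real.exp (Real.pi * η ^ 2)
/-- the trivial weight -/
noncomputable def w0 (_η : ℝ) : ℝ := 1

lemma wg_cd : ContDiff ℝ 2 wg := by
  unfold wg
  fun_prop

lemma w0_cd : ContDiff ℝ 2 w0 := by
  unfold w0
  fun_prop

/-- the pieces -/
noncomputable def gk (f : (Fin d → ℝ) → ℂ) (k : Fin d → ℤ) : (Fin d → ℝ) → ℂ := cnv (KM wg k) f
noncomputable def hk (f : (Fin d → ℝ) → ℂ) (k : Fin d → ℤ) : (Fin d → ℝ) → ℂ :=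
  cnv (KM w0 k) (gk f k)

lemma KM_bdd (w : ℝ → ℝ) (hw : ContDiff ℝ 2 w) (d : ℕ) : ∃ B : ℝ, ∀ (k : Fin d → ℤ) (x : Fin d → ℝ),
    ‖KM w k x‖ ≤ B := by
  obtain ⟨C, hC, h⟩ := KR_bound w hw d
  refine ⟨C, fun k x => ?_⟩
  rw [KM_norm]
  refine (h x).trans ?_
  have := Wt_le x
  nlinarith

lemma gk_int {f : (Fin d → ℝ) → ℂ} (hf : Integrable f) (k : Fin d → ℤ) : Integrable (gk f k) :=
  cnv_int (KM_int wg wg_cd k) hf

lemma gk_cont {f : (Fin d → ℝ) → ℂ} (hf : Integrable f) (k : Fin d → ℤ) : Continuous (gk f k) := by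
  obtain ⟨B, hB⟩ := KM_bdd wg wg_cd d
  exact cnv_cont (KM_cont wg wg_cd k) B (hB k) hf

lemma hk_int {f : (Fin d → ℝ) → ℂ} (hf : Integrable f) (k : Fin d → ℤ) : Integrable (hk f k) :=
  cnv_int (KM_int w0 w0_cd k) (gk_int hf k)

lemma hk_cont {f : (Fin d → ℝ) → ℂ} (hf : Integrable f) (k : Fin d → ℤ) : Continuous (hk f k) := by
  obtain ⟨B, hB⟩ := KM_bdd w0 w0_cd d
  exact cnv_cont (KM_cont w0 w0_cd k) B (hB k) (gk_int hf k)

lemma hk_ft {f : (Fin d → ℝ) → ℂ} (hf : Integrable f) (k : Fin d → ℤ) (ξ : Fin d → ℝ) :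
    ft (hk f k) ξ = (SB w0 (ξ - iz k) : ℂ) * ((SB wg (ξ - iz k) : ℂ) * ft f ξ) := by
  unfold hk
  rw [cnv_ft (KM_int w0 w0_cd k) (gk_int hf k), KM_ft w0 w0_cd]
  unfold gk
  rw [cnv_ft (KM_int wg wg_cd k) hf, KM_ft wg wg_cd]

/-- the kernel of a multiplier -/
noncomputable def Kn (N : (Fin d → ℝ) → ℂ) (y : Fin d → ℝ) : ℂ := ∫ ξ, ec (dt y ξ) * N ξ

/-- a multiplier acts as a convolution with its kernel -/
lemma rep {N h : (Fin d → ℝ) → ℂ} (hN : Integrable N) (hh : Integrable h) (x : Fin d → ℝ) :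
    ∫ y, Kn N y * h (x - y) = ∫ ξ, ec (dt x ξ) * (N ξ * ft h ξ) := by
  unfold Kn
  have h1 : ∀ y, (∫ ξ, ec (dt y ξ) * N ξ) * h (x - y) = ∫ ξ, ec (dt y ξ) * N ξ * h (x - y) :=
    fun y => (integral_mul_const _ _).symm
  simp only [h1]
  have hh' : Integrable fun y => h (x - y) := hh.comp_sub_left x
  have h2 : Integrable (Function.uncurry fun (y ξ : Fin d → ℝ) => ec (dt y ξ) * N ξ * h (x - y))
      (volume.prod volume) := by
    have h3 := hh'.mul_prod hN
    refine h3.mono ?_ ?_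
    · have h4 : Continuous fun z : (Fin d → ℝ) × (Fin d → ℝ) => ec (dt z.1 z.2) :=
        ec_cont.comp dt_cont2
      have h5 := h4.aestronglyMeasurable (μ := (volume.prod volume)).mul h3.1
      refine h5.congr ?_
      filter_upwards with z
      simp only [Function.uncurry, Pi.mul_apply]
      ring
    · filter_upwards with z
      simp only [Function.uncurry, norm_mul, ec_norm, one_mul]
      rw [mul_comm]
  rw [integral_integral_swap h2]
  congr 1
  ext ξ
  have h4 : ∀ y, ec (dt y ξ) * N ξ * h (x - y) =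
      (fun z => ec (dt x ξ) * N ξ * (ec (-(dt z ξ)) * h z)) (x - y) := by
    intro y
    simp only
    have e : ec (dt y ξ) = ec (dt x ξ) * ec (-(dt (x - y) ξ)) := by
      rw [← ec_add, dt_sub_left]
      congr 1
      ring
    rw [e]
    ring
  simp only [h4]
  rw [integral_sub_left_eq_self (fun z => ec (dt x ξ) * N ξ * (ec (-(dt z ξ)) * h z)) volume x,
    integral_const_mul]
  unfold ft
  ring

end Pool.Agent.Q89.WS
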