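import Pool.Agent.Q89.WS.B
import Pool.Agent.Q89.AS.A
set_option autoImplicit false

/-! Periodic functions with weights, the inequality of Bessel, the transference. -/

namespace Pool.Agent.Q89.WS

open MeasureTheory Set Complex
open scoped ENNReal NNReal FourierTransform
open Pool.Agent.Y183.LS (ec ec_norm ec_enorm ec_add ec_cont ec_zero ec_sum dt dt_add dt_comm dt_cont
  dt_cont2 iz dt_add_left HC HC_meas tri tri_cont parseval_unit)
open Pool.Agent.Q89.AS (Wc Wc_sum w1c)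

variable {d : ℕ}

/-- convexity with a weight -/
lemma wjens {X : Type*} [MeasurableSpace X] (μ : Measure X) (w F : X → ℝ≥0∞) (hw : Measurable w)
    (hF : Measurable F) (r : ℝ) (hr : 1 ≤ r) :
    (∫⁻ x, w x * F x ∂μ) ^ r ≤ (∫⁻ x, w x ∂μ) ^ (r - 1) * ∫⁻ x, w x * F x ^ r ∂μ := by
  have h := Pool.Agent.W771.MD.jens (μ.withDensity w) F hF r hr
  rw [lintegral_withDensity_eq_lintegral_mul _ hw hF,
    lintegral_withDensity_eq_lintegral_mul _ hw (hF.pow_const r), withDensity_apply _ MeasurableSet.univ,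
    Measure.restrict_univ] at h
  exact h

/-- Cauchy-Schwarz with a weight -/
lemma wcs {X : Type*} [MeasurableSpace X] (μ : Measure X) (w F G : X → ℝ≥0∞) (hw : Measurable w)
    (hF : Measurable F) (hG : Measurable G) :
    (∫⁻ x, w x * (F x * G x) ∂μ) ^ 2 ≤ (∫⁻ x, w x * F x ^ 2 ∂μ) * ∫⁻ x, w x * G x ^ 2 ∂μ := by
  have h := ENNReal.lintegral_mul_le_Lp_mul_Lq (μ.withDensity w)
    (Real.HolderConjugate.two_two) hF.aemeasurable hG.aemeasurable
  have hFG : Measurable (F * G) := hF.mul hG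
  have h1 := lintegral_withDensity_eq_lintegral_mul μ hw hFG
  have h2 := lintegral_withDensity_eq_lintegral_mul μ hw (hF.pow_const (2 : ℝ))
  have h3 := lintegral_withDensity_eq_lintegral_mul μ hw (hG.pow_const (2 : ℝ))
  rw [h1, h2, h3] at h
  have h4 : (∫⁻ x, w x * (F x * G x) ∂μ) ≤
      (∫⁻ x, w x * F x ^ 2 ∂μ) ^ (1 / 2 : ℝ) * (∫⁻ x, w x * G x ^ 2 ∂μ) ^ (1 / 2 : ℝ) := by
    simpa only [Pi.mul_apply, ENNReal.rpow_ofNat] using h
  calc (∫⁻ x, w x * (F x * G x) ∂μ) ^ 2 ≤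
      ((∫⁻ x, w x * F x ^ 2 ∂μ) ^ (1 / 2 : ℝ) * (∫⁻ x, w x * G x ^ 2 ∂μ) ^ (1 / 2 : ℝ)) ^ 2 := by
        gcongr
    _ = _ := by
        rw [mul_pow, ← ENNReal.rpow_ofNat, ← ENNReal.rpow_ofNat, ← ENNReal.rpow_mul,
          ← ENNReal.rpow_mul]
        norm_num

/-- the cells -/
def Cl (n : Fin d → ℤ) : Set (Fin d → ℝ) := {y | ∀ i, (n i : ℝ) - 1 / 2 < y i ∧ y i ≤ n i + 1 / 2}

lemma Cl_meas (n : Fin d → ℤ) : MeasurableSet (Cl n) := by
  have : Cl n = Set.pi univ fun i => Ioc ((n i : ℝ) - 1 / 2) (n i + 1 / 2) := by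
    ext y
    simp [Cl]
  rw [this]
  exact MeasurableSet.univ_pi fun i => measurableSet_Ioc

lemma Cl_iff (n : Fin d → ℤ) (y : Fin d → ℝ) : y ∈ Cl n ↔ n = fun i => ⌈y i - 1 / 2⌉ := by
  unfold Cl
  rw [mem_ofPred_eq, funext_iff]
  apply forall_congr'
  intro i
  rw [eq_comm, Int.ceil_eq_iff]
  constructor
  · rintro ⟨h1, h2⟩
    constructor <;> linarith
  · rintro ⟨h1, h2⟩
    constructor <;> linarith

lemma HC_Cl : (HC d : Set (Fin d → ℝ)) = Cl 0 := by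
  ext y
  unfold HC Cl
  simp only [mem_ofPred_eq, Pi.zero_apply, Int.cast_zero, mem_Ioc]
  apply forall_congr'
  intro i
  constructor
  · rintro ⟨h1, h2⟩
    constructor <;> linarith
  · rintro ⟨h1, h2⟩
    constructor <;> linarith

lemma lint_cl (g : (Fin d → ℝ) → ℝ≥0∞) :
    ∫⁻ y, g y = ∑' n : Fin d → ℤ, ∫⁻ y in HC d, g (y + iz n) := by
  have hU : (⋃ n, (Cl n : Set (Fin d → ℝ))) = univ := by
    ext y
    simp only [mem_iUnion, mem_univ, iff_true]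
    exact ⟨_, (Cl_iff _ y).mpr rfl⟩
  have hdisj : Pairwise (Function.onFun Disjoint (fun n => (Cl n : Set (Fin d → ℝ)))) := by
    intro a b hab
    rw [Function.onFun, Set.disjoint_left]
    intro y h1 h2
    exact hab (((Cl_iff a y).mp h1).trans ((Cl_iff b y).mp h2).symm)
  rw [← setLIntegral_univ, ← hU, lintegral_iUnion Cl_meas hdisj, HC_Cl]
  congr 1
  ext n
  rw [← lintegral_indicator (Cl_meas n), ← lintegral_indicator (Cl_meas 0),
    ← lintegral_add_right_eq_self _ (iz n)]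
  congr 1
  ext y
  have h1 : y + iz n ∈ Cl n ↔ y ∈ Cl 0 := by
    unfold Cl iz
    simp only [mem_ofPred_eq, Pi.add_apply, Pi.zero_apply, Int.cast_zero]
    apply forall_congr'
    intro i
    constructor
    · rintro ⟨h1, h2⟩
      constructor <;> linarith
    · rintro ⟨h1, h2⟩
      constructor <;> linarith
  by_cases hy : y ∈ Cl 0
  · rw [indicator_of_mem hy, indicator_of_mem (h1.mpr hy)]
  · rw [indicator_of_notMem hy, indicator_of_notMem (fun h => hy (h1.mp h))]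

lemma Wt_shift (n : Fin d → ℤ) (y : Fin d → ℝ) (hy : y ∈ HC d) :
    ENNReal.ofReal (Wt (y + iz n)) ≤ 8 ^ d * Wc 1 n := by
  unfold Wt Wc w1c
  rw [ENNReal.ofReal_prod_of_nonneg fun i _ => by positivity]
  have e : (8 : ℝ≥0∞) ^ d * ∏ i, ENNReal.ofReal ((1 + |(n i : ℝ)|) ^ (-(2 * (1 : ℝ)))) =
      ∏ i, (8 * ENNReal.ofReal ((1 + |(n i : ℝ)|) ^ (-(2 * (1 : ℝ))))) := by
    rw [Finset.prod_mul_distrib, Finset.prod_const, Finset.card_univ, Fintype.card_fin]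
  rw [e]
  refine Finset.prod_le_prod' fun i _ => ?_
  have e8 : (8 : ℝ≥0∞) = ENNReal.ofReal 8 := by simp
  rw [e8, ← ENNReal.ofReal_mul (by norm_num)]
  apply ENNReal.ofReal_le_ofReal
  have hyi : -(1 / 2) < y i ∧ y i ≤ 1 / 2 := by
    have := hy i
    rw [mem_Ioc] at this
    constructor <;> linarith [this.1, this.2]
  have e2 : (1 + |(n i : ℝ)|) ^ (-(2 * (1 : ℝ))) = ((1 + |(n i : ℝ)|) ^ 2)⁻¹ := by
    rw [mul_one, Real.rpow_neg (by positivity)]
    norm_num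
  rw [e2, Pi.add_apply]
  simp only [iz]
  rw [← div_eq_mul_inv, inv_eq_one_div, div_le_div_iff₀ (by positivity) (by positivity)]
  by_cases hn : n i = 0
  · rw [hn]
    simp only [Int.cast_zero, abs_zero, add_zero, one_mul]
    nlinarith [sq_nonneg (y i)]
  · have h1 : (1 : ℝ) ≤ |(n i : ℝ)| := by
      exact_mod_cast Int.one_le_abs hn
    have h2 : |(n i : ℝ)| / 2 ≤ |y i + n i| := by
      have h3 : |(n i : ℝ)| ≤ |y i + n i| + |y i| := by
        have := abs_sub (y i + n i) (y i)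
        simpa using this
      have h4 : |y i| ≤ 1 / 2 := abs_le.mpr ⟨by linarith [hyi.1], hyi.2⟩
      linarith
    have h3 : |(n i : ℝ)| ^ 2 / 4 ≤ (y i + n i) ^ 2 := by
      rw [← sq_abs (y i + n i)]
      nlinarith [abs_nonneg (y i + n i)]
    nlinarith [abs_nonneg (n i : ℝ)]

/-- **weights against periodic functions** -/
lemma per (d : ℕ) : ∃ C : ℝ≥0, ∀ F : (Fin d → ℝ) → ℝ≥0∞, Measurable F →
    (∀ (n : Fin d → ℤ) (y : Fin d → ℝ), F (y + iz n) = F y) →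
    ∫⁻ y, ENNReal.ofReal (Wt y) * F y ≤ C * ∫⁻ y in HC d, F y := by
  obtain ⟨C, hC⟩ := Wc_sum 1 (by norm_num) d
  refine ⟨8 ^ d * C, fun F hF hper => ?_⟩
  rw [lint_cl fun y => ENNReal.ofReal (Wt y) * F y]
  calc ∑' n : Fin d → ℤ, ∫⁻ y in HC d, ENNReal.ofReal (Wt (y + iz n)) * F (y + iz n) ≤
      ∑' n : Fin d → ℤ, (8 ^ d * Wc 1 n) * ∫⁻ y in HC d, F y := by
        refine ENNReal.tsum_le_tsum fun n => ?_
        rw [← lintegral_const_mul _ hF]
        refine setLIntegral_mono ((hF.const_mul _)) fun y hy => ?_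
        rw [hper]
        gcongr
        exact Wt_shift n y hy
    _ = 8 ^ d * (∑' n : Fin d → ℤ, Wc 1 n) * ∫⁻ y in HC d, F y := by
        rw [ENNReal.tsum_mul_right, ENNReal.tsum_mul_left]
    _ ≤ _ := by
        push_cast
        gcongr
        rw [ENNReal.tsum_eq_iSup_sum]
        exact iSup_le fun s => hC s

lemma ec_int (n : ℤ) : ec (n : ℝ) = 1 := by
  unfold ec
  rw [Complex.exp_eq_one_iff]
  exact ⟨n, by push_cast; ring⟩

lemma ec_per (k n : Fin d → ℤ) (y : Fin d → ℝ) : ec (dt (iz k) (y + iz n)) = ec (dt (iz k) y) := by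
  rw [dt_add, ec_add]
  have h1 : dt (iz k) (iz n) = ((∑ i, k i * n i : ℤ) : ℝ) := by
    unfold dt iz
    push_cast
    rfl
  rw [h1, ec_int, mul_one]

lemma tri_per (S : Finset (Fin d → ℤ)) (c : (Fin d → ℤ) → ℂ) (n : Fin d → ℤ) (y : Fin d → ℝ) :
    tri S iz c (y + iz n) = tri S iz c y := by
  unfold tri
  simp only [ec_per]

/-- **the inequality of Bessel** -/
lemma bessel_loc (d : ℕ) : ∃ C : ℝ≥0, ∀ (f : (Fin d → ℝ) → ℂ), Measurable f → Integrable f →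
    ∀ (S : Finset (Fin d → ℤ)) (z : Fin d → ℝ), ∑ k ∈ S, ‖gk f k z‖ₑ ^ 2 ≤
      C * ∫⁻ y, ‖KR wg (z - y)‖ₑ * ‖f y‖ₑ ^ 2 := by
  obtain ⟨C1, hC1⟩ := per d
  obtain ⟨C2, hC2, hb⟩ := KR_bound wg wg_cd d
  obtain ⟨B, hB⟩ := KM_bdd wg wg_cd d
  refine ⟨C2.toNNReal * C1, fun f hfm hf S z => ?_⟩
  have hKRm : Measurable (KR wg : (Fin d → ℝ) → ℂ) := (KR_cont wg wg_cd).measurable
  set G : ℝ≥0∞ := ∑ k ∈ S, ‖gk f k z‖ₑ ^ 2 with hG
  have hGt : G ≠ ∞ := (ENNReal.sum_lt_top.mpr fun k _ => by simp).ne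
  set a : (Fin d → ℤ) → ℂ := fun k => (starRingEnd ℂ) (gk f k z) with ha
  set X : ℝ≥0∞ := ∫⁻ y, ‖KR wg (z - y)‖ₑ * ‖f y‖ₑ ^ 2 with hX
  have h1 : (∑ k ∈ S, a k * gk f k z) = ∫ y, KR wg (z - y) * (tri S iz a (z - y) * f y) := by
    unfold gk cnv
    simp only [← integral_const_mul]
    rw [← integral_finsetSum]
    · congr 1
      ext y
      unfold tri KM
      rw [Finset.sum_mul, Finset.mul_sum]
      apply Finset.sum_congr rfl
      intro k _
      ring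
    · intro k _
      apply Integrable.const_mul
      refine (hf.norm.const_mul B).mono' ?_ ?_
      · exact (((KM_cont wg wg_cd k).comp (by fun_prop)).aestronglyMeasurable).mul hf.1
      · filter_upwards with y
        rw [norm_mul]
        exact mul_le_mul_of_nonneg_right (hB _ _) (norm_nonneg _)
  have h2 : G = ‖∑ k ∈ S, a k * gk f k z‖ₑ := by
    have e1 : ∑ k ∈ S, a k * gk f k z = ((∑ k ∈ S, ‖gk f k z‖ ^ 2 : ℝ) : ℂ) := by
      push_cast
      apply Finset.sum_congr rfl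
      intro k _
      rw [ha]
      exact Complex.conj_mul' _
    rw [e1, ← ofReal_norm, Complex.norm_real, Real.norm_of_nonneg (by positivity), hG,
      ENNReal.ofReal_sum_of_nonneg fun k _ => by positivity]
    apply Finset.sum_congr rfl
    intro k _
    rw [ENNReal.ofReal_pow (norm_nonneg _), ofReal_norm]
  have h3 : G ≤ ∫⁻ y, ‖KR wg (z - y)‖ₑ * (‖tri S iz a (z - y)‖ₑ * ‖f y‖ₑ) := by
    rw [h2, h1]
    refine (enorm_integral_le_lintegral_enorm _).trans (le_of_eq ?_)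
    simp only [enorm_mul]
  have h4 := wcs volume (fun y => ‖KR wg (z - y)‖ₑ) (fun y => ‖tri S iz a (z - y)‖ₑ)
    (fun y => ‖f y‖ₑ) (hKRm.comp (by fun_prop)).enorm
    ((tri_cont S iz a).measurable.comp (by fun_prop)).enorm hfm.enorm
  have h5 : ∫⁻ y, ‖KR wg (z - y)‖ₑ * ‖tri S iz a (z - y)‖ₑ ^ 2 ≤ (C2.toNNReal * C1 : ℝ≥0) * G := by
    have e1 : ∫⁻ y, ‖KR wg (z - y)‖ₑ * ‖tri S iz a (z - y)‖ₑ ^ 2 =
        ∫⁻ y, ‖KR wg y‖ₑ * ‖tri S iz a y‖ₑ ^ 2 :=
      lintegral_sub_left_eq_self (fun y => ‖KR wg y‖ₑ * ‖tri S iz a y‖ₑ ^ 2) z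
    rw [e1]
    have e2 : ∫⁻ y, ‖KR wg y‖ₑ * ‖tri S iz a y‖ₑ ^ 2 ≤
        ∫⁻ y, ENNReal.ofReal C2 * (ENNReal.ofReal (Wt y) * ‖tri S iz a y‖ₑ ^ 2) := by
      apply lintegral_mono
      intro y
      simp only
      rw [← mul_assoc, ← ENNReal.ofReal_mul hC2.le]
      gcongr
      rw [← ofReal_norm]
      exact ENNReal.ofReal_le_ofReal (hb y)
    refine e2.trans ?_
    have hm : Measurable fun y : Fin d → ℝ => ‖tri S iz a y‖ₑ ^ 2 :=
      (tri_cont S iz a).measurable.enorm.pow_const 2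
    have hm2 : Measurable fun y : Fin d → ℝ => ENNReal.ofReal (Wt y) * ‖tri S iz a y‖ₑ ^ 2 :=
      (Wt_cont.measurable.ennreal_ofReal).mul hm
    rw [lintegral_const_mul _ hm2]
    have e3 := hC1 _ hm fun n y => by rw [tri_per]
    rw [parseval_unit] at e3
    have e4 : ∑ k ∈ S, ‖a k‖ₑ ^ 2 = G := by
      rw [hG]
      apply Finset.sum_congr rfl
      intro k _
      rw [ha]
      simp only [← ofReal_norm, RCLike.norm_conj]
    rw [e4] at e3
    calc ENNReal.ofReal C2 * ∫⁻ y, ENNReal.ofReal (Wt y) * ‖tri S iz a y‖ₑ ^ 2 ≤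
        ENNReal.ofReal C2 * (C1 * G) := by gcongr
      _ = _ := by
          rw [← mul_assoc]
          rfl
  have h6 : G ^ 2 ≤ (C2.toNNReal * C1 : ℝ≥0) * G * X := by
    calc G ^ 2 ≤ (∫⁻ y, ‖KR wg (z - y)‖ₑ * (‖tri S iz a (z - y)‖ₑ * ‖f y‖ₑ)) ^ 2 := by gcongr
      _ ≤ _ := h4
      _ ≤ _ := by gcongr
  by_cases hG0 : G = 0
  · rw [hG0]
    exact zero_le
  · rw [sq] at h6
    have h7 : G * G ≤ G * ((C2.toNNReal * C1 : ℝ≥0) * X) := by
      refine h6.trans (le_of_eq ?_)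
      ring
    exact (ENNReal.mul_le_mul_iff_right hG0 hGt).mp h7

end Pool.Agent.Q89.WS
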