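import Pool.Agent.Q89.WS.C
set_option autoImplicit false

/-! The transference from the torus. -/

namespace Pool.Agent.Q89.WS

open MeasureTheory Set Complex
open scoped ENNReal NNReal FourierTransform
open Pool.Agent.Y183.LS (ec ec_norm ec_enorm ec_add ec_cont ec_zero ec_sum dt dt_add dt_comm dt_cont
  dt_cont2 iz dt_add_left HC HC_meas tri tri_cont parseval_unit)
open Pool.Agent.Q89.AS (Wc Wc_sum w1c)

variable {d : ℕ}

/-- the hypothesis on the torus -/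
def HT (ν : Measure ℝ) (S : Finset (Fin d → ℤ)) (E : (Fin d → ℤ) → ℝ → ℂ) (p : ℝ) (KK : ℝ≥0∞) :
    Prop :=
  ∀ c : (Fin d → ℤ) → ℂ, ∫⁻ t, (∫⁻ y in HC d, ‖tri S iz (fun k => c k * E k t) y‖ₑ ^ p) ∂ν ≤
    KK * (∑ k ∈ S, ‖c k‖ₑ ^ 2) ^ (p / 2)

lemma KR_lint (w : ℝ → ℝ) (hw : ContDiff ℝ 2 w) (d : ℕ) : ∃ C : ℝ≥0,
    ∫⁻ y : Fin d → ℝ, ‖KR w y‖ₑ ≤ C := by
  have h := (KR_int w hw (d := d)).2
  unfold HasFiniteIntegral at h
  exact ⟨(∫⁻ y : Fin d → ℝ, ‖KR w y‖ₑ).toNNReal, by rw [ENNReal.coe_toNNReal h.ne]⟩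

/-- **transference** -/
theorem transf (d : ℕ) (p : ℝ) (hp : 2 ≤ p) : ∃ C : ℝ≥0, ∀ (ν : Measure ℝ) [SFinite ν]
    (S : Finset (Fin d → ℤ)) (E : (Fin d → ℤ) → ℝ → ℂ), (∀ k, Measurable (E k)) →
    ∀ KK : ℝ≥0∞, HT ν S E p KK → ∀ f : (Fin d → ℝ) → ℂ, Measurable f → Integrable f →
    ∀ (a : (Fin d → ℤ) → ℂ) (A : ℝ≥0∞), (∀ k ∈ S, ‖a k‖ₑ ≤ A) →
    ∫⁻ t, (∫⁻ x, ‖∑ k ∈ S, a k * E k t * hk f k x‖ₑ ^ p) ∂ν ≤ C * KK * A ^ p * ∫⁻ x, ‖f x‖ₑ ^ p := by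
  obtain ⟨β, hβ⟩ := KR_lint w0 w0_cd d
  obtain ⟨γ, hγ⟩ := KR_lint wg wg_cd d
  obtain ⟨C1, hC1⟩ := per d
  obtain ⟨C2, hC2, hb⟩ := KR_bound w0 w0_cd d
  obtain ⟨B, hB⟩ := KM_bdd w0 w0_cd d
  obtain ⟨C3, hC3⟩ := bessel_loc d
  have hp0 : 0 < p := by linarith
  refine ⟨β ^ (p - 1) * (C2.toNNReal * C1 * (C3 ^ (p / 2) * γ ^ (p / 2))), ?_⟩
  intro ν _ S E hE KK hK f hfm hf a A ha
  have hKRm : Measurable (KR w0 : (Fin d → ℝ) → ℂ) := (KR_cont w0 w0_cd).measurable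
  have hKgm : Measurable (KR wg : (Fin d → ℝ) → ℂ) := (KR_cont wg wg_cd).measurable
  have hgm : ∀ k, Measurable (gk f k) := fun k => (gk_cont hf k).measurable
  obtain ⟨T, hT⟩ : ∃ T : ℝ → (Fin d → ℝ) → (Fin d → ℝ) → ℂ, T = fun t z y =>
    tri S iz (fun k => a k * gk f k z * E k t) y := ⟨_, rfl⟩
  have hTm : Measurable fun q : ℝ × (Fin d → ℝ) × (Fin d → ℝ) => T q.1 q.2.1 q.2.2 := by
    rw [hT]
    unfold tri
    apply Finset.measurable_sum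
    intro k _
    refine ((measurable_const.mul ((hgm k).comp (by fun_prop))).mul ((hE k).comp (by fun_prop))).mul ?_
    exact ec_cont.measurable.comp ((dt_cont (iz k)).measurable.comp (by fun_prop))
  have hTe : Measurable fun q : ℝ × (Fin d → ℝ) × (Fin d → ℝ) => ‖T q.1 q.2.1 q.2.2‖ₑ ^ p :=
    hTm.enorm.pow_const p
  have hpt : ∀ t x, ∑ k ∈ S, a k * E k t * hk f k x = ∫ z, KR w0 (x - z) * T t z (x - z) := by
    intro t x
    unfold hk cnv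
    simp only [← integral_const_mul]
    rw [← integral_finsetSum]
    · congr 1
      ext z
      rw [hT]
      unfold tri KM
      simp only
      rw [Finset.mul_sum]
      apply Finset.sum_congr rfl
      intro k _
      ring
    · intro k _
      apply Integrable.const_mul
      refine ((gk_int hf k).norm.const_mul B).mono' ?_ ?_
      · exact (((KM_cont w0 w0_cd k).comp (by fun_prop)).aestronglyMeasurable).mul (gk_int hf k).1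
      · filter_upwards with y
        rw [norm_mul]
        exact mul_le_mul_of_nonneg_right (hB _ _) (norm_nonneg _)
  have h1 : ∀ t x, ‖∑ k ∈ S, a k * E k t * hk f k x‖ₑ ^ p ≤
      (β : ℝ≥0∞) ^ (p - 1) * ∫⁻ z, ‖KR w0 (x - z)‖ₑ * ‖T t z (x - z)‖ₑ ^ p := by
    intro t x
    rw [hpt]
    have e1 : ‖∫ z, KR w0 (x - z) * T t z (x - z)‖ₑ ≤ ∫⁻ z, ‖KR w0 (x - z)‖ₑ * ‖T t z (x - z)‖ₑ := by
      refine (enorm_integral_le_lintegral_enorm _).trans (le_of_eq ?_)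
      simp only [enorm_mul]
    have e2 := wjens volume (fun z => ‖KR w0 (x - z)‖ₑ) (fun z => ‖T t z (x - z)‖ₑ)
      (hKRm.comp (by fun_prop)).enorm (hTm.comp (by fun_prop :
        Measurable fun z : Fin d → ℝ => (t, z, x - z))).enorm p (by linarith)
    have e3 : ∫⁻ z, ‖KR w0 (x - z)‖ₑ ≤ β := by
      rw [lintegral_sub_left_eq_self (fun z => ‖KR w0 z‖ₑ) x]
      exact hβ
    calc ‖∫ z, KR w0 (x - z) * T t z (x - z)‖ₑ ^ p ≤
        (∫⁻ z, ‖KR w0 (x - z)‖ₑ * ‖T t z (x - z)‖ₑ) ^ p := ENNReal.rpow_le_rpow e1 hp0.le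
      _ ≤ _ := e2
      _ ≤ _ := by
          gcongr
          linarith
  have h2 : ∀ t, ∫⁻ x, ‖∑ k ∈ S, a k * E k t * hk f k x‖ₑ ^ p ≤
      (β : ℝ≥0∞) ^ (p - 1) * ((C2.toNNReal * C1 : ℝ≥0) * ∫⁻ z, ∫⁻ y in HC d, ‖T t z y‖ₑ ^ p) := by
    intro t
    have m1 : Measurable fun q : (Fin d → ℝ) × (Fin d → ℝ) =>
        ‖KR w0 (q.1 - q.2)‖ₑ * ‖T t q.2 (q.1 - q.2)‖ₑ ^ p :=
      (hKRm.comp (by fun_prop)).enorm.mul (hTe.comp (by fun_prop :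
        Measurable fun q : (Fin d → ℝ) × (Fin d → ℝ) => (t, q.2, q.1 - q.2)))
    calc ∫⁻ x, ‖∑ k ∈ S, a k * E k t * hk f k x‖ₑ ^ p ≤
        ∫⁻ x, (β : ℝ≥0∞) ^ (p - 1) * ∫⁻ z, ‖KR w0 (x - z)‖ₑ * ‖T t z (x - z)‖ₑ ^ p :=
          lintegral_mono fun x => h1 t x
      _ = (β : ℝ≥0∞) ^ (p - 1) * ∫⁻ x, ∫⁻ z, ‖KR w0 (x - z)‖ₑ * ‖T t z (x - z)‖ₑ ^ p :=
          lintegral_const_mul _ m1.lintegral_prod_right'
      _ = (β : ℝ≥0∞) ^ (p - 1) * ∫⁻ z, ∫⁻ x, ‖KR w0 (x - z)‖ₑ * ‖T t z (x - z)‖ₑ ^ p := by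
          rw [lintegral_lintegral_swap m1.aemeasurable]
      _ = (β : ℝ≥0∞) ^ (p - 1) * ∫⁻ z, ∫⁻ y, ‖KR w0 y‖ₑ * ‖T t z y‖ₑ ^ p := by
          congr 2
          ext z
          exact lintegral_sub_right_eq_self (fun y => ‖KR w0 y‖ₑ * ‖T t z y‖ₑ ^ p) z
      _ ≤ _ := by
          gcongr
          have m2 : Measurable fun q : (Fin d → ℝ) × (Fin d → ℝ) => ‖T t q.1 q.2‖ₑ ^ p :=
            hTe.comp (by fun_prop : Measurable fun q : (Fin d → ℝ) × (Fin d → ℝ) => (t, q.1, q.2))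
          rw [← lintegral_const_mul _ m2.lintegral_prod_right']
          apply lintegral_mono
          intro z
          simp only
          have m3 : Measurable fun y : Fin d → ℝ => ‖T t z y‖ₑ ^ p :=
            m2.comp (by fun_prop : Measurable fun y : Fin d → ℝ => (z, y))
          have m4 : Measurable fun y : Fin d → ℝ => ENNReal.ofReal (Wt y) * ‖T t z y‖ₑ ^ p :=
            (Wt_cont.measurable.ennreal_ofReal).mul m3
          calc ∫⁻ y, ‖KR w0 y‖ₑ * ‖T t z y‖ₑ ^ p ≤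
              ∫⁻ y, ENNReal.ofReal C2 * (ENNReal.ofReal (Wt y) * ‖T t z y‖ₑ ^ p) := by
                apply lintegral_mono
                intro y
                simp only
                rw [← mul_assoc, ← ENNReal.ofReal_mul hC2.le]
                gcongr
                rw [← ofReal_norm]
                exact ENNReal.ofReal_le_ofReal (hb y)
            _ = ENNReal.ofReal C2 * ∫⁻ y, ENNReal.ofReal (Wt y) * ‖T t z y‖ₑ ^ p :=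
                lintegral_const_mul _ m4
            _ ≤ ENNReal.ofReal C2 * (C1 * ∫⁻ y in HC d, ‖T t z y‖ₑ ^ p) := by
                gcongr
                exact hC1 _ m3 fun n y => by rw [hT]; simp only [tri_per]
            _ = _ := by
                rw [← mul_assoc]
                rfl
  have m5 : Measurable fun q : ℝ × (Fin d → ℝ) => ∫⁻ y in HC d, ‖T q.1 q.2 y‖ₑ ^ p := by
    have : Measurable fun r : (ℝ × (Fin d → ℝ)) × (Fin d → ℝ) => ‖T r.1.1 r.1.2 r.2‖ₑ ^ p :=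
      hTe.comp (by fun_prop : Measurable fun r : (ℝ × (Fin d → ℝ)) × (Fin d → ℝ) =>
        (r.1.1, r.1.2, r.2))
    exact this.lintegral_prod_right'
  have h3 : ∫⁻ t, (∫⁻ z, ∫⁻ y in HC d, ‖T t z y‖ₑ ^ p) ∂ν ≤
      KK * A ^ p * ((C3 : ℝ≥0∞) ^ (p / 2) * (γ : ℝ≥0∞) ^ (p / 2) * ∫⁻ x, ‖f x‖ₑ ^ p) := by
    rw [lintegral_lintegral_swap m5.aemeasurable]
    have e1 : ∀ z, ∫⁻ t, (∫⁻ y in HC d, ‖T t z y‖ₑ ^ p) ∂ν ≤
        KK * A ^ p * ((C3 : ℝ≥0∞) ^ (p / 2) * (γ : ℝ≥0∞) ^ (p / 2 - 1) *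
          ∫⁻ y, ‖KR wg (z - y)‖ₑ * ‖f y‖ₑ ^ p) := by
      intro z
      have e2 := hK fun k => a k * gk f k z
      have e2' : ∫⁻ t, (∫⁻ y in HC d, ‖T t z y‖ₑ ^ p) ∂ν ≤
          KK * (∑ k ∈ S, ‖a k * gk f k z‖ₑ ^ 2) ^ (p / 2) := by
        rw [hT]
        exact e2
      refine e2'.trans ?_
      have e3 : ∑ k ∈ S, ‖a k * gk f k z‖ₑ ^ 2 ≤
          A ^ 2 * (C3 * ∫⁻ y, ‖KR wg (z - y)‖ₑ * ‖f y‖ₑ ^ 2) := by
        calc ∑ k ∈ S, ‖a k * gk f k z‖ₑ ^ 2 ≤ ∑ k ∈ S, A ^ 2 * ‖gk f k z‖ₑ ^ 2 := by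
              apply Finset.sum_le_sum
              intro k hk
              rw [enorm_mul, mul_pow]
              gcongr
              exact ha k hk
          _ = A ^ 2 * ∑ k ∈ S, ‖gk f k z‖ₑ ^ 2 := by rw [Finset.mul_sum]
          _ ≤ _ := by
              gcongr
              exact hC3 f hfm hf S z
      have e4 := wjens volume (fun y => ‖KR wg (z - y)‖ₑ) (fun y => ‖f y‖ₑ ^ 2)
        (hKgm.comp (by fun_prop)).enorm (hfm.enorm.pow_const 2) (p / 2) (by linarith)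
      have e5 : ∫⁻ y, ‖KR wg (z - y)‖ₑ ≤ γ := by
        rw [lintegral_sub_left_eq_self (fun y => ‖KR wg y‖ₑ) z]
        exact hγ
      have e6 : ∀ y, (‖f y‖ₑ ^ 2) ^ (p / 2) = ‖f y‖ₑ ^ p := by
        intro y
        rw [← ENNReal.rpow_ofNat, ← ENNReal.rpow_mul]
        congr 1
        ring
      simp only [e6] at e4
      have e7 : (A ^ 2) ^ (p / 2) = A ^ p := by
        rw [← ENNReal.rpow_ofNat, ← ENNReal.rpow_mul]
        congr 1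
        ring
      calc KK * (∑ k ∈ S, ‖a k * gk f k z‖ₑ ^ 2) ^ (p / 2) ≤
          KK * (A ^ 2 * (C3 * ∫⁻ y, ‖KR wg (z - y)‖ₑ * ‖f y‖ₑ ^ 2)) ^ (p / 2) := by gcongr
        _ = KK * A ^ p * ((C3 : ℝ≥0∞) ^ (p / 2) *
            (∫⁻ y, ‖KR wg (z - y)‖ₑ * ‖f y‖ₑ ^ 2) ^ (p / 2)) := by
            rw [ENNReal.mul_rpow_of_nonneg _ _ (by positivity),
              ENNReal.mul_rpow_of_nonneg _ _ (by positivity), e7]
            ring
        _ ≤ KK * A ^ p * ((C3 : ℝ≥0∞) ^ (p / 2) * ((∫⁻ y, ‖KR wg (z - y)‖ₑ) ^ (p / 2 - 1) *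
            ∫⁻ y, ‖KR wg (z - y)‖ₑ * ‖f y‖ₑ ^ p)) := by gcongr
        _ ≤ KK * A ^ p * ((C3 : ℝ≥0∞) ^ (p / 2) * ((γ : ℝ≥0∞) ^ (p / 2 - 1) *
            ∫⁻ y, ‖KR wg (z - y)‖ₑ * ‖f y‖ₑ ^ p)) := by
            gcongr
            linarith
        _ = _ := by ring
    have m6 : Measurable fun q : (Fin d → ℝ) × (Fin d → ℝ) =>
        ‖KR wg (q.1 - q.2)‖ₑ * ‖f q.2‖ₑ ^ p :=
      (hKgm.comp (by fun_prop)).enorm.mul ((hfm.comp measurable_snd).enorm.pow_const p)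
    have e8 : ∫⁻ z, ∫⁻ y, ‖KR wg (z - y)‖ₑ * ‖f y‖ₑ ^ p ≤ γ * ∫⁻ y, ‖f y‖ₑ ^ p := by
      rw [lintegral_lintegral_swap m6.aemeasurable, ← lintegral_const_mul _ (hfm.enorm.pow_const p)]
      apply lintegral_mono
      intro y
      simp only
      have m7 : Measurable fun z : Fin d → ℝ => ‖KR wg (z - y)‖ₑ := (hKgm.comp (by fun_prop)).enorm
      rw [lintegral_mul_const _ m7,
        lintegral_sub_right_eq_self (fun z => ‖KR wg z‖ₑ) y]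
      gcongr
    calc ∫⁻ z, ∫⁻ t, (∫⁻ y in HC d, ‖T t z y‖ₑ ^ p) ∂ν ≤
        ∫⁻ z, KK * A ^ p * ((C3 : ℝ≥0∞) ^ (p / 2) * (γ : ℝ≥0∞) ^ (p / 2 - 1)) *
          ∫⁻ y, ‖KR wg (z - y)‖ₑ * ‖f y‖ₑ ^ p := by
            apply lintegral_mono
            intro z
            refine (e1 z).trans (le_of_eq ?_)
            simp only
            ring
      _ = KK * A ^ p * ((C3 : ℝ≥0∞) ^ (p / 2) * (γ : ℝ≥0∞) ^ (p / 2 - 1)) *
          ∫⁻ z, ∫⁻ y, ‖KR wg (z - y)‖ₑ * ‖f y‖ₑ ^ p :=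
            lintegral_const_mul _ m6.lintegral_prod_right'
      _ ≤ KK * A ^ p * ((C3 : ℝ≥0∞) ^ (p / 2) * (γ : ℝ≥0∞) ^ (p / 2 - 1)) *
          (γ * ∫⁻ y, ‖f y‖ₑ ^ p) := by gcongr
      _ = KK * A ^ p * ((C3 : ℝ≥0∞) ^ (p / 2) * ((γ : ℝ≥0∞) ^ (p / 2 - 1) * γ) *
          ∫⁻ y, ‖f y‖ₑ ^ p) := by ring
      _ = _ := by
          congr 3
          have : (γ : ℝ≥0∞) ^ (p / 2 - 1) * γ = (γ : ℝ≥0∞) ^ (p / 2 - 1) * (γ : ℝ≥0∞) ^ (1 : ℝ) := by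
            rw [ENNReal.rpow_one]
          rw [this, ← ENNReal.rpow_add_of_nonneg _ _ (by linarith) (by norm_num)]
          congr 1
          ring
  calc ∫⁻ t, (∫⁻ x, ‖∑ k ∈ S, a k * E k t * hk f k x‖ₑ ^ p) ∂ν ≤
      ∫⁻ t, (β : ℝ≥0∞) ^ (p - 1) * ((C2.toNNReal * C1 : ℝ≥0) *
        ∫⁻ z, ∫⁻ y in HC d, ‖T t z y‖ₑ ^ p) ∂ν := lintegral_mono fun t => h2 t
    _ = (β : ℝ≥0∞) ^ (p - 1) * ((C2.toNNReal * C1 : ℝ≥0) *
        ∫⁻ t, (∫⁻ z, ∫⁻ y in HC d, ‖T t z y‖ₑ ^ p) ∂ν) := by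
        rw [lintegral_const_mul _ (m5.lintegral_prod_right'.const_mul _),
          lintegral_const_mul _ m5.lintegral_prod_right']
    _ ≤ (β : ℝ≥0∞) ^ (p - 1) * ((C2.toNNReal * C1 : ℝ≥0) *
        (KK * A ^ p * ((C3 : ℝ≥0∞) ^ (p / 2) * (γ : ℝ≥0∞) ^ (p / 2) * ∫⁻ x, ‖f x‖ₑ ^ p))) := by gcongr
    _ = _ := by
        push_cast
        rw [ENNReal.coe_rpow_of_nonneg _ (by linarith), ENNReal.coe_rpow_of_nonneg _ (by linarith),
          ENNReal.coe_rpow_of_nonneg _ (by linarith)]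
        ring

/-- superpositions -/
theorem superp {d : ℕ} {p : ℝ} (hp : 1 ≤ p) {ν : Measure ℝ} [SFinite ν] {S : Finset (Fin d → ℤ)}
    {E : (Fin d → ℤ) → ℝ → ℂ} (hE : ∀ k, Measurable (E k)) {f : (Fin d → ℝ) → ℂ} (hf : Integrable f)
    {A Q : ℝ≥0∞} (hQ : ∀ a : (Fin d → ℤ) → ℂ, (∀ k ∈ S, ‖a k‖ₑ ≤ A) →
      ∫⁻ t, (∫⁻ x, ‖∑ k ∈ S, a k * E k t * hk f k x‖ₑ ^ p) ∂ν ≤ Q)
    {X : Type*} [MeasurableSpace X] (μ : Measure X) [SFinite μ] (W : X → ℝ) (hW : Measurable W)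
    (hW0 : ∀ ξ, 0 < W ξ) (K : (Fin d → ℤ) → X → ℂ) (hK : ∀ k, Measurable (K k))
    (hKA : ∀ k ∈ S, ∀ ξ, ‖K k ξ‖ₑ ≤ A * ENNReal.ofReal (W ξ)) (τ : X → Fin d → ℝ)
    (hτ : Measurable τ) :
    ∫⁻ t, (∫⁻ x, (∫⁻ ξ, ‖∑ k ∈ S, K k ξ * E k t * hk f k (x - τ ξ)‖ₑ ∂μ) ^ p) ∂ν ≤
      (∫⁻ ξ, ENNReal.ofReal (W ξ) ∂μ) ^ p * Q := by
  obtain ⟨G, hG⟩ : ∃ G : ℝ → (Fin d → ℝ) → X → ℝ≥0∞, G = fun t x ξ =>
    ‖∑ k ∈ S, K k ξ / (W ξ : ℂ) * E k t * hk f k (x - τ ξ)‖ₑ := ⟨_, rfl⟩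
  have hhm : ∀ k, Measurable (hk f k) := fun k => (hk_cont hf k).measurable
  have hGm : Measurable fun q : ℝ × (Fin d → ℝ) × X => G q.1 q.2.1 q.2.2 := by
    rw [hG]
    apply Measurable.enorm
    apply Finset.measurable_sum
    intro k _
    refine ((((hK k).comp (by fun_prop)).div ?_).mul ((hE k).comp (by fun_prop))).mul
      ((hhm k).comp ?_)
    · exact Complex.measurable_ofReal.comp (hW.comp (by fun_prop))
    · exact (by fun_prop : Measurable fun q : ℝ × (Fin d → ℝ) × X => q.2.1).sub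
        (hτ.comp (by fun_prop))
  have hGp : Measurable fun q : ℝ × (Fin d → ℝ) × X => G q.1 q.2.1 q.2.2 ^ p := hGm.pow_const p
  have hWe : Measurable fun ξ => ENNReal.ofReal (W ξ) := hW.ennreal_ofReal
  have e1 : ∀ t x ξ, ‖∑ k ∈ S, K k ξ * E k t * hk f k (x - τ ξ)‖ₑ =
      ENNReal.ofReal (W ξ) * G t x ξ := by
    intro t x ξ
    have hne : (W ξ : ℂ) ≠ 0 := by exact_mod_cast (hW0 ξ).ne'
    have e2 : ∑ k ∈ S, K k ξ * E k t * hk f k (x - τ ξ) =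
        (W ξ : ℂ) * ∑ k ∈ S, K k ξ / (W ξ : ℂ) * E k t * hk f k (x - τ ξ) := by
      rw [Finset.mul_sum]
      apply Finset.sum_congr rfl
      intro k _
      field_simp
    rw [e2, enorm_mul, hG]
    congr 1
    rw [← ofReal_norm, Complex.norm_real, Real.norm_of_nonneg (hW0 ξ).le]
  simp only [e1]
  have e3 : ∀ t x, (∫⁻ ξ, ENNReal.ofReal (W ξ) * G t x ξ ∂μ) ^ p ≤
      (∫⁻ ξ, ENNReal.ofReal (W ξ) ∂μ) ^ (p - 1) * ∫⁻ ξ, ENNReal.ofReal (W ξ) * G t x ξ ^ p ∂μ := by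
    intro t x
    exact wjens μ _ _ hWe (hGm.comp (by fun_prop : Measurable fun ξ : X => (t, x, ξ))) p hp
  have m1 : Measurable fun q : ℝ × (Fin d → ℝ) × X => ENNReal.ofReal (W q.2.2) * G q.1 q.2.1 q.2.2 ^ p :=
    (hWe.comp (by fun_prop)).mul hGp
  have m2 : ∀ t, Measurable fun q : (Fin d → ℝ) × X => ENNReal.ofReal (W q.2) * G t q.1 q.2 ^ p :=
    fun t => m1.comp (by fun_prop : Measurable fun q : (Fin d → ℝ) × X => (t, q.1, q.2))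
  have m3 : Measurable fun q : ℝ × X => ∫⁻ x, ENNReal.ofReal (W q.2) * G q.1 x q.2 ^ p := by
    have : Measurable fun r : (ℝ × X) × (Fin d → ℝ) => ENNReal.ofReal (W r.1.2) * G r.1.1 r.2 r.1.2 ^ p :=
      m1.comp (by fun_prop : Measurable fun r : (ℝ × X) × (Fin d → ℝ) => (r.1.1, r.2, r.1.2))
    exact this.lintegral_prod_right'
  have m4 : Measurable fun q : ℝ × (Fin d → ℝ) => ∫⁻ ξ, ENNReal.ofReal (W ξ) * G q.1 q.2 ξ ^ p ∂μ := by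
    have : Measurable fun r : (ℝ × (Fin d → ℝ)) × X => ENNReal.ofReal (W r.2) * G r.1.1 r.1.2 r.2 ^ p :=
      m1.comp (by fun_prop : Measurable fun r : (ℝ × (Fin d → ℝ)) × X => (r.1.1, r.1.2, r.2))
    exact this.lintegral_prod_right'
  calc ∫⁻ t, (∫⁻ x, (∫⁻ ξ, ENNReal.ofReal (W ξ) * G t x ξ ∂μ) ^ p) ∂ν ≤
      ∫⁻ t, (∫⁻ x, (∫⁻ ξ, ENNReal.ofReal (W ξ) ∂μ) ^ (p - 1) *
        ∫⁻ ξ, ENNReal.ofReal (W ξ) * G t x ξ ^ p ∂μ) ∂ν :=
        lintegral_mono fun t => lintegral_mono fun x => e3 t x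
    _ = (∫⁻ ξ, ENNReal.ofReal (W ξ) ∂μ) ^ (p - 1) *
        ∫⁻ t, (∫⁻ x, ∫⁻ ξ, ENNReal.ofReal (W ξ) * G t x ξ ^ p ∂μ) ∂ν := by
        rw [← lintegral_const_mul _ m4.lintegral_prod_right']
        congr 1
        ext t
        rw [lintegral_const_mul]
        exact m4.comp (by fun_prop : Measurable fun x : Fin d → ℝ => (t, x))
    _ = (∫⁻ ξ, ENNReal.ofReal (W ξ) ∂μ) ^ (p - 1) *
        ∫⁻ ξ, (∫⁻ t, (∫⁻ x, ENNReal.ofReal (W ξ) * G t x ξ ^ p) ∂ν) ∂μ := by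
        congr 1
        have s1 : ∀ t, ∫⁻ x, ∫⁻ ξ, ENNReal.ofReal (W ξ) * G t x ξ ^ p ∂μ =
            ∫⁻ ξ, (∫⁻ x, ENNReal.ofReal (W ξ) * G t x ξ ^ p) ∂μ :=
          fun t => lintegral_lintegral_swap (m2 t).aemeasurable
        simp only [s1]
        exact lintegral_lintegral_swap m3.aemeasurable
    _ ≤ (∫⁻ ξ, ENNReal.ofReal (W ξ) ∂μ) ^ (p - 1) * ∫⁻ ξ, ENNReal.ofReal (W ξ) * Q ∂μ := by
        gcongr with ξ
        have m5 : Measurable fun q : ℝ × (Fin d → ℝ) => G q.1 q.2 ξ ^ p :=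
          hGp.comp (by fun_prop : Measurable fun q : ℝ × (Fin d → ℝ) => (q.1, q.2, ξ))
        have s2 : ∫⁻ t, (∫⁻ x, ENNReal.ofReal (W ξ) * G t x ξ ^ p) ∂ν =
            ENNReal.ofReal (W ξ) * ∫⁻ t, (∫⁻ x, G t x ξ ^ p) ∂ν := by
          rw [← lintegral_const_mul _ m5.lintegral_prod_right']
          congr 1
          ext t
          rw [lintegral_const_mul]
          exact m5.comp (by fun_prop : Measurable fun x : Fin d → ℝ => (t, x))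
        rw [s2]
        gcongr
        have s3 : ∀ t, ∫⁻ x, G t x ξ ^ p = ∫⁻ x, ‖∑ k ∈ S, K k ξ / (W ξ : ℂ) * E k t * hk f k x‖ₑ ^ p := by
          intro t
          rw [hG]
          exact lintegral_sub_right_eq_self
            (fun x => ‖∑ k ∈ S, K k ξ / (W ξ : ℂ) * E k t * hk f k x‖ₑ ^ p) (τ ξ)
        simp only [s3]
        apply hQ
        intro k hk
        have hWne : ENNReal.ofReal (W ξ) ≠ 0 := by
          rw [Ne, ENNReal.ofReal_eq_zero, not_le]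
          exact hW0 ξ
        have s4 : ‖K k ξ / (W ξ : ℂ)‖ₑ * ENNReal.ofReal (W ξ) = ‖K k ξ‖ₑ := by
          have hne : (W ξ : ℂ) ≠ 0 := by exact_mod_cast (hW0 ξ).ne'
          have : ENNReal.ofReal (W ξ) = ‖(W ξ : ℂ)‖ₑ := by
            rw [← ofReal_norm, Complex.norm_real, Real.norm_of_nonneg (hW0 ξ).le]
          rw [this, ← enorm_mul, div_mul_cancel₀ _ hne]
        have s5 := hKA k hk ξ
        rw [← s4] at s5
        exact (ENNReal.mul_le_mul_iff_left hWne ENNReal.ofReal_ne_top).mp s5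
    _ = _ := by
        rw [lintegral_mul_const _ hWe, ← mul_assoc]
        congr 1
        have : (∫⁻ ξ, ENNReal.ofReal (W ξ) ∂μ) ^ (p - 1) * ∫⁻ ξ, ENNReal.ofReal (W ξ) ∂μ =
            (∫⁻ ξ, ENNReal.ofReal (W ξ) ∂μ) ^ (p - 1) *
              (∫⁻ ξ, ENNReal.ofReal (W ξ) ∂μ) ^ (1 : ℝ) := by
          rw [ENNReal.rpow_one]
        rw [this, ← ENNReal.rpow_add_of_nonneg _ _ (by linarith) (by norm_num)]
        congr 1
        ring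

end Pool.Agent.Q89.WS
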