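import Pool.Agent.Q89.WS.B
set_option autoImplicit false

/-! Decay of the kernels of analytic multipliers: change of contour. -/

namespace Pool.Agent.Q89.WS

open MeasureTheory Set Complex Filter Topology
open scoped ENNReal NNReal
open Pool.Agent.Y183.LS (ec ec_norm ec_enorm ec_add ec_cont ec_zero ec_sum dt dt_add dt_comm dt_cont
  dt_cont2 iz dt_add_left)

variable {d : ℕ}

/-- change of contour -/
lemma shift (g : ℂ → ℂ) (a : ℝ) (ha : 0 ≤ a) (hg : DifferentiableOn ℂ g {z | |z.im| ≤ a})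
    (h : ℝ → ℝ) (hh : Integrable h) (h1 : Tendsto h atTop (𝓝 0)) (h2 : Tendsto h atBot (𝓝 0))
    (hb : ∀ x y : ℝ, |y| ≤ a → ‖g (x + y * I)‖ ≤ h x) (η : ℝ) (hη : |η| ≤ a) :
    ∫ x : ℝ, g x = ∫ x : ℝ, g (x + η * I) := by
  have hcont : ∀ y : ℝ, |y| ≤ a → Continuous fun x : ℝ => g (x + y * I) := by
    intro y hy
    refine hg.continuousOn.comp_continuous (by fun_prop) fun x => ?_
    simpa using hy
  have hint : ∀ y : ℝ, |y| ≤ a → Integrable fun x : ℝ => g (x + y * I) := by
    intro y hy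
    refine hh.mono' (hcont y hy).aestronglyMeasurable ?_
    filter_upwards with x
    exact hb x y hy
  have hi0 : Integrable fun x : ℝ => g x := by
    have := hint 0 (by simpa using ha)
    simpa using this
  have e1 : Tendsto (fun T : ℝ => ∫ x in (-T)..T, g x) atTop (𝓝 (∫ x : ℝ, g x)) :=
    intervalIntegral_tendsto_integral hi0 tendsto_neg_atTop_atBot tendsto_id
  have e2 : Tendsto (fun T : ℝ => ∫ x in (-T)..T, g (x + η * I)) atTop
      (𝓝 (∫ x : ℝ, g (x + η * I))) :=
    intervalIntegral_tendsto_integral (hint η hη) tendsto_neg_atTop_atBot tendsto_id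
  have hη' : ∀ y ∈ Set.uIoc (0 : ℝ) η, |y| ≤ a := by
    intro y hy
    rw [mem_uIoc] at hy
    refine le_trans ?_ hη
    rcases hy with ⟨y1, y2⟩ | ⟨y1, y2⟩
    · rw [abs_of_pos y1, abs_of_pos (lt_of_lt_of_le y1 y2)]
      exact y2
    · rw [abs_of_nonpos y2, abs_of_nonpos (le_trans y1.le y2)]
      linarith
  have e3 : Tendsto (fun T : ℝ => I • ∫ y in (0 : ℝ)..η, g (T + y * I)) atTop (𝓝 0) := by
    rw [tendsto_zero_iff_norm_tendsto_zero]
    have : Tendsto (fun T : ℝ => h T * |η - 0|) atTop (𝓝 0) := by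
      simpa using h1.mul_const |η - 0|
    refine squeeze_zero (fun _ => norm_nonneg _) (fun T => ?_) this
    rw [norm_smul, Complex.norm_I, one_mul]
    exact intervalIntegral.norm_integral_le_of_norm_le_const fun y hy => hb T y (hη' y hy)
  have e4 : Tendsto (fun T : ℝ => I • ∫ y in (0 : ℝ)..η, g (-T + y * I)) atTop (𝓝 0) := by
    rw [tendsto_zero_iff_norm_tendsto_zero]
    have : Tendsto (fun T : ℝ => h (-T) * |η - 0|) atTop (𝓝 0) := by
      simpa using (h2.comp tendsto_neg_atTop_atBot).mul_const |η - 0|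
    refine squeeze_zero (fun _ => norm_nonneg _) (fun T => ?_) this
    rw [norm_smul, Complex.norm_I, one_mul]
    refine intervalIntegral.norm_integral_le_of_norm_le_const fun y hy => ?_
    have := hb (-T) y (hη' y hy)
    push_cast at this
    exact this
  have e5 : ∀ T : ℝ, (∫ x in (-T)..T, g x) - (∫ x in (-T)..T, g (x + η * I)) +
      I • (∫ y in (0 : ℝ)..η, g (T + y * I)) - I • (∫ y in (0 : ℝ)..η, g (-T + y * I)) = 0 := by
    intro T
    have := Complex.integral_boundary_rect_eq_zero_of_differentiableOn g (-T : ℂ) (T + η * I)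
      (hg.mono ?_)
    · simpa using this
    · intro z hz
      rw [mem_reProdIm] at hz
      have h3 := hz.2
      simp only [Complex.neg_im, Complex.ofReal_im, neg_zero, Complex.add_im, Complex.mul_im,
        Complex.ofReal_re, Complex.I_im, mul_one, Complex.I_re, mul_zero, add_zero, zero_add] at h3
      rw [mem_uIcc] at h3
      rw [mem_ofPred_eq]
      refine le_trans ?_ hη
      rcases h3 with ⟨y1, y2⟩ | ⟨y1, y2⟩
      · rw [abs_of_nonneg y1, abs_of_nonneg (le_trans y1 y2)]
        exact y2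
      · rw [abs_of_nonpos y2, abs_of_nonpos (le_trans y1 y2)]
        linarith
  have e6 := ((e1.sub e2).add e3).sub e4
  simp only [e5] at e6
  have e7 := tendsto_nhds_unique e6 tendsto_const_nhds
  rw [add_zero, sub_zero] at e7
  exact sub_eq_zero.mp e7

/-- the square of the norm -/
noncomputable def nq (v : Fin d → ℝ) : ℝ := ∑ i, v i ^ 2

lemma nq_nonneg (v : Fin d → ℝ) : 0 ≤ nq v := Finset.sum_nonneg fun i _ => sq_nonneg _

lemma nq_cont : Continuous (nq : (Fin d → ℝ) → ℝ) := by
  unfold nq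
  fun_prop

/-- the half plane -/
def Hp : Set ℂ := {w | -(1 / (4 * Real.pi ^ 2)) < w.re}

/-- the point on the shifted contour -/
noncomputable def pt (ξ : Fin d → ℝ) (i : Fin d) (η : ℝ) : ℂ :=
  ((nq ξ - η ^ 2 : ℝ) : ℂ) + ((2 * η * ξ i : ℝ) : ℂ) * I

lemma pi_sq_lt : (1 : ℝ) / 100 < 1 / (4 * Real.pi ^ 2) := by
  have h1 := Real.pi_lt_d2
  have h2 := Real.pi_gt_three
  rw [div_lt_div_iff₀ (by norm_num) (by positivity)]
  nlinarith

lemma pt_Hp (ξ : Fin d → ℝ) (i : Fin d) (η : ℝ) (hη : |η| ≤ 1 / 10) : pt ξ i η ∈ Hp := by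
  unfold pt Hp
  rw [mem_ofPred_eq]
  simp only [Complex.add_re, Complex.ofReal_re, Complex.mul_re, Complex.I_re, mul_zero,
    Complex.ofReal_im, Complex.I_im, mul_one, sub_self, add_zero]
  have h1 := nq_nonneg ξ
  have h2 : η ^ 2 ≤ 1 / 100 := by
    rw [← sq_abs]
    have := abs_nonneg η
    nlinarith
  linarith [pi_sq_lt]

/-- Gaussian -/
noncomputable def gs (v : Fin d → ℝ) : ℝ := Real.exp (-(nq v))

lemma gs_int : Integrable (gs : (Fin d → ℝ) → ℝ) := by
  have h := Integrable.fintype_prod (𝕜 := ℝ) (ι := Fin d) (μ := fun _ => (volume : Measure ℝ))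
    (f := fun _ x => Real.exp (-1 * x ^ 2)) (fun _ => integrable_exp_neg_mul_sq one_pos)
  refine h.congr ?_
  filter_upwards with x
  unfold gs nq
  rw [← Real.exp_sum]
  congr 1
  rw [← Finset.sum_neg_distrib]
  apply Finset.sum_congr rfl
  intro j _
  ring

lemma gs_abs (M : ℕ) (u : ℝ) (hu : 0 ≤ u) : (1 + u) ^ M * Real.exp (-(Real.pi * u)) ≤
    M.factorial * Real.exp 1 * Real.exp (-u) := by
  have h1 := Real.pow_div_factorial_le_exp (1 + u) (by linarith) M
  have h2 : (1 + u) ^ M ≤ M.factorial * Real.exp (1 + u) := by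
    rw [div_le_iff₀ (by positivity)] at h1
    linarith
  calc (1 + u) ^ M * Real.exp (-(Real.pi * u)) ≤
      (M.factorial * Real.exp (1 + u)) * Real.exp (-(Real.pi * u)) := by gcongr
    _ = M.factorial * Real.exp 1 * Real.exp (-((Real.pi - 1) * u)) := by
        rw [mul_assoc, ← Real.exp_add, mul_assoc, ← Real.exp_add]
        congr 2
        ring
    _ ≤ _ := by
        gcongr
        have := Real.pi_gt_three
        nlinarith

/-- **decay of the kernels** -/
lemma Kn_bound (n M : ℕ) : ∃ C : ℝ, 0 < C ∧ ∀ (Φ : ℂ → ℂ), DifferentiableOn ℂ Φ Hp →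
    ∀ (k : Fin (n + 1) → ℤ) (A : ℝ), 0 ≤ A → ∀ i : Fin (n + 1),
    (∀ (ξ : Fin (n + 1) → ℝ) (η : ℝ), |η| ≤ 1 / 10 →
      ‖Φ (pt ξ i η)‖ ≤ A * (1 + nq (ξ - iz k)) ^ M) → ∀ y : Fin (n + 1) → ℝ,
    ‖Kn (fun ξ => Φ (nq ξ : ℂ) * Real.exp (-(Real.pi * nq (ξ - iz k)))) y‖ ≤
      C * A * Real.exp (-(Real.pi / 5 * |y i|)) := by
  set C0 : ℝ := M.factorial * Real.exp 1 with hC0
  set Cg : ℝ := ∫ v : Fin (n + 1) → ℝ, gs v with hCg
  have hCg0 : 0 ≤ Cg := integral_nonneg fun v => (Real.exp_pos _).le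
  have hC0p : 0 < C0 := by positivity
  refine ⟨Real.exp (Real.pi / 100) * C0 * (Cg + 1), by positivity, ?_⟩
  intro Φ hΦ k A hA i hb y
  set N : (Fin (n + 1) → ℝ) → ℂ := fun ξ =>
    Φ (nq ξ : ℂ) * Real.exp (-(Real.pi * nq (ξ - iz k))) with hN
  have hΦc : Continuous fun ξ : Fin (n + 1) → ℝ => Φ (nq ξ : ℂ) := by
    refine hΦ.continuousOn.comp_continuous (Complex.continuous_ofReal.comp nq_cont) fun ξ => ?_
    unfold Hp
    rw [mem_ofPred_eq, Complex.ofReal_re]
    have := nq_nonneg ξ
    have h2 : (0 : ℝ) < 1 / (4 * Real.pi ^ 2) := by positivity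
    linarith
  have hgi : Integrable fun ξ : Fin (n + 1) → ℝ => gs (ξ - iz k) := gs_int.comp_sub_right _
  have hbd : ∀ (ξ : Fin (n + 1) → ℝ) (η : ℝ), |η| ≤ 1 / 10 →
      ‖Φ (pt ξ i η)‖ * Real.exp (-(Real.pi * nq (ξ - iz k))) ≤ A * (C0 * gs (ξ - iz k)) := by
    intro ξ η hη
    have h1 := hb ξ η hη
    have h2 := gs_abs M (nq (ξ - iz k)) (nq_nonneg _)
    calc ‖Φ (pt ξ i η)‖ * Real.exp (-(Real.pi * nq (ξ - iz k))) ≤
        (A * (1 + nq (ξ - iz k)) ^ M) * Real.exp (-(Real.pi * nq (ξ - iz k))) := by gcongr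
      _ = A * ((1 + nq (ξ - iz k)) ^ M * Real.exp (-(Real.pi * nq (ξ - iz k)))) := by ring
      _ ≤ _ := by
          unfold gs
          gcongr
  have hpt0 : ∀ ξ : Fin (n + 1) → ℝ, pt ξ i 0 = (nq ξ : ℂ) := by
    intro ξ
    unfold pt
    simp
  have hNc : Continuous N := by
    rw [hN]
    refine hΦc.mul ?_
    have : Continuous fun ξ : Fin (n + 1) → ℝ => nq (ξ - iz k) := nq_cont.comp (by fun_prop)
    fun_prop
  have hNn : ∀ ξ, ‖N ξ‖ ≤ A * (C0 * gs (ξ - iz k)) := by
    intro ξ
    have h1 := hbd ξ 0 (by norm_num)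
    rw [hpt0] at h1
    rw [hN]
    simp only [norm_mul, Complex.norm_real, Real.norm_eq_abs, Real.abs_exp]
    exact h1
  have hNi : Integrable N := by
    refine ((hgi.const_mul C0).const_mul A).mono' hNc.aestronglyMeasurable ?_
    filter_upwards with ξ
    exact hNn ξ
  set F : (Fin (n + 1) → ℝ) → ℂ := fun ξ => ec (dt y ξ) * N ξ with hF
  have hFi : Integrable F := by
    refine hNi.mono ((ec_cont.comp (dt_cont y)).mul hNc).aestronglyMeasurable ?_
    filter_upwards with ξ
    rw [hF]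
    simp only [norm_mul, ec_norm, one_mul]
    exact le_rfl
  set e := (MeasurableEquiv.piFinSuccAbove (fun _ : Fin (n + 1) => ℝ) i).symm with he
  have hmp : MeasurePreserving e (volume.prod volume) volume :=
    (volume_preserving_piFinSuccAbove (fun _ : Fin (n + 1) => ℝ) i).symm
  have hea : ∀ (t : ℝ) (z : Fin n → ℝ), e (t, z) = i.insertNth t z := by
    intro t z
    rfl
  have s1 : ∫ ξ, F ξ = ∫ z : Fin n → ℝ, ∫ t : ℝ, F (e (t, z)) := by
    rw [← hmp.integral_comp' F]
    have h1 : Integrable (fun q : ℝ × (Fin n → ℝ) => F (e q)) (volume.prod volume) :=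
      hmp.integrable_comp_emb e.measurableEmbedding |>.mpr hFi
    exact integral_prod_symm _ h1
  have hgi2 : Integrable (fun q : ℝ × (Fin n → ℝ) => gs (e q - iz k)) (volume.prod volume) :=
    hmp.integrable_comp_emb e.measurableEmbedding |>.mpr hgi
  have hgi3 : Integrable (fun z : Fin n → ℝ => ∫ t : ℝ, gs (e (t, z) - iz k)) := hgi2.integral_prod_right
  have hgi4 : ∫ z : Fin n → ℝ, ∫ t : ℝ, gs (e (t, z) - iz k) = Cg := by
    have h1 := integral_prod_symm _ hgi2
    rw [← h1]
    have h2 := hmp.integral_comp' (fun ξ => gs (ξ - iz k))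
    have h3 : ∫ q : ℝ × (Fin n → ℝ), gs (e q - iz k) ∂(volume.prod volume) =
        ∫ ξ : Fin (n + 1) → ℝ, gs (ξ - iz k) := h2
    rw [h3, hCg]
    exact integral_sub_right_eq_self gs (iz k)
  -- the contour
  obtain ⟨η, hη1, hη2⟩ : ∃ η : ℝ, |η| ≤ 1 / 10 ∧ -(2 * Real.pi * (y i * η)) = -(Real.pi / 5 * |y i|) := by
    rcases le_total 0 (y i) with h | h
    · exact ⟨1 / 10, by norm_num, by rw [abs_of_nonneg h]; ring⟩
    · exact ⟨-(1 / 10), by norm_num, by rw [abs_of_nonpos h]; ring⟩
  have s2 : ∀ z : Fin n → ℝ, ‖∫ t : ℝ, F (e (t, z))‖ ≤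
      Real.exp (-(Real.pi / 5 * |y i|)) * Real.exp (Real.pi / 100) * A * C0 *
        ∫ t : ℝ, gs (e (t, z) - iz k) := by
    intro z
    set b : ℝ := nq z with hbz
    set c1 : ℝ := ∑ j, y (i.succAbove j) * z j with hc1
    set c2 : ℝ := ∑ j, (z j - k (i.succAbove j)) ^ 2 with hc2
    have hq : ∀ t : ℝ, nq (e (t, z)) = t ^ 2 + b := by
      intro t
      rw [hea]
      unfold nq
      rw [Fin.sum_univ_succAbove _ i]
      simp [hbz, nq]
    have hei : ∀ t : ℝ, e (t, z) i = t := by
      intro t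
      rw [hea]
      simp
    have hq2 : ∀ t : ℝ, nq (e (t, z) - iz k) = (t - k i) ^ 2 + c2 := by
      intro t
      rw [hea]
      unfold nq
      rw [Fin.sum_univ_succAbove _ i]
      simp [hc2, iz]
    have hdt : ∀ t : ℝ, dt y (e (t, z)) = y i * t + c1 := by
      intro t
      rw [hea]
      unfold dt
      rw [Fin.sum_univ_succAbove _ i]
      simp [hc1]
    set g : ℂ → ℂ := fun w => cexp (2 * Real.pi * I * (y i * w + c1)) * (Φ (w ^ 2 + b) *
      cexp (-(Real.pi * ((w - k i) ^ 2 + c2)))) with hg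
    have hgF : ∀ t : ℝ, F (e (t, z)) = g t := by
      intro t
      rw [hF, hg, hN]
      simp only
      rw [hq, hq2, hdt]
      unfold ec
      push_cast
      rfl
    have hstrip : ∀ w : ℂ, |w.im| ≤ 1 / 10 → w ^ 2 + (b : ℂ) ∈ Hp := by
      intro w hw
      unfold Hp
      rw [mem_ofPred_eq, Complex.add_re, Complex.ofReal_re, show w ^ 2 = w * w from sq w,
        Complex.mul_re]
      have h1 : w.im * w.im ≤ 1 / 100 := by
        have h2 : w.im * w.im = |w.im| * |w.im| := (abs_mul_abs_self _).symm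
        rw [h2]
        have := abs_nonneg w.im
        nlinarith
      have h3 := nq_nonneg z
      have h4 := mul_self_nonneg w.re
      have := pi_sq_lt
      linarith
    have hgd : DifferentiableOn ℂ g {w | |w.im| ≤ 1 / 10} := by
      rw [hg]
      refine DifferentiableOn.mul (by fun_prop) (DifferentiableOn.mul ?_ (by fun_prop))
      exact hΦ.comp (by fun_prop) fun w hw => hstrip w hw
    have hpt : ∀ t s : ℝ, ((t : ℂ) + s * I) ^ 2 + (b : ℂ) = pt (e (t, z)) i s := by
      intro t s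
      unfold pt
      rw [hq, hei]
      push_cast
      have : (I : ℂ) ^ 2 = -1 := Complex.I_sq
      linear_combination (s : ℂ) ^ 2 * this
    have hnorm : ∀ t s : ℝ, |s| ≤ 1 / 10 → ‖g (t + s * I)‖ ≤
        Real.exp (-(2 * Real.pi * (y i * s))) * Real.exp (Real.pi / 100) *
          (A * (C0 * gs (e (t, z) - iz k))) := by
      intro t s hs
      rw [hg]
      simp only
      rw [norm_mul, norm_mul, Complex.norm_exp, Complex.norm_exp, hpt]
      have r1 : (2 * Real.pi * I * (y i * ((t : ℂ) + s * I) + c1)).re = -(2 * Real.pi * (y i * s)) := by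
        simp
      have r2 : (-(Real.pi * (((t : ℂ) + s * I - k i) ^ 2 + c2))).re =
          -(Real.pi * nq (e (t, z) - iz k)) + Real.pi * s ^ 2 := by
        rw [hq2]
        have : (-(Real.pi * (((t : ℂ) + s * I - k i) ^ 2 + c2))) =
            ((-(Real.pi * ((t - k i) ^ 2 + c2)) + Real.pi * s ^ 2 : ℝ) : ℂ) +
              ((-(2 * Real.pi * s * (t - k i)) : ℝ) : ℂ) * I := by
          push_cast
          have h : (I : ℂ) ^ 2 = -1 := Complex.I_sq
          linear_combination (-(Real.pi : ℂ) * s ^ 2) * h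
        rw [this, Complex.add_re, Complex.ofReal_re, Complex.re_ofReal_mul, Complex.I_re, mul_zero,
          add_zero]
      rw [r1, r2, Real.exp_add]
      have r3 : Real.exp (Real.pi * s ^ 2) ≤ Real.exp (Real.pi / 100) := by
        apply Real.exp_le_exp.mpr
        have : s ^ 2 ≤ 1 / 100 := by
          rw [← sq_abs]
          have := abs_nonneg s
          nlinarith
        have := Real.pi_pos
        nlinarith
      have r4 := hbd (e (t, z)) s hs
      calc Real.exp (-(2 * Real.pi * (y i * s))) * (‖Φ (pt (e (t, z)) i s)‖ *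
          (Real.exp (-(Real.pi * nq (e (t, z) - iz k))) * Real.exp (Real.pi * s ^ 2))) =
          Real.exp (-(2 * Real.pi * (y i * s))) * Real.exp (Real.pi * s ^ 2) *
          (‖Φ (pt (e (t, z)) i s)‖ * Real.exp (-(Real.pi * nq (e (t, z) - iz k)))) := by ring
        _ ≤ _ := by gcongr
    have hgst : ∀ t : ℝ, gs (e (t, z) - iz k) = Real.exp (-c2) * Real.exp (-(t - k i) ^ 2) := by
      intro t
      unfold gs
      rw [hq2, ← Real.exp_add]
      congr 1
      ring
    have hgauss : Integrable fun t : ℝ => Real.exp (-(t - k i) ^ 2) := by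
      have h1 : Integrable fun t : ℝ => Real.exp (-1 * t ^ 2) := integrable_exp_neg_mul_sq one_pos
      have h2 := h1.comp_sub_right (k i : ℝ)
      refine h2.congr ?_
      filter_upwards with t
      congr 1
      ring
    have htop : Tendsto (fun t : ℝ => Real.exp (-(t - k i) ^ 2)) atTop (𝓝 0) := by
      apply Real.tendsto_exp_atBot.comp
      apply tendsto_neg_atTop_atBot.comp
      exact (tendsto_pow_atTop (by norm_num)).comp (tendsto_atTop_add_const_right _ _ tendsto_id)
    have hbot : Tendsto (fun t : ℝ => Real.exp (-(t - k i) ^ 2)) atBot (𝓝 0) := by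
      apply Real.tendsto_exp_atBot.comp
      apply tendsto_neg_atTop_atBot.comp
      have h1 : Tendsto (fun t : ℝ => -(t - (k i : ℝ))) atBot atTop :=
        tendsto_neg_atBot_atTop.comp (tendsto_atBot_add_const_right _ _ tendsto_id)
      have h2 := (tendsto_pow_atTop (n := 2) (by norm_num)).comp h1
      refine h2.congr fun t => ?_
      simp only [Function.comp]
      ring
    set R : ℝ := Real.exp (2 * Real.pi * |y i|) * Real.exp (Real.pi / 100) *
      (A * (C0 * Real.exp (-c2))) with hR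
    have hsh := shift g (1 / 10) (by norm_num) hgd (fun t => R * Real.exp (-(t - k i) ^ 2))
      (hgauss.const_mul R) (by simpa using htop.const_mul R) (by simpa using hbot.const_mul R)
      (fun t s hs => by
        refine (hnorm t s hs).trans ?_
        rw [hgst, hR]
        have h1 : Real.exp (-(2 * Real.pi * (y i * s))) ≤ Real.exp (2 * Real.pi * |y i|) := by
          apply Real.exp_le_exp.mpr
          have h2 : -(y i * s) ≤ |y i| := by
            have h3 : |y i * s| ≤ |y i| * 1 := by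
              rw [abs_mul]
              gcongr
              linarith
            have h4 := neg_abs_le (y i * s)
            linarith
          have := Real.pi_pos
          nlinarith
        calc Real.exp (-(2 * Real.pi * (y i * s))) * Real.exp (Real.pi / 100) *
            (A * (C0 * (Real.exp (-c2) * Real.exp (-(t - k i) ^ 2)))) ≤
            Real.exp (2 * Real.pi * |y i|) * Real.exp (Real.pi / 100) *
            (A * (C0 * (Real.exp (-c2) * Real.exp (-(t - k i) ^ 2)))) := by gcongr
          _ = _ := by ring) η hη1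
    have hfin : ∫ t : ℝ, F (e (t, z)) = ∫ t : ℝ, g (t + η * I) := by
      rw [← hsh]
      simp only [hgF]
    rw [hfin]
    have hgi5 : Integrable fun t : ℝ => gs (e (t, z) - iz k) := by
      simp only [hgst]
      exact hgauss.const_mul _
    calc ‖∫ t : ℝ, g (t + η * I)‖ ≤ ∫ t : ℝ, Real.exp (-(Real.pi / 5 * |y i|)) *
        Real.exp (Real.pi / 100) * A * C0 * gs (e (t, z) - iz k) := by
          refine norm_integral_le_of_norm_le (hgi5.const_mul _) ?_
          filter_upwards with t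
          refine (hnorm t η hη1).trans (le_of_eq ?_)
          rw [hη2]
          ring
      _ = _ := integral_const_mul _ _
  have s3 : ‖∫ ξ, F ξ‖ ≤ Real.exp (-(Real.pi / 5 * |y i|)) * Real.exp (Real.pi / 100) * A * C0 * Cg := by
    rw [s1]
    have s5 := norm_integral_le_of_norm_le (f := fun z : Fin n → ℝ => ∫ t : ℝ, F (e (t, z)))
      (hgi3.const_mul (Real.exp (-(Real.pi / 5 * |y i|)) * Real.exp (Real.pi / 100) * A * C0))
      (Eventually.of_forall fun z => s2 z)
    refine s5.trans (le_of_eq ?_)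
    rw [integral_const_mul, hgi4]
  have s4 : Kn N y = ∫ ξ, F ξ := rfl
  rw [s4]
  refine s3.trans ?_
  have : Real.exp (-(Real.pi / 5 * |y i|)) * Real.exp (Real.pi / 100) * A * C0 * Cg ≤
      Real.exp (-(Real.pi / 5 * |y i|)) * Real.exp (Real.pi / 100) * A * C0 * (Cg + 1) := by
    gcongr
    linarith
  refine this.trans (le_of_eq ?_)
  ring

end Pool.Agent.Q89.WS
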