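import Pool.Agent.Q89.WS.E
set_option autoImplicit false

/-! The entire functions `cos √w` and `sin √w / √w`, and the multipliers of the wave equation on the
shifted contours. -/

namespace Pool.Agent.Q89.WS

open MeasureTheory Set Complex Filter Topology
open scoped ENNReal NNReal
open Pool.Agent.Y183.LS (ec ec_norm ec_enorm ec_add ec_cont ec_zero ec_sum dt dt_add dt_comm dt_cont
  dt_cont2 iz dt_add_left)

variable {d : ℕ}

/-- `cos √w` -/
noncomputable def C0 (w : ℂ) : ℂ := ∑' n : ℕ, (-1) ^ n * w ^ n / ((2 * n).factorial : ℂ)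

/-- `sin √w / √w` -/
noncomputable def S0 (w : ℂ) : ℂ := ∑' n : ℕ, (-1) ^ n * w ^ n / ((2 * n + 1).factorial : ℂ)

lemma C0_sq (v : ℂ) : C0 (v ^ 2) = Complex.cos v := by
  unfold C0
  rw [← (Complex.hasSum_cos v).tsum_eq]
  congr 1
  ext n
  rw [pow_mul]

lemma S0_sq (v : ℂ) : v * S0 (v ^ 2) = Complex.sin v := by
  unfold S0
  rw [← (Complex.hasSum_sin v).tsum_eq, ← tsum_mul_left]
  congr 1
  ext n
  rw [← pow_mul, pow_succ]
  ring

lemma term_bd (w : ℂ) (m : ℕ → ℕ) (hm : ∀ n, n ≤ m n) (n : ℕ) :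
    ‖(-1) ^ n * w ^ n / ((m n).factorial : ℂ)‖ ≤ ‖w‖ ^ n / n.factorial := by
  rw [norm_div, norm_mul, norm_pow, norm_neg, norm_one, one_pow, one_mul, norm_pow,
    Complex.norm_natCast]
  have : (n.factorial : ℝ) ≤ (m n).factorial := by
    exact_mod_cast Nat.factorial_le (hm n)
  gcongr

lemma ser_diff (m : ℕ → ℕ) (hm : ∀ n, n ≤ m n) :
    Differentiable ℂ fun w : ℂ => ∑' n : ℕ, (-1) ^ n * w ^ n / ((m n).factorial : ℂ) := by
  intro w
  have h := Complex.differentiableOn_tsum_of_summable_norm (U := Metric.ball (0 : ℂ) (‖w‖ + 1))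
    (F := fun (n : ℕ) (w : ℂ) => (-1) ^ n * w ^ n / ((m n).factorial : ℂ))
    (u := fun n => (‖w‖ + 1) ^ n / n.factorial) (Real.summable_pow_div_factorial _)
    (fun n => by fun_prop) Metric.isOpen_ball (fun n z hz => by
      refine (term_bd z m hm n).trans ?_
      have : ‖z‖ ≤ ‖w‖ + 1 := by
        rw [mem_ball_zero_iff] at hz
        exact hz.le
      gcongr)
  exact h.differentiableAt (Metric.isOpen_ball.mem_nhds (by
    rw [mem_ball_zero_iff]
    linarith))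

lemma C0_diff : Differentiable ℂ C0 := ser_diff _ fun n => by omega
lemma S0_diff : Differentiable ℂ S0 := ser_diff _ fun n => by omega

lemma S0_small (w : ℂ) : ‖S0 w‖ ≤ Real.exp ‖w‖ := by
  unfold S0
  refine tsum_of_norm_bounded (g := fun n => ‖w‖ ^ n / n.factorial) ?_
    (term_bd w (fun n => 2 * n + 1) fun n => by omega)
  have h := NormedSpace.expSeries_div_hasSum_exp (‖w‖ : ℝ)
  rwa [← Real.exp_eq_exp_ℝ] at h

lemma cos_bd (v : ℂ) : ‖Complex.cos v‖ ≤ Real.exp |v.im| := by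
  rw [Complex.cos]
  rw [norm_div, Complex.norm_ofNat]
  have h1 : ‖cexp (v * I) + cexp (-v * I)‖ ≤ Real.exp |v.im| + Real.exp |v.im| := by
    refine (norm_add_le _ _).trans ?_
    rw [Complex.norm_exp, Complex.norm_exp]
    refine add_le_add ?_ ?_
    · apply Real.exp_le_exp.mpr
      simp only [Complex.mul_re, Complex.I_re, mul_zero, Complex.I_im, mul_one, zero_sub]
      exact neg_le_abs _
    · apply Real.exp_le_exp.mpr
      simp only [Complex.mul_re, Complex.I_re, mul_zero, Complex.I_im, mul_one, zero_sub,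
        Complex.neg_im, neg_neg]
      exact le_abs_self _
  linarith

lemma sin_bd (v : ℂ) : ‖Complex.sin v‖ ≤ Real.exp |v.im| := by
  rw [Complex.sin]
  rw [norm_div, Complex.norm_ofNat, norm_mul, Complex.norm_I, mul_one]
  have h1 : ‖cexp (-v * I) - cexp (v * I)‖ ≤ Real.exp |v.im| + Real.exp |v.im| := by
    refine (norm_sub_le _ _).trans ?_
    rw [Complex.norm_exp, Complex.norm_exp]
    refine add_le_add ?_ ?_
    · apply Real.exp_le_exp.mpr
      simp only [Complex.mul_re, Complex.I_re, mul_zero, Complex.I_im, mul_one, zero_sub,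
        Complex.neg_im, neg_neg]
      exact le_abs_self _
    · apply Real.exp_le_exp.mpr
      simp only [Complex.mul_re, Complex.I_re, mul_zero, Complex.I_im, mul_one, zero_sub]
      exact neg_le_abs _
  linarith

lemma S0_bd (v : ℂ) : ‖S0 (v ^ 2)‖ * (1 + ‖v‖) ≤ 2 * Real.exp 1 * Real.exp |v.im| := by
  have he : 1 ≤ Real.exp |v.im| := Real.one_le_exp (abs_nonneg _)
  by_cases h : ‖v‖ ≤ 1
  · have h1 := S0_small (v ^ 2)
    have h2 : Real.exp ‖v ^ 2‖ ≤ Real.exp 1 := by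
      apply Real.exp_le_exp.mpr
      rw [norm_pow]
      nlinarith [norm_nonneg v]
    calc ‖S0 (v ^ 2)‖ * (1 + ‖v‖) ≤ Real.exp 1 * (1 + 1) := by
          gcongr
          exact h1.trans h2
      _ = 2 * Real.exp 1 * 1 := by ring
      _ ≤ _ := by gcongr
  · push Not at h
    have hv : 0 < ‖v‖ := by linarith
    have h1 : ‖v‖ * ‖S0 (v ^ 2)‖ ≤ Real.exp |v.im| := by
      rw [← norm_mul, S0_sq]
      exact sin_bd v
    have h2 : (1 : ℝ) ≤ Real.exp 1 := Real.one_le_exp (by norm_num)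
    calc ‖S0 (v ^ 2)‖ * (1 + ‖v‖) ≤ ‖S0 (v ^ 2)‖ * (2 * ‖v‖) := by
          gcongr
          linarith
      _ = 2 * (‖v‖ * ‖S0 (v ^ 2)‖) := by ring
      _ ≤ 2 * Real.exp |v.im| := by gcongr
      _ = 2 * 1 * Real.exp |v.im| := by ring
      _ ≤ _ := by gcongr

/-- the imaginary part of the square root -/
lemma im_bd (τ : ℝ) (hτ : 0 ≤ τ) (ξ : Fin d → ℝ) (i : Fin d) (η : ℝ) (v : ℂ)
    (hv : v ^ 2 = (τ ^ 2 : ℝ) * pt ξ i η) : |v.im| ≤ τ * |η| := by
  have hq : ξ i ^ 2 ≤ nq ξ := Finset.single_le_sum (f := fun i => ξ i ^ 2)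
    (fun i _ => sq_nonneg _) (Finset.mem_univ i)
  have h1 : v.re ^ 2 - v.im ^ 2 = τ ^ 2 * (nq ξ - η ^ 2) := by
    have := congrArg Complex.re hv
    rw [sq, Complex.mul_re, Complex.re_ofReal_mul] at this
    unfold pt at this
    rw [Complex.add_re, Complex.ofReal_re, Complex.re_ofReal_mul, Complex.I_re] at this
    linarith
  have h2 : v.re * v.im = τ ^ 2 * (η * ξ i) := by
    have := congrArg Complex.im hv
    rw [sq, Complex.mul_im, Complex.im_ofReal_mul] at this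
    unfold pt at this
    rw [Complex.add_im, Complex.ofReal_im, Complex.im_ofReal_mul, Complex.I_im] at this
    linarith
  by_contra hc
  push Not at hc
  have h3 : (τ * |η|) ^ 2 < v.im ^ 2 := by
    rw [← sq_abs v.im]
    have : 0 ≤ τ * |η| := by positivity
    nlinarith
  rw [mul_pow, sq_abs] at h3
  have h4 : τ ^ 2 * ξ i ^ 2 < v.re ^ 2 := by nlinarith [sq_nonneg τ]
  have h5 : (τ ^ 2 * ξ i ^ 2) * (τ ^ 2 * η ^ 2) < v.re ^ 2 * v.im ^ 2 :=
    mul_lt_mul'' h4 h3 (by positivity) (by positivity)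
  have h6 : v.re ^ 2 * v.im ^ 2 = (τ ^ 2 * (η * ξ i)) ^ 2 := by
    rw [← mul_pow, h2]
  rw [h6] at h5
  nlinarith

/-- the Japanese bracket -/
noncomputable def Jr (ξ : Fin d → ℝ) : ℝ := 1 + 4 * Real.pi ^ 2 * nq ξ

lemma Jr_one (ξ : Fin d → ℝ) : 1 ≤ Jr ξ := by
  unfold Jr
  have := nq_nonneg ξ
  have : 0 ≤ 4 * Real.pi ^ 2 * nq ξ := by positivity
  linarith

/-- `1 + 4π²w` -/
noncomputable def jw (w : ℂ) : ℂ := 1 + 4 * Real.pi ^ 2 * w

lemma jw_re (ξ : Fin d → ℝ) (i : Fin d) (η : ℝ) :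
    (jw (pt ξ i η)).re = 1 + 4 * Real.pi ^ 2 * (nq ξ - η ^ 2) := by
  unfold jw pt
  have : (1 : ℂ) + 4 * Real.pi ^ 2 * (((nq ξ - η ^ 2 : ℝ) : ℂ) + ((2 * η * ξ i : ℝ) : ℂ) * I) =
      ((1 + 4 * Real.pi ^ 2 * (nq ξ - η ^ 2) : ℝ) : ℂ) +
        ((4 * Real.pi ^ 2 * (2 * η * ξ i) : ℝ) : ℂ) * I := by
    push_cast
    ring
  rw [this, Complex.add_re, Complex.ofReal_re, Complex.re_ofReal_mul, Complex.I_re, mul_zero,
    add_zero]

lemma jw_bounds (ξ : Fin d → ℝ) (i : Fin d) (η : ℝ) (hη : |η| ≤ 1 / 10) :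
    Jr ξ / 2 ≤ ‖jw (pt ξ i η)‖ ∧ ‖jw (pt ξ i η)‖ ≤ 2 * Jr ξ := by
  have hq : ξ i ^ 2 ≤ nq ξ := Finset.single_le_sum (f := fun i => ξ i ^ 2)
    (fun i _ => sq_nonneg _) (Finset.mem_univ i)
  have hq0 := nq_nonneg ξ
  have hη2 : η ^ 2 ≤ 1 / 100 := by
    rw [← sq_abs]
    have := abs_nonneg η
    nlinarith
  have hp1 := Real.pi_gt_three
  have hp2 := Real.pi_lt_d2
  have hpp : Real.pi ^ 2 < 10 := by nlinarith
  have hJ := Jr_one ξ
  constructor
  · refine le_trans ?_ ((le_abs_self _).trans (Complex.abs_re_le_norm _))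
    rw [jw_re]
    unfold Jr at hJ ⊢
    nlinarith
  · have e : jw (pt ξ i η) = ((1 + 4 * Real.pi ^ 2 * (nq ξ - η ^ 2) : ℝ) : ℂ) +
        ((4 * Real.pi ^ 2 * (2 * η * ξ i) : ℝ) : ℂ) * I := by
      unfold jw pt
      push_cast
      ring
    rw [e]
    refine (norm_add_le _ _).trans ?_
    rw [norm_mul, Complex.norm_I, mul_one, Complex.norm_real, Complex.norm_real, Real.norm_eq_abs,
      Real.norm_eq_abs]
    have h1 : |1 + 4 * Real.pi ^ 2 * (nq ξ - η ^ 2)| ≤ Jr ξ := by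
      unfold Jr
      rw [abs_le]
      constructor
      · nlinarith [sq_nonneg η, sq_nonneg Real.pi, mul_nonneg (sq_nonneg Real.pi) hq0]
      · nlinarith [mul_nonneg (sq_nonneg Real.pi) (sq_nonneg η)]
    have h2 : |4 * Real.pi ^ 2 * (2 * η * ξ i)| ≤ Jr ξ := by
      rw [abs_mul, abs_of_pos (by positivity : 0 < 4 * Real.pi ^ 2), abs_mul, abs_mul, abs_two]
      have h3 : 4 * Real.pi ^ 2 * (2 * |η| * |ξ i|) ≤ 4 * Real.pi ^ 2 * (2 * (1 / 10) * |ξ i|) := by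
        gcongr
      refine h3.trans ?_
      unfold Jr
      have h4 : |ξ i| ^ 2 ≤ nq ξ := by rwa [sq_abs]
      have h5 : 4 * Real.pi ^ 2 * (2 * (1 / 10) * |ξ i|) ≤ 1 + 4 * Real.pi ^ 2 * |ξ i| ^ 2 := by
        have h6 := sq_nonneg (2 * Real.pi * |ξ i| - 1)
        have h7 : Real.pi ^ 2 * |ξ i| ≤ 5 * (Real.pi * |ξ i|) := by
          have : 0 ≤ Real.pi * |ξ i| := by positivity
          nlinarith
        nlinarith
      nlinarith [sq_nonneg Real.pi]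
    linarith

lemma jw_slit {w : ℂ} (hw : w ∈ Hp) : jw w ∈ slitPlane := by
  unfold jw Hp at *
  rw [mem_ofPred_eq] at hw
  left
  have : (1 + 4 * (Real.pi : ℂ) ^ 2 * w) = 1 + ((4 * Real.pi ^ 2 : ℝ) : ℂ) * w := by
    push_cast
    ring
  rw [this, Complex.add_re, Complex.one_re, Complex.re_ofReal_mul]
  have h1 : (0 : ℝ) < 4 * Real.pi ^ 2 := by positivity
  have h2 : 4 * Real.pi ^ 2 * (-(1 / (4 * Real.pi ^ 2))) < 4 * Real.pi ^ 2 * w.re :=
    mul_lt_mul_of_pos_left hw h1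
  have h3 : 4 * Real.pi ^ 2 * (-(1 / (4 * Real.pi ^ 2))) = -1 := by field_simp
  linarith

lemma jw_pow (a : ℝ) (ξ : Fin d → ℝ) (i : Fin d) (η : ℝ) (hη : |η| ≤ 1 / 10) :
    ‖jw (pt ξ i η) ^ (a : ℂ)‖ ≤ 2 ^ |a| * Jr ξ ^ a := by
  obtain ⟨h1, h2⟩ := jw_bounds ξ i η hη
  have hJ := Jr_one ξ
  rw [Complex.norm_cpow_real]
  rcases le_total 0 a with ha | ha
  · rw [abs_of_nonneg ha, ← Real.mul_rpow (by norm_num) (by linarith)]
    exact Real.rpow_le_rpow (norm_nonneg _) h2 ha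
  · rw [abs_of_nonpos ha]
    refine (Real.rpow_le_rpow_of_nonpos (by linarith) h1 ha).trans (le_of_eq ?_)
    rw [div_eq_mul_inv, Real.mul_rpow (by linarith) (by norm_num), mul_comm]
    congr 1
    rw [Real.inv_rpow (by norm_num), ← Real.rpow_neg (by norm_num)]

/-- `cos (2πt√w)` and `sin (2πt√w)/(2π√w)` -/
noncomputable def Cc (t : ℝ) (w : ℂ) : ℂ := C0 (((2 * Real.pi * t) ^ 2 : ℝ) * w)
noncomputable def Sc (t : ℝ) (w : ℂ) : ℂ := t * S0 (((2 * Real.pi * t) ^ 2 : ℝ) * w)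

lemma Cc_diff (t : ℝ) : Differentiable ℂ (Cc t) := by
  unfold Cc
  exact C0_diff.comp (by fun_prop)

lemma Sc_diff (t : ℝ) : Differentiable ℂ (Sc t) := by
  unfold Sc
  exact (S0_diff.comp (by fun_prop)).const_mul _

lemma CS_bd (t : ℝ) (ht1 : 1 ≤ t) (ht2 : t ≤ 2) (ξ : Fin d → ℝ) (i : Fin d) (η : ℝ)
    (hη : |η| ≤ 1 / 10) : ‖Cc t (pt ξ i η)‖ ≤ Real.exp 2 ∧
    ‖Sc t (pt ξ i η)‖ ≤ 8 * Real.exp 3 * Jr ξ ^ (-(1 / 2) : ℝ) := by
  obtain ⟨v, hv⟩ := IsAlgClosed.exists_pow_nat_eq ((((2 * Real.pi * t) ^ 2 : ℝ) : ℂ) * pt ξ i η)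
    (n := 2) (by norm_num)
  have hp1 := Real.pi_gt_three
  have hp2 := Real.pi_lt_d2
  have him : |v.im| ≤ 2 := by
    refine (im_bd (2 * Real.pi * t) (by positivity) ξ i η v hv).trans ?_
    have := abs_nonneg η
    calc 2 * Real.pi * t * |η| ≤ 2 * 3.15 * 2 * (1 / 10) := by gcongr
      _ ≤ 2 := by norm_num
  have hex : Real.exp |v.im| ≤ Real.exp 2 := Real.exp_le_exp.mpr him
  have hJ := Jr_one ξ
  obtain ⟨h1, h2⟩ := jw_bounds ξ i η hη
  unfold Cc Sc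
  rw [← hv]
  refine ⟨?_, ?_⟩
  · rw [C0_sq]
    exact (cos_bd v).trans hex
  · have h3 := S0_bd v
    have h4 : ‖v‖ ^ 2 = (2 * Real.pi * t) ^ 2 * ‖pt ξ i η‖ := by
      rw [← norm_pow, hv, norm_mul, Complex.norm_real, Real.norm_of_nonneg (by positivity)]
    have h5 : ‖jw (pt ξ i η)‖ ≤ 1 + ‖v‖ ^ 2 := by
      unfold jw
      refine (norm_add_le _ _).trans ?_
      rw [norm_one, h4]
      have : ‖(4 : ℂ) * Real.pi ^ 2 * pt ξ i η‖ = (2 * Real.pi) ^ 2 * ‖pt ξ i η‖ := by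
        rw [norm_mul, norm_mul, norm_pow, Complex.norm_real, Complex.norm_ofNat,
          Real.norm_of_nonneg Real.pi_pos.le]
        ring
      rw [this]
      have h6 : (2 * Real.pi) ^ 2 ≤ (2 * Real.pi * t) ^ 2 := by
        apply pow_le_pow_left₀ (by positivity)
        nlinarith
      have := mul_le_mul_of_nonneg_right h6 (norm_nonneg (pt ξ i η))
      linarith
    have h6 : Jr ξ / 2 ≤ (1 + ‖v‖) ^ 2 := by
      have := norm_nonneg v
      nlinarith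
    have h7 : Jr ξ ^ (1 / 2 : ℝ) ≤ 2 * (1 + ‖v‖) := by
      rw [← Real.sqrt_eq_rpow]
      apply Real.sqrt_le_iff.mpr
      have := norm_nonneg v
      constructor
      · positivity
      · nlinarith
    have hJp : 0 < Jr ξ ^ (1 / 2 : ℝ) := by positivity
    rw [norm_mul, Complex.norm_real, Real.norm_of_nonneg (by linarith), Real.rpow_neg (by linarith),
      ← div_eq_mul_inv, le_div_iff₀ hJp]
    have h8 : Real.exp 1 * Real.exp 2 = Real.exp 3 := by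
      rw [← Real.exp_add]
      norm_num
    calc t * ‖S0 (v ^ 2)‖ * Jr ξ ^ (1 / 2 : ℝ) ≤ 2 * ‖S0 (v ^ 2)‖ * (2 * (1 + ‖v‖)) := by gcongr
      _ = 4 * (‖S0 (v ^ 2)‖ * (1 + ‖v‖)) := by ring
      _ ≤ 4 * (2 * Real.exp 1 * Real.exp |v.im|) := by gcongr
      _ ≤ 4 * (2 * Real.exp 1 * Real.exp 2) := by gcongr
      _ = _ := by rw [← h8]; ring

end Pool.Agent.Q89.WS
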