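import Pool.Agent.Q89.WS.F
set_option autoImplicit false

/-! Kernels of the pieces of the wave propagator. -/

namespace Pool.Agent.Q89.WS

open MeasureTheory Set Complex Filter Topology
open scoped ENNReal NNReal
open Pool.Agent.Y183.LS (ec ec_norm ec_enorm ec_add ec_cont ec_zero ec_sum dt dt_add dt_comm dt_cont
  dt_cont2 iz dt_add_left)

variable {d : ℕ}

/-- the norm -/
noncomputable def nrm (v : Fin d → ℝ) : ℝ := Real.sqrt (∑ i, v i ^ 2)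

lemma nrm_nonneg (v : Fin d → ℝ) : 0 ≤ nrm v := Real.sqrt_nonneg _

lemma nrm_sq (v : Fin d → ℝ) : nrm v ^ 2 = nq v := by
  unfold nrm
  exact Real.sq_sqrt (nq_nonneg v)

lemma nrm_eq (v : Fin d → ℝ) : nrm v = ‖(WithLp.toLp 2 v : EuclideanSpace ℝ (Fin d))‖ := by
  rw [EuclideanSpace.norm_eq]
  unfold nrm
  simp

lemma nrm_sub (a b : Fin d → ℝ) : |nrm a - nrm b| ≤ nrm (a - b) := by
  rw [nrm_eq, nrm_eq, nrm_eq]
  exact abs_norm_sub_norm_le _ _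

/-- two solutions of the equation of the harmonic oscillator -/
structure Pair (s : ℝ) (y z : ℝ → ℂ → ℂ) : Prop where
  dy : ∀ t, DifferentiableOn ℂ (y t) Hp
  dz : ∀ t, DifferentiableOn ℂ (z t) Hp
  my : Measurable fun q : ℝ × ℂ => y q.1 q.2
  mz : Measurable fun q : ℝ × ℂ => z q.1 q.2
  bd : ∃ C : ℝ, 0 < C ∧ ∀ (d : ℕ) (ξ : Fin d → ℝ) (i : Fin d) (η : ℝ), |η| ≤ 1 / 10 → ∀ t : ℝ,
    1 ≤ t → t ≤ 2 → ‖y t (pt ξ i η)‖ ≤ C * Jr ξ ^ (-s / 2) ∧
    ‖z t (pt ξ i η)‖ ≤ C * Jr ξ ^ ((1 - s) / 2)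
  ode : ∀ q : ℝ, 0 < q → ∀ t : ℝ, HasDerivAt (fun t => y t (q : ℂ)) (z t (q : ℂ)) t ∧
    HasDerivAt (fun t => z t (q : ℂ)) (-(4 * Real.pi ^ 2 * q) * y t (q : ℂ)) t

noncomputable def y0 (s t : ℝ) (w : ℂ) : ℂ := Cc t w * jw w ^ ((-s / 2 : ℝ) : ℂ)
noncomputable def z0 (s t : ℝ) (w : ℂ) : ℂ := -(4 * Real.pi ^ 2 * w) * Sc t w * jw w ^ ((-s / 2 : ℝ) : ℂ)
noncomputable def y1 (s t : ℝ) (w : ℂ) : ℂ := Sc t w * jw w ^ (((1 - s) / 2 : ℝ) : ℂ)
noncomputable def z1 (s t : ℝ) (w : ℂ) : ℂ := Cc t w * jw w ^ (((1 - s) / 2 : ℝ) : ℂ)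

lemma Cc_real (t q : ℝ) (hq : 0 ≤ q) : Cc t (q : ℂ) = Complex.cos ((2 * Real.pi * t * Real.sqrt q : ℝ) : ℂ) := by
  unfold Cc
  rw [← C0_sq]
  congr 1
  have : (Real.sqrt q : ℂ) ^ 2 = (q : ℂ) := by
    rw [← Complex.ofReal_pow, Real.sq_sqrt hq]
  push_cast
  rw [← this]
  ring

lemma Sc_real (t q : ℝ) (hq : 0 ≤ q) : 2 * Real.pi * Real.sqrt q * Sc t (q : ℂ) =
    Complex.sin ((2 * Real.pi * t * Real.sqrt q : ℝ) : ℂ) := by
  unfold Sc
  rw [← S0_sq]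
  have h1 : (Real.sqrt q : ℂ) ^ 2 = (q : ℂ) := by
    rw [← Complex.ofReal_pow, Real.sq_sqrt hq]
  have h2 : (((2 * Real.pi * t * Real.sqrt q : ℝ) : ℂ)) ^ 2 = (((2 * Real.pi * t) ^ 2 : ℝ) : ℂ) * q := by
    push_cast
    rw [← h1]
    ring
  rw [h2]
  push_cast
  ring

lemma cos_deriv (c t : ℝ) : HasDerivAt (fun t : ℝ => Complex.cos ((2 * Real.pi * t * c : ℝ) : ℂ))
    (-(2 * Real.pi * c) * Complex.sin ((2 * Real.pi * t * c : ℝ) : ℂ)) t := by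
  have h1 : HasDerivAt (fun t : ℝ => ((2 * Real.pi * t * c : ℝ) : ℂ)) ((2 * Real.pi * c : ℝ) : ℂ) t := by
    have h2 : HasDerivAt (fun t : ℝ => 2 * Real.pi * t * c) (2 * Real.pi * c) t := by
      have := ((hasDerivAt_id t).const_mul (2 * Real.pi)).mul_const c
      simpa using this
    exact h2.ofReal_comp
  have h3 := (Complex.hasDerivAt_cos _).comp t h1
  refine h3.congr_deriv ?_
  push_cast
  ring

lemma sin_deriv (c t : ℝ) : HasDerivAt (fun t : ℝ => Complex.sin ((2 * Real.pi * t * c : ℝ) : ℂ))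
    ((2 * Real.pi * c) * Complex.cos ((2 * Real.pi * t * c : ℝ) : ℂ)) t := by
  have h1 : HasDerivAt (fun t : ℝ => ((2 * Real.pi * t * c : ℝ) : ℂ)) ((2 * Real.pi * c : ℝ) : ℂ) t := by
    have h2 : HasDerivAt (fun t : ℝ => 2 * Real.pi * t * c) (2 * Real.pi * c) t := by
      have := ((hasDerivAt_id t).const_mul (2 * Real.pi)).mul_const c
      simpa using this
    exact h2.ofReal_comp
  have h3 := (Complex.hasDerivAt_sin _).comp t h1
  refine h3.congr_deriv ?_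
  push_cast
  ring

lemma CS_ode (q : ℝ) (hq : 0 < q) (t : ℝ) :
    HasDerivAt (fun t => Cc t (q : ℂ)) (-(4 * Real.pi ^ 2 * q) * Sc t (q : ℂ)) t ∧
    HasDerivAt (fun t => Sc t (q : ℂ)) (Cc t (q : ℂ)) t := by
  have hs : 0 < Real.sqrt q := Real.sqrt_pos.mpr hq
  have h1 : (Real.sqrt q : ℂ) ^ 2 = (q : ℂ) := by
    rw [← Complex.ofReal_pow, Real.sq_sqrt hq.le]
  have hs' : (Real.sqrt q : ℂ) ≠ 0 := by exact_mod_cast hs.ne'
  constructor
  · simp only [fun t => Cc_real t q hq.le]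
    refine (cos_deriv (Real.sqrt q) t).congr_deriv ?_
    rw [← Sc_real t q hq.le, ← h1]
    ring
  · have e : (fun t => Sc t (q : ℂ)) = fun t : ℝ =>
        Complex.sin ((2 * Real.pi * t * Real.sqrt q : ℝ) : ℂ) / (2 * Real.pi * Real.sqrt q) := by
      ext t
      rw [← Sc_real t q hq.le]
      field_simp
    rw [e]
    refine ((sin_deriv (Real.sqrt q) t).div_const _).congr_deriv ?_
    rw [Cc_real t q hq.le]
    field_simp

lemma Cc_meas : Measurable fun q : ℝ × ℂ => Cc q.1 q.2 := by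
  unfold Cc
  exact (C0_diff.continuous.comp (by fun_prop)).measurable

lemma Sc_meas : Measurable fun q : ℝ × ℂ => Sc q.1 q.2 := by
  unfold Sc
  exact ((Complex.continuous_ofReal.comp continuous_fst).mul
    (S0_diff.continuous.comp (by fun_prop))).measurable

lemma jw_meas (a : ℂ) : Measurable fun q : ℝ × ℂ => jw q.2 ^ a := by
  unfold jw
  exact (by fun_prop : Measurable fun q : ℝ × ℂ => 1 + 4 * (Real.pi : ℂ) ^ 2 * q.2).pow_const a

lemma jw_diff (a : ℂ) : DifferentiableOn ℂ (fun w => jw w ^ a) Hp := by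
  refine DifferentiableOn.cpow_const ?_ fun w hw => jw_slit hw
  unfold jw
  fun_prop

lemma Jr_pos (ξ : Fin d → ℝ) : 0 < Jr ξ := lt_of_lt_of_le one_pos (Jr_one ξ)

lemma pair0 (s : ℝ) : Pair s (y0 s) (z0 s) := by
  refine ⟨?_, ?_, ?_, ?_, ?_, ?_⟩
  · intro t
    exact (Cc_diff t).differentiableOn.mul (jw_diff _)
  · intro t
    unfold z0
    exact (DifferentiableOn.mul (by fun_prop) (Sc_diff t).differentiableOn).mul (jw_diff _)
  · exact Cc_meas.mul (jw_meas _)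
  · unfold z0
    exact (Measurable.mul (by fun_prop) Sc_meas).mul (jw_meas _)
  · refine ⟨2 ^ |-s / 2| * (24 * Real.exp 3), by positivity, ?_⟩
    intro d ξ i η hη t ht1 ht2
    obtain ⟨h1, h2⟩ := CS_bd t ht1 ht2 ξ i η hη
    have h3 := jw_pow (-s / 2) ξ i η hη
    obtain ⟨h4, h5⟩ := jw_bounds ξ i η hη
    have hJ := Jr_one ξ
    have hJp := Jr_pos ξ
    have he : Real.exp 2 ≤ Real.exp 3 := Real.exp_le_exp.mpr (by norm_num)
    have he3 := Real.exp_pos 3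
    constructor
    · unfold y0
      rw [norm_mul]
      calc ‖Cc t (pt ξ i η)‖ * ‖jw (pt ξ i η) ^ ((-s / 2 : ℝ) : ℂ)‖ ≤
          Real.exp 2 * (2 ^ |-s / 2| * Jr ξ ^ (-s / 2)) := by gcongr
        _ ≤ (24 * Real.exp 3) * (2 ^ |-s / 2| * Jr ξ ^ (-s / 2)) := by
            gcongr
            linarith
        _ = _ := by ring
    · unfold z0
      rw [norm_mul, norm_mul, norm_neg]
      have h6 : ‖4 * (Real.pi : ℂ) ^ 2 * pt ξ i η‖ ≤ 3 * Jr ξ := by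
        have h7 : 4 * (Real.pi : ℂ) ^ 2 * pt ξ i η = jw (pt ξ i η) - 1 := by
          unfold jw
          ring
        rw [h7]
        refine (norm_sub_le _ _).trans ?_
        rw [norm_one]
        linarith
      calc ‖4 * (Real.pi : ℂ) ^ 2 * pt ξ i η‖ * ‖Sc t (pt ξ i η)‖ *
          ‖jw (pt ξ i η) ^ ((-s / 2 : ℝ) : ℂ)‖ ≤
          3 * Jr ξ * (8 * Real.exp 3 * Jr ξ ^ (-(1 / 2) : ℝ)) * (2 ^ |-s / 2| * Jr ξ ^ (-s / 2)) := by
            gcongr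
        _ = 2 ^ |-s / 2| * (24 * Real.exp 3) * (Jr ξ ^ (1 : ℝ) * Jr ξ ^ (-(1 / 2) : ℝ) *
            Jr ξ ^ (-s / 2)) := by
            rw [Real.rpow_one]
            ring
        _ = _ := by
            rw [← Real.rpow_add hJp, ← Real.rpow_add hJp]
            congr 2
            ring
  · intro q hq t
    obtain ⟨h1, h2⟩ := CS_ode q hq t
    constructor
    · exact (h1.mul_const _).congr_deriv rfl
    · refine ((h2.const_mul (-(4 * (Real.pi : ℂ) ^ 2 * q))).mul_const _).congr_deriv ?_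
      unfold y0
      ring

lemma pair1 (s : ℝ) : Pair s (y1 s) (z1 s) := by
  refine ⟨?_, ?_, ?_, ?_, ?_, ?_⟩
  · intro t
    exact (Sc_diff t).differentiableOn.mul (jw_diff _)
  · intro t
    exact (Cc_diff t).differentiableOn.mul (jw_diff _)
  · exact Sc_meas.mul (jw_meas _)
  · exact Cc_meas.mul (jw_meas _)
  · refine ⟨2 ^ |(1 - s) / 2| * (24 * Real.exp 3), by positivity, ?_⟩
    intro d ξ i η hη t ht1 ht2
    obtain ⟨h1, h2⟩ := CS_bd t ht1 ht2 ξ i η hη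
    have h3 := jw_pow ((1 - s) / 2) ξ i η hη
    have hJ := Jr_one ξ
    have hJp := Jr_pos ξ
    have he : Real.exp 2 ≤ Real.exp 3 := Real.exp_le_exp.mpr (by norm_num)
    have he3 := Real.exp_pos 3
    constructor
    · unfold y1
      rw [norm_mul]
      calc ‖Sc t (pt ξ i η)‖ * ‖jw (pt ξ i η) ^ (((1 - s) / 2 : ℝ) : ℂ)‖ ≤
          (8 * Real.exp 3 * Jr ξ ^ (-(1 / 2) : ℝ)) * (2 ^ |(1 - s) / 2| * Jr ξ ^ ((1 - s) / 2)) := by
            gcongr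
        _ ≤ (24 * Real.exp 3 * Jr ξ ^ (-(1 / 2) : ℝ)) *
            (2 ^ |(1 - s) / 2| * Jr ξ ^ ((1 - s) / 2)) := by
            gcongr
            norm_num
        _ = 2 ^ |(1 - s) / 2| * (24 * Real.exp 3) * (Jr ξ ^ (-(1 / 2) : ℝ) *
            Jr ξ ^ ((1 - s) / 2)) := by ring
        _ = _ := by
            rw [← Real.rpow_add hJp]
            congr 2
            ring
    · unfold z1
      rw [norm_mul]
      calc ‖Cc t (pt ξ i η)‖ * ‖jw (pt ξ i η) ^ (((1 - s) / 2 : ℝ) : ℂ)‖ ≤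
          Real.exp 2 * (2 ^ |(1 - s) / 2| * Jr ξ ^ ((1 - s) / 2)) := by gcongr
        _ ≤ (24 * Real.exp 3) * (2 ^ |(1 - s) / 2| * Jr ξ ^ ((1 - s) / 2)) := by
            gcongr
            linarith
        _ = _ := by ring
  · intro q hq t
    obtain ⟨h1, h2⟩ := CS_ode q hq t
    constructor
    · exact (h2.mul_const _).congr_deriv rfl
    · refine (h1.mul_const _).congr_deriv ?_
      unfold y1
      ring

/-- the two components -/
noncomputable def P0 (y z : ℝ → ℂ → ℂ) (σ ω t : ℝ) (w : ℂ) : ℂ :=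
  1 / 2 * (y t w + σ * z t w / (2 * Real.pi * I * ω))

/-- the source -/
noncomputable def P1 (y : ℝ → ℂ → ℂ) (σ ω t : ℝ) (w : ℂ) : ℂ :=
  σ * Real.pi * I * ((w - ω ^ 2) / ω) * y t w

lemma Jr_le (ξ κ : Fin d → ℝ) (D ω : ℝ) (hD : 0 ≤ D) (hω : 1 ≤ ω) (h : |ω - nrm κ| ≤ D) :
    Jr ξ ^ (1 / 2 : ℝ) ≤ 20 * (2 + D) * ω * (1 + nq (ξ - κ)) := by
  have h1 : nq ξ ≤ 2 * nq κ + 2 * nq (ξ - κ) := by
    unfold nq
    rw [Finset.mul_sum, Finset.mul_sum, ← Finset.sum_add_distrib]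
    apply Finset.sum_le_sum
    intro i _
    rw [Pi.sub_apply]
    nlinarith [sq_nonneg (ξ i - 2 * κ i)]
  have h2 : nq κ ≤ ((1 + D) * ω) ^ 2 := by
    rw [← nrm_sq]
    have h3 : nrm κ ≤ ω + D := by linarith [(abs_le.mp h).1]
    have h4 : nrm κ ≤ (1 + D) * ω := by nlinarith
    exact pow_le_pow_left₀ (nrm_nonneg _) h4 2
  have hq := nq_nonneg (ξ - κ)
  have hpp : Real.pi ^ 2 < 10 := by nlinarith [Real.pi_gt_three, Real.pi_lt_d2]
  rw [← Real.sqrt_eq_rpow]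
  apply Real.sqrt_le_iff.mpr
  constructor
  · positivity
  · unfold Jr
    set X : ℝ := nq (ξ - κ) with hX
    set Y : ℝ := (2 + D) * ω with hY
    have hY1 : 1 ≤ Y := by nlinarith
    have hYD : ((1 + D) * ω) ^ 2 ≤ Y ^ 2 := by
      apply pow_le_pow_left₀ (by positivity)
      nlinarith
    have h5 : 1 + 4 * Real.pi ^ 2 * nq ξ ≤ 1 + 40 * (2 * Y ^ 2 + 2 * X) := by
      have h6 : nq ξ ≤ 2 * Y ^ 2 + 2 * X := by linarith
      have h7 := nq_nonneg ξ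
      nlinarith
    refine h5.trans ?_
    have h8 : 20 * (2 + D) * ω * (1 + X) = 20 * Y * (1 + X) := by rw [hY]; ring
    rw [h8]
    have h9 : (20 * Y * (1 + X)) ^ 2 = 400 * Y ^ 2 * (1 + X) ^ 2 := by ring
    rw [h9]
    have h10 : 1 ≤ Y ^ 2 := by nlinarith
    nlinarith [mul_nonneg (by linarith : (0 : ℝ) ≤ Y ^ 2 - 1) hq, mul_nonneg hq hq,
      mul_nonneg (mul_nonneg (by linarith : (0 : ℝ) ≤ Y ^ 2 - 1) hq) hq]

lemma peetre (ξ κ : Fin d → ℝ) (s : ℝ) (hs : 0 ≤ s) (M : ℕ) (hM : s / 2 ≤ M) :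
    Jr ξ ^ (-s / 2) ≤ 2 ^ (s / 2) * (1 + nq κ) ^ (-s / 2) * (1 + nq (ξ - κ)) ^ M := by
  have h1 : nq κ ≤ 2 * nq ξ + 2 * nq (ξ - κ) := by
    unfold nq
    rw [Finset.mul_sum, Finset.mul_sum, ← Finset.sum_add_distrib]
    apply Finset.sum_le_sum
    intro i _
    rw [Pi.sub_apply]
    nlinarith [sq_nonneg (κ i - 2 * ξ i)]
  have hq1 := nq_nonneg ξ
  have hq2 := nq_nonneg (ξ - κ)
  have hq3 := nq_nonneg κ
  have hpp : 3 < Real.pi := Real.pi_gt_three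
  have h2 : (1 + nq κ) / (2 * (1 + nq (ξ - κ))) ≤ Jr ξ := by
    rw [div_le_iff₀ (by positivity)]
    unfold Jr
    have h3 : nq ξ ≤ 4 * Real.pi ^ 2 * nq ξ := le_mul_of_one_le_left hq1 (by nlinarith)
    nlinarith [mul_nonneg hq1 hq2, mul_nonneg (by linarith : (0 : ℝ) ≤ 4 * Real.pi ^ 2 * nq ξ - nq ξ) hq2]
  have h4 : Jr ξ ^ (-s / 2) ≤ ((1 + nq κ) / (2 * (1 + nq (ξ - κ)))) ^ (-s / 2) :=
    Real.rpow_le_rpow_of_nonpos (by positivity) h2 (by linarith)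
  refine h4.trans ?_
  have h5 : ((1 + nq κ) / (2 * (1 + nq (ξ - κ)))) ^ (-s / 2) =
      2 ^ (s / 2) * (1 + nq κ) ^ (-s / 2) * (1 + nq (ξ - κ)) ^ (s / 2) := by
    rw [div_eq_mul_inv, Real.mul_rpow (by positivity) (by positivity),
      Real.inv_rpow (by positivity), ← Real.rpow_neg (by positivity),
      Real.mul_rpow (by norm_num) (by positivity)]
    have e : -(-s / 2) = s / 2 := by ring
    rw [e]
    ring
  rw [h5]
  gcongr
  rw [← Real.rpow_natCast]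
  exact Real.rpow_le_rpow_of_exponent_le (by linarith) hM

lemma alg1 (δ D : ℝ) (hδ : 0 ≤ δ) (hD : 0 ≤ D) :
    (δ + D) * (2 + (δ + D)) + 1 / 100 + (1 + (δ + D)) ≤ 2 * (2 + D) ^ 2 * (1 + δ ^ 2) := by
  have h15 : (δ + D) * (2 + (δ + D)) + 1 / 100 + (1 + (δ + D)) ≤ (δ + D + 2) ^ 2 := by nlinarith
  have h16 : (δ + D + 2) ^ 2 ≤ 2 * δ ^ 2 + 2 * (2 + D) ^ 2 := by
    nlinarith [sq_nonneg (δ - (2 + D))]
  have h18 : (1 : ℝ) ≤ (2 + D) ^ 2 := by nlinarith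
  have h17 : 2 * δ ^ 2 ≤ 2 * (2 + D) ^ 2 * δ ^ 2 := by
    have := mul_le_mul_of_nonneg_right h18 (sq_nonneg δ)
    linarith
  linarith

lemma src_bd (ξ κ : Fin d → ℝ) (D ω : ℝ) (hD : 0 ≤ D) (hω : 1 ≤ ω) (hκ : |ω - nrm κ| ≤ D)
    (i : Fin d) (η : ℝ) (hη : |η| ≤ 1 / 10) :
    ‖(pt ξ i η - (ω : ℂ) ^ 2) / ω‖ ≤ 2 * (2 + D) ^ 2 * (1 + nq (ξ - κ)) := by
  have hω0 : 0 < ω := by linarith
  rw [norm_div, Complex.norm_real, Real.norm_of_nonneg hω0.le, div_le_iff₀ hω0]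
  have e2 : pt ξ i η - (ω : ℂ) ^ 2 = ((nq ξ - ω ^ 2 - η ^ 2 : ℝ) : ℂ) +
      ((2 * η * ξ i : ℝ) : ℂ) * I := by
    unfold pt
    push_cast
    ring
  rw [e2]
  refine (norm_add_le _ _).trans ?_
  rw [norm_mul, Complex.norm_I, mul_one, Complex.norm_real, Complex.norm_real,
    Real.norm_eq_abs, Real.norm_eq_abs]
  have h13 : nq (ξ - κ) = nrm (ξ - κ) ^ 2 := (nrm_sq _).symm
  rw [h13]
  have h4 := nrm_sub ξ κ
  have hδ0 : 0 ≤ nrm (ξ - κ) := nrm_nonneg _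
  generalize nrm (ξ - κ) = δ at h4 hδ0 ⊢
  have h5 : |nrm ξ - ω| ≤ δ + D := by
    have : nrm ξ - ω = (nrm ξ - nrm κ) - (ω - nrm κ) := by ring
    rw [this]
    exact (abs_sub _ _).trans (add_le_add h4 hκ)
  have h14 := alg1 δ D hδ0 hD
  have hX0 : 0 ≤ δ + D := by positivity
  generalize δ + D = X at h5 h14 hX0
  have hx2 := (abs_le.mp h5).2
  have hn0 := nrm_nonneg ξ
  have h12 : nrm ξ ≤ (1 + X) * ω := by nlinarith
  have h6 : |nq ξ - ω ^ 2| ≤ X * (2 + X) * ω := by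
    rw [← nrm_sq]
    have h7 : nrm ξ ^ 2 - ω ^ 2 = (nrm ξ - ω) * (nrm ξ + ω) := by ring
    rw [h7, abs_mul]
    have h8 : |nrm ξ + ω| ≤ (2 + X) * ω := by
      rw [abs_of_nonneg (by linarith)]
      linarith
    calc |nrm ξ - ω| * |nrm ξ + ω| ≤ X * ((2 + X) * ω) := by gcongr
      _ = _ := by ring
  have hη2 : η ^ 2 ≤ 1 / 100 := by
    rw [← sq_abs]
    have := abs_nonneg η
    nlinarith
  have h9 : |nq ξ - ω ^ 2 - η ^ 2| ≤ X * (2 + X) * ω + 1 / 100 := by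
    refine (abs_sub _ _).trans (add_le_add h6 ?_)
    rw [abs_of_nonneg (sq_nonneg _)]
    exact hη2
  have h10 : |2 * η * ξ i| ≤ (1 + X) * ω := by
    have h11 : |ξ i| ≤ nrm ξ := by
      unfold nrm
      apply Real.le_sqrt_of_sq_le
      rw [sq_abs]
      exact Finset.single_le_sum (f := fun i => ξ i ^ 2) (fun i _ => sq_nonneg _)
        (Finset.mem_univ i)
    rw [abs_mul, abs_mul, abs_two]
    calc 2 * |η| * |ξ i| ≤ 2 * (1 / 10) * ((1 + X) * ω) := by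
          gcongr
          exact h11.trans h12
      _ ≤ _ := by
          have : 0 ≤ (1 + X) * ω := by positivity
          linarith
  calc |nq ξ - ω ^ 2 - η ^ 2| + |2 * η * ξ i| ≤ (X * (2 + X) * ω + 1 / 100) + (1 + X) * ω :=
        add_le_add h9 h10
    _ ≤ (X * (2 + X) * ω + 1 / 100 * ω) + (1 + X) * ω := by linarith
    _ = (X * (2 + X) + 1 / 100 + (1 + X)) * ω := by ring
    _ ≤ _ := by gcongr

lemma P_bd {s : ℝ} (hs : 0 ≤ s) {y z : ℝ → ℂ → ℂ} (hy : Pair s y z) (D : ℝ) (hD : 0 ≤ D) :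
    ∃ (C : ℝ) (M : ℕ), 0 < C ∧ ∀ (d : ℕ) (κ : Fin d → ℝ) (ω σ : ℝ), 1 ≤ ω → |ω - nrm κ| ≤ D →
    |σ| ≤ 1 → ∀ (ξ : Fin d → ℝ) (i : Fin d) (η : ℝ), |η| ≤ 1 / 10 → ∀ t : ℝ, 1 ≤ t → t ≤ 2 →
    ‖P0 y z σ ω t (pt ξ i η)‖ ≤ C * (1 + nq κ) ^ (-s / 2) * (1 + nq (ξ - κ)) ^ M ∧
    ‖P1 y σ ω t (pt ξ i η)‖ ≤ C * (1 + nq κ) ^ (-s / 2) * (1 + nq (ξ - κ)) ^ M := by
  obtain ⟨C, hC, h⟩ := hy.bd
  obtain ⟨M0, hM0⟩ := exists_nat_ge (s / 2)
  refine ⟨C * 2 ^ (s / 2) * (20 * (2 + D) ^ 2), M0 + 1, by positivity, ?_⟩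
  intro d κ ω σ hω hκ hσ ξ i η hη t ht1 ht2
  obtain ⟨h1, h2⟩ := h d ξ i η hη t ht1 ht2
  have hpe := peetre ξ κ s hs M0 hM0
  have hJl := Jr_le ξ κ D ω hD hω hκ
  have hJp := Jr_pos ξ
  have hω0 : 0 < ω := by linarith
  have hq := nq_nonneg (ξ - κ)
  have hκ0 := nq_nonneg κ
  have hpi := Real.pi_gt_three
  have hpi2 := Real.pi_lt_d2
  have hD2 : 2 ≤ 2 + D := by linarith
  have hDD : (2 + D) * 2 ≤ (2 + D) ^ 2 := by nlinarith
  constructor
  · unfold P0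
    rw [norm_mul]
    have e1 : ‖(1 / 2 : ℂ)‖ = 1 / 2 := by norm_num
    rw [e1]
    have h3 : ‖(σ : ℂ) * z t (pt ξ i η) / (2 * Real.pi * I * ω)‖ ≤
        C * Jr ξ ^ (-s / 2) * (4 * (2 + D) * (1 + nq (ξ - κ))) := by
      rw [norm_div, norm_mul, norm_mul, norm_mul, norm_mul, Complex.norm_I, Complex.norm_ofNat,
        Complex.norm_real, Complex.norm_real, Complex.norm_real, Real.norm_of_nonneg hω0.le,
        Real.norm_of_nonneg Real.pi_pos.le, Real.norm_eq_abs, mul_one, div_le_iff₀ (by positivity)]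
      have h4 : Jr ξ ^ ((1 - s) / 2) = Jr ξ ^ (-s / 2) * Jr ξ ^ (1 / 2 : ℝ) := by
        rw [← Real.rpow_add hJp]
        congr 1
        ring
      rw [h4] at h2
      calc |σ| * ‖z t (pt ξ i η)‖ ≤ 1 * (C * (Jr ξ ^ (-s / 2) * Jr ξ ^ (1 / 2 : ℝ))) := by gcongr
        _ ≤ 1 * (C * (Jr ξ ^ (-s / 2) * (20 * (2 + D) * ω * (1 + nq (ξ - κ))))) := by gcongr
        _ = C * Jr ξ ^ (-s / 2) * (4 * (2 + D) * (1 + nq (ξ - κ))) * (5 * ω) := by ring
        _ ≤ _ := by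
            gcongr
            linarith
    calc 1 / 2 * ‖y t (pt ξ i η) + σ * z t (pt ξ i η) / (2 * Real.pi * I * ω)‖ ≤
        1 / 2 * (C * Jr ξ ^ (-s / 2) + C * Jr ξ ^ (-s / 2) * (4 * (2 + D) * (1 + nq (ξ - κ)))) := by
          gcongr
          exact (norm_add_le _ _).trans (add_le_add h1 h3)
      _ ≤ C * Jr ξ ^ (-s / 2) * ((20 * (2 + D) ^ 2) * (1 + nq (ξ - κ))) := by
          have h5 : 1 / 2 * (C * Jr ξ ^ (-s / 2) + C * Jr ξ ^ (-s / 2) *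
              (4 * (2 + D) * (1 + nq (ξ - κ)))) = C * Jr ξ ^ (-s / 2) *
              (1 / 2 + 2 * (2 + D) * (1 + nq (ξ - κ))) := by ring
          rw [h5]
          gcongr
          nlinarith
      _ ≤ C * (2 ^ (s / 2) * (1 + nq κ) ^ (-s / 2) * (1 + nq (ξ - κ)) ^ M0) *
          ((20 * (2 + D) ^ 2) * (1 + nq (ξ - κ))) := by gcongr
      _ = _ := by
          rw [pow_succ]
          ring
  · unfold P1
    have h3 := src_bd ξ κ D ω hD hω hκ i η hη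
    rw [norm_mul, norm_mul, norm_mul, norm_mul, Complex.norm_I, Complex.norm_real,
      Complex.norm_real, Real.norm_of_nonneg Real.pi_pos.le, Real.norm_eq_abs, mul_one]
    calc |σ| * Real.pi * ‖(pt ξ i η - (ω : ℂ) ^ 2) / ω‖ * ‖y t (pt ξ i η)‖ ≤
        1 * 4 * (2 * (2 + D) ^ 2 * (1 + nq (ξ - κ))) * (C * Jr ξ ^ (-s / 2)) := by
          gcongr
          linarith
      _ ≤ 1 * 4 * (2 * (2 + D) ^ 2 * (1 + nq (ξ - κ))) *
          (C * (2 ^ (s / 2) * (1 + nq κ) ^ (-s / 2) * (1 + nq (ξ - κ)) ^ M0)) := by gcongr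
      _ = (C * 2 ^ (s / 2) * (8 * (2 + D) ^ 2)) * (1 + nq κ) ^ (-s / 2) *
          (1 + nq (ξ - κ)) ^ (M0 + 1) := by
          rw [pow_succ]
          ring
      _ ≤ _ := by
          gcongr
          norm_num

/-- exponential decay in all directions -/
lemma exp_Wt (n : ℕ) : ∃ C : ℝ, 0 < C ∧ ∀ (y : Fin (n + 1) → ℝ) (B : ℝ),
    (∀ i, B ≤ Real.exp (-(Real.pi / 5 * |y i|))) → B ≤ C * Wt y := by
  set m : ℕ := 2 * (n + 1) with hm
  set c : ℝ := Real.pi / 5 with hc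
  have hc0 : 0 < c := by positivity
  refine ⟨(1 / c) ^ m * m.factorial * Real.exp c, by positivity, ?_⟩
  intro y B hB
  obtain ⟨i, -, hi⟩ := Finset.exists_max_image (Finset.univ : Finset (Fin (n + 1)))
    (fun i => |y i|) ⟨0, Finset.mem_univ _⟩
  refine (hB i).trans ?_
  set x : ℝ := |y i| with hx
  have hx0 : 0 ≤ x := abs_nonneg _
  have h1 : ((1 + x) ^ m)⁻¹ ≤ Wt y := by
    unfold Wt
    rw [Finset.prod_inv_distrib]
    apply inv_anti₀ (Finset.prod_pos fun j _ => by positivity)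
    rw [hm, pow_mul]
    have e : ((1 + x) ^ 2) ^ (n + 1) = ∏ _j : Fin (n + 1), (1 + x) ^ 2 := by
      rw [Finset.prod_const, Finset.card_univ, Fintype.card_fin]
    rw [e]
    refine Finset.prod_le_prod (fun j _ => by positivity) fun j _ => ?_
    have h2 := hi j (Finset.mem_univ j)
    rw [← sq_abs (y j)]
    have h3 := abs_nonneg (y j)
    nlinarith
  have h4 := Real.pow_div_factorial_le_exp (c * (1 + x)) (by positivity) m
  have h5 : Real.exp (-(c * x)) ≤ (1 / c) ^ m * m.factorial * Real.exp c * ((1 + x) ^ m)⁻¹ := by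
    rw [Real.exp_neg, ← div_eq_mul_inv, inv_eq_one_div, div_le_div_iff₀ (by positivity) (by positivity),
      one_mul]
    rw [div_le_iff₀ (by positivity), mul_pow] at h4
    have h6 : Real.exp (c * (1 + x)) = Real.exp c * Real.exp (c * x) := by
      rw [← Real.exp_add]
      congr 1
      ring
    rw [h6] at h4
    have h7 : (1 + x) ^ m = (1 / c) ^ m * (c ^ m * (1 + x) ^ m) := by
      rw [← mul_assoc, ← mul_pow, one_div_mul_cancel hc0.ne', one_pow, one_mul]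
    rw [h7]
    calc (1 / c) ^ m * (c ^ m * (1 + x) ^ m) ≤
        (1 / c) ^ m * (Real.exp c * Real.exp (c * x) * m.factorial) := by gcongr
      _ = _ := by ring
  refine h5.trans ?_
  gcongr

end Pool.Agent.Q89.WS
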