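import Pool.Agent.Q89.WS.G
import Pool.Agent.Q89.WS.D
set_option autoImplicit false

/-! The representation of the pieces of the solution. -/

namespace Pool.Agent.Q89.WS

open MeasureTheory Set Complex Filter Topology
open scoped ENNReal NNReal
open Pool.Agent.Y183.LS (ec ec_norm ec_enorm ec_add ec_cont ec_zero ec_sum dt dt_add dt_comm dt_cont
  dt_cont2 iz dt_add_left HC HC_meas tri tri_cont parseval_unit)

variable {d : ℕ}

/-- the bump at `k` -/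
noncomputable def BB (k : Fin d → ℤ) (ξ : Fin d → ℝ) : ℝ := SB w0 (ξ - iz k) * SB w0 (ξ - iz k)

/-- the Gaussian at `k` -/
noncomputable def gf (k : Fin d → ℤ) (ξ : Fin d → ℝ) : ℝ := Real.exp (-(Real.pi * nq (ξ - iz k)))

lemma SB_wg (v : Fin d → ℝ) : SB wg v = SB w0 v * Real.exp (Real.pi * nq v) := by
  unfold SB wg w0 nq
  rw [Finset.mul_sum, Real.exp_sum, ← Finset.prod_mul_distrib]
  apply Finset.prod_congr rfl
  intro i _
  ring

lemma BB_ft {f : (Fin d → ℝ) → ℂ} (hf : Integrable f) (k : Fin d → ℤ) (ξ : Fin d → ℝ) :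
    (BB k ξ : ℂ) * ft f ξ = (gf k ξ : ℂ) * ft (hk f k) ξ := by
  rw [hk_ft hf, SB_wg]
  unfold BB gf
  have h : Real.exp (-(Real.pi * nq (ξ - iz k))) * Real.exp (Real.pi * nq (ξ - iz k)) = 1 := by
    rw [← Real.exp_add]
    simp
  have h2 : ((Real.exp (-(Real.pi * nq (ξ - iz k))) : ℝ) : ℂ) *
      ((Real.exp (Real.pi * nq (ξ - iz k)) : ℝ) : ℂ) = 1 := by exact_mod_cast h
  push_cast
  push_cast at h2
  calc (SB w0 (ξ - iz k) : ℂ) * SB w0 (ξ - iz k) * ft f ξ =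
      (SB w0 (ξ - iz k) : ℂ) * SB w0 (ξ - iz k) * ft f ξ * 1 := by ring
    _ = _ := by
        rw [← h2]
        ring

lemma ft_bd (g : (Fin d → ℝ) → ℂ) (ξ : Fin d → ℝ) : ‖ft g ξ‖ ≤ ∫ x, ‖g x‖ := by
  unfold ft
  refine (norm_integral_le_integral_norm _).trans (le_of_eq ?_)
  simp only [norm_mul, ec_norm, one_mul]

lemma ft_cont {g : (Fin d → ℝ) → ℂ} (hg : Integrable g) : Continuous (ft g) := by
  unfold ft
  refine continuous_of_dominated (bound := fun x => ‖g x‖) ?_ ?_ hg.norm ?_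
  · intro ξ
    exact (ec_dt_cont ξ).aestronglyMeasurable.mul hg.1
  · intro ξ
    filter_upwards with x
    rw [norm_mul, ec_norm, one_mul]
  · filter_upwards with x
    refine Continuous.mul ?_ continuous_const
    exact ec_cont.comp ((dt_cont x).neg)

lemma gf_nonneg (k : Fin d → ℤ) (ξ : Fin d → ℝ) : 0 ≤ gf k ξ := (Real.exp_pos _).le

lemma gf_cont (k : Fin d → ℤ) : Continuous (gf k) := by
  unfold gf
  have : Continuous fun ξ : Fin d → ℝ => nq (ξ - iz k) := nq_cont.comp (by fun_prop)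
  fun_prop

lemma N_norm {N : (Fin d → ℝ) → ℂ} {k : Fin d → ℤ} {A : ℝ} (hA : 0 ≤ A) {M : ℕ}
    (hb : ∀ ξ, ‖N ξ‖ ≤ A * (1 + nq (ξ - iz k)) ^ M) (ξ : Fin d → ℝ) :
    ‖N ξ * gf k ξ‖ ≤ A * (M.factorial * Real.exp 1) * gs (ξ - iz k) := by
  rw [norm_mul, Complex.norm_real, Real.norm_of_nonneg (gf_nonneg _ _)]
  have h := gs_abs M (nq (ξ - iz k)) (nq_nonneg _)
  calc ‖N ξ‖ * gf k ξ ≤ A * (1 + nq (ξ - iz k)) ^ M * gf k ξ :=
        mul_le_mul_of_nonneg_right (hb ξ) (gf_nonneg _ _)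
    _ = A * ((1 + nq (ξ - iz k)) ^ M * Real.exp (-(Real.pi * nq (ξ - iz k)))) := by
        unfold gf
        ring
    _ ≤ A * (M.factorial * Real.exp 1 * Real.exp (-nq (ξ - iz k))) := by gcongr
    _ = _ := by
        unfold gs
        ring

lemma N_int {N : (Fin d → ℝ) → ℂ} (hm : Measurable N) {k : Fin d → ℤ} {A : ℝ} (hA : 0 ≤ A) {M : ℕ}
    (hb : ∀ ξ, ‖N ξ‖ ≤ A * (1 + nq (ξ - iz k)) ^ M) : Integrable fun ξ => N ξ * gf k ξ := by
  refine ((gs_int.comp_sub_right (iz k)).const_mul (A * (M.factorial * Real.exp 1))).mono' ?_ ?_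
  · exact (hm.mul (Complex.measurable_ofReal.comp (gf_cont k).measurable)).aestronglyMeasurable
  · filter_upwards with ξ
    exact N_norm hA hb ξ

/-- the piece as a convolution -/
lemma piece {f : (Fin d → ℝ) → ℂ} (hf : Integrable f) {N : (Fin d → ℝ) → ℂ} (hm : Measurable N)
    {k : Fin d → ℤ} {A : ℝ} (hA : 0 ≤ A) {M : ℕ} (hb : ∀ ξ, ‖N ξ‖ ≤ A * (1 + nq (ξ - iz k)) ^ M)
    (x : Fin d → ℝ) : ∫ ξ, ec (dt x ξ) * (N ξ * ((BB k ξ : ℂ) * ft f ξ)) =
      ∫ v, Kn (fun ξ => N ξ * gf k ξ) v * hk f k (x - v) := by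
  rw [rep (N_int hm hA hb) (hk_int hf k)]
  congr 1
  ext ξ
  rw [BB_ft hf]
  ring

/-- the kernels -/
lemma Kn_Wt (n M : ℕ) : ∃ C : ℝ, 0 < C ∧ ∀ (Φ : ℂ → ℂ), DifferentiableOn ℂ Φ Hp →
    ∀ (k : Fin (n + 1) → ℤ) (A : ℝ), 0 < A →
    (∀ (ξ : Fin (n + 1) → ℝ) (i : Fin (n + 1)) (η : ℝ), |η| ≤ 1 / 10 →
      ‖Φ (pt ξ i η)‖ ≤ A * (1 + nq (ξ - iz k)) ^ M) → ∀ v : Fin (n + 1) → ℝ,
    ‖Kn (fun ξ => Φ (nq ξ : ℂ) * gf k ξ) v‖ ≤ C * A * Wt v := by
  obtain ⟨C1, hC1, h1⟩ := Kn_bound n M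
  obtain ⟨C2, hC2, h2⟩ := exp_Wt n
  refine ⟨C1 * C2, by positivity, ?_⟩
  intro Φ hΦ k A hA hb v
  have h3 : ∀ i, ‖Kn (fun ξ => Φ (nq ξ : ℂ) * gf k ξ) v‖ ≤
      C1 * A * Real.exp (-(Real.pi / 5 * |v i|)) := by
    intro i
    exact h1 Φ hΦ k A hA.le i (fun ξ η hη => hb ξ i η hη) v
  have h4 := h2 v (‖Kn (fun ξ => Φ (nq ξ : ℂ) * gf k ξ) v‖ / (C1 * A)) (fun i => by
    rw [div_le_iff₀ (by positivity), mul_comm]
    exact h3 i)
  rw [div_le_iff₀ (by positivity)] at h4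
  refine h4.trans (le_of_eq ?_)
  ring

lemma pt_zero (ξ : Fin d → ℝ) (i : Fin d) : pt ξ i 0 = (nq ξ : ℂ) := by
  unfold pt
  simp

lemma ec_deriv' (c t : ℝ) : HasDerivAt (fun t : ℝ => ec (c * t)) (2 * Real.pi * I * c * ec (c * t)) t :=
  ec_deriv c t

/-- the splitting into two components -/
lemma ode_split {s : ℝ} {y z : ℝ → ℂ → ℂ} (hy : Pair s y z) (q : ℝ) (hq : 0 < q) (σ ω : ℝ)
    (hσ : σ * σ = 1) (hω : ω ≠ 0) (t : ℝ) :
    P0 y z σ ω t q = ec (σ * ω * t) * (ec (-(σ * ω) * 1) * P0 y z σ ω 1 q +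
      ∫ r in (1 : ℝ)..t, ec (-(σ * ω) * r) * P1 y σ ω r q) := by
  have hωc : (ω : ℂ) ≠ 0 := by exact_mod_cast hω
  have hpi : (Real.pi : ℂ) ≠ 0 := by exact_mod_cast Real.pi_ne_zero
  have hσc : (σ : ℂ) * σ = 1 := by exact_mod_cast hσ
  have hd : ∀ r : ℝ, HasDerivAt (fun r => ec (-(σ * ω) * r) * P0 y z σ ω r q)
      (ec (-(σ * ω) * r) * P1 y σ ω r q) r := by
    intro r
    obtain ⟨h1, h2⟩ := hy.ode q hq r
    have h3 : HasDerivAt (fun r => P0 y z σ ω r q)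
        (1 / 2 * (z r q + σ * (-(4 * Real.pi ^ 2 * q) * y r q) / (2 * Real.pi * I * ω))) r := by
      unfold P0
      exact (h1.add ((h2.const_mul (σ : ℂ)).div_const _)).const_mul _
    have h4 := (ec_deriv' (-(σ * ω)) r).mul h3
    refine h4.congr_deriv ?_
    unfold P0 P1
    push_cast
    have hI : (I : ℂ) * I = -1 := Complex.I_mul_I
    have hI0 : (I : ℂ) ≠ 0 := Complex.I_ne_zero
    have e1 : (σ : ℂ) * (-(4 * Real.pi ^ 2 * q) * y r q) / (2 * Real.pi * I * ω) =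
        σ * (2 * Real.pi * I * q * y r q) / ω := by
      rw [div_eq_div_iff (by simp [hpi, hωc]) hωc]
      linear_combination (-(4 * (σ : ℂ) * Real.pi ^ 2 * q * y r q * ω)) * hI
    have e2 : 2 * (Real.pi : ℂ) * I * -(σ * ω) * (1 / 2 * (y r q + σ * z r q / (2 * Real.pi * I * ω))) =
        -(Real.pi * I * σ * ω * y r q) - 1 / 2 * z r q := by
      have e3 : 2 * (Real.pi : ℂ) * I * -(σ * ω) * (1 / 2 * (σ * z r q / (2 * Real.pi * I * ω))) =
          -(1 / 2 * (σ * σ) * z r q) := by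
        field_simp
      rw [hσc] at e3
      linear_combination e3
    rw [e1]
    have e4 : 2 * (Real.pi : ℂ) * I * -(σ * ω) * ec (-(σ * ω) * r) *
        (1 / 2 * (y r q + σ * z r q / (2 * Real.pi * I * ω))) =
        ec (-(σ * ω) * r) * (-(Real.pi * I * σ * ω * y r q) - 1 / 2 * z r q) := by
      rw [← e2]
      ring
    rw [e4]
    field_simp
    ring
  have hcont : Continuous fun r : ℝ => ec (-(σ * ω) * r) * P1 y σ ω r q := by
    have h1 : Continuous fun r : ℝ => y r q :=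
      continuous_iff_continuousAt.mpr fun r => (hy.ode q hq r).1.continuousAt
    have h2 : Continuous fun r : ℝ => ec (-(σ * ω) * r) := ec_cont.comp (by fun_prop)
    unfold P1
    fun_prop
  rw [intervalIntegral.integral_eq_sub_of_hasDerivAt (fun r _ => hd r) (hcont.intervalIntegrable _ _)]
  have h5 : ec (σ * ω * t) * ec (-(σ * ω) * t) = 1 := by
    rw [← ec_add]
    have : σ * ω * t + -(σ * ω) * t = 0 := by ring
    rw [this, ec_zero]
  linear_combination (-(P0 y z σ ω t q)) * h5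

lemma P_meas {s : ℝ} {y z : ℝ → ℂ → ℂ} (hy : Pair s y z) (σ ω : ℝ) :
    (Measurable fun q : ℝ × ℂ => P0 y z σ ω q.1 q.2) ∧
    Measurable fun q : ℝ × ℂ => P1 y σ ω q.1 q.2 := by
  have h1 := hy.my
  have h2 := hy.mz
  constructor
  · unfold P0
    exact (h1.add ((h2.const_mul _).div_const _)).const_mul _
  · unfold P1
    refine Measurable.mul ?_ h1
    fun_prop

lemma nqc_meas : Measurable fun ξ : Fin d → ℝ => ((nq ξ : ℝ) : ℂ) :=
  Complex.measurable_ofReal.comp nq_cont.measurable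

/-- the kernels of the two parts -/
noncomputable def K0 (y z : ℝ → ℂ → ℂ) (σ ω : ℝ) (k : Fin d → ℤ) (v : Fin d → ℝ) : ℂ :=
  ec (-(σ * ω) * 1) * Kn (fun ξ => P0 y z σ ω 1 (nq ξ) * gf k ξ) v
noncomputable def K1 (y : ℝ → ℂ → ℂ) (σ ω : ℝ) (k : Fin d → ℤ) (q : ℝ × (Fin d → ℝ)) : ℂ :=
  ec (-(σ * ω) * q.1) * Kn (fun ξ => P1 y σ ω q.1 (nq ξ) * gf k ξ) q.2

section
attribute [local irreducible] P0 P1 nq

lemma P0_nq {X : Type*} [MeasurableSpace X] {s : ℝ} {y z : ℝ → ℂ → ℂ} (hy : Pair s y z) (σ ω : ℝ)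
    {a : X → ℝ} {b : X → Fin d → ℝ} (ha : Measurable a) (hb : Measurable b) :
    Measurable fun r => P0 y z σ ω (a r) (nq (b r) : ℂ) := by
  have h1 : Measurable fun r => ((a r, ((nq (b r) : ℝ) : ℂ)) : ℝ × ℂ) := ha.prodMk (nqc_meas.comp hb)
  have h2 := (P_meas hy σ ω).1
  exact h2.comp h1

lemma P1_nq {X : Type*} [MeasurableSpace X] {s : ℝ} {y z : ℝ → ℂ → ℂ} (hy : Pair s y z) (σ ω : ℝ)
    {a : X → ℝ} {b : X → Fin d → ℝ} (ha : Measurable a) (hb : Measurable b) :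
    Measurable fun r => P1 y σ ω (a r) (nq (b r) : ℂ) := by
  have h1 : Measurable fun r => ((a r, ((nq (b r) : ℝ) : ℂ)) : ℝ × ℂ) := ha.prodMk (nqc_meas.comp hb)
  have h2 := (P_meas hy σ ω).2
  exact h2.comp h1

end

lemma ecdt_meas {X : Type*} [MeasurableSpace X] {a b : X → Fin d → ℝ} (ha : Measurable a)
    (hb : Measurable b) : Measurable fun r => ec (dt (a r) (b r)) := by
  have h1 : Measurable fun r => ((a r, b r) : (Fin d → ℝ) × (Fin d → ℝ)) := ha.prodMk hb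
  have h2 : Measurable fun w : (Fin d → ℝ) × (Fin d → ℝ) => ec (dt w.1 w.2) :=
    (ec_cont.comp dt_cont2).measurable
  exact h2.comp h1

lemma gfc_meas {X : Type*} [MeasurableSpace X] (k : Fin d → ℤ) {b : X → Fin d → ℝ}
    (hb : Measurable b) : Measurable fun r => ((gf k (b r) : ℝ) : ℂ) :=
  Complex.measurable_ofReal.comp ((gf_cont k).measurable.comp hb)

lemma K1_meas {s : ℝ} {y z : ℝ → ℂ → ℂ} (hy : Pair s y z) (σ ω : ℝ) (k : Fin d → ℤ) :
    Measurable (K1 y σ ω k) := by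
  have h : Measurable fun r : (ℝ × (Fin d → ℝ)) × (Fin d → ℝ) =>
      ec (dt r.1.2 r.2) * (P1 y σ ω r.1.1 (nq r.2) * gf k r.2) :=
    (ecdt_meas (by fun_prop) (by fun_prop)).mul
      ((P1_nq hy σ ω (by fun_prop) (by fun_prop)).mul (gfc_meas k (by fun_prop)))
  have h2 := h.stronglyMeasurable.integral_prod_right' (ν := (volume : Measure (Fin d → ℝ)))
  have h3 : Measurable fun q : ℝ × (Fin d → ℝ) => ec (-(σ * ω) * q.1) :=
    ec_cont.measurable.comp (by fun_prop)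
  exact h3.mul h2.measurable

lemma K0_meas {s : ℝ} {y z : ℝ → ℂ → ℂ} (hy : Pair s y z) (σ ω : ℝ) (k : Fin d → ℤ) :
    Measurable (K0 y z σ ω k) := by
  have h : Measurable fun r : (Fin d → ℝ) × (Fin d → ℝ) =>
      ec (dt r.1 r.2) * (P0 y z σ ω 1 (nq r.2) * gf k r.2) :=
    (ecdt_meas (by fun_prop) (by fun_prop)).mul
      ((P0_nq hy σ ω (by fun_prop) (by fun_prop)).mul (gfc_meas k (by fun_prop)))
  have h2 := h.stronglyMeasurable.integral_prod_right' (ν := (volume : Measure (Fin d → ℝ)))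
  exact measurable_const.mul h2.measurable

/-- a piece of the solution -/
noncomputable def U (y : ℝ → ℂ → ℂ) (f : (Fin d → ℝ) → ℂ) (k : Fin d → ℤ) (t : ℝ)
    (x : Fin d → ℝ) : ℂ := ∫ ξ, ec (dt x ξ) * (y t (nq ξ) * ((BB k ξ : ℂ) * ft f ξ))

/-- one component of a piece -/
noncomputable def V (y z : ℝ → ℂ → ℂ) (f : (Fin d → ℝ) → ℂ) (σ ω : ℝ) (k : Fin d → ℤ) (t : ℝ)
    (x : Fin d → ℝ) : ℂ := ∫ ξ, ec (dt x ξ) * (P0 y z σ ω t (nq ξ) * ((BB k ξ : ℂ) * ft f ξ))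

lemma BBft_norm {f : (Fin d → ℝ) → ℂ} (hf : Integrable f) (k : Fin d → ℤ) {N : (Fin d → ℝ) → ℂ}
    {A : ℝ} (hA : 0 ≤ A) {M : ℕ} (hb : ∀ ξ, ‖N ξ‖ ≤ A * (1 + nq (ξ - iz k)) ^ M) (x ξ : Fin d → ℝ) :
    ‖ec (dt x ξ) * (N ξ * ((BB k ξ : ℂ) * ft f ξ))‖ ≤
      A * (M.factorial * Real.exp 1) * (∫ x, ‖hk f k x‖) * gs (ξ - iz k) := by
  rw [norm_mul, ec_norm, one_mul, BB_ft hf, ← mul_assoc, norm_mul]
  have h1 := N_norm hA hb ξ
  have h2 := ft_bd (hk f k) ξ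
  calc ‖N ξ * gf k ξ‖ * ‖ft (hk f k) ξ‖ ≤
      (A * (M.factorial * Real.exp 1) * gs (ξ - iz k)) * ∫ x, ‖hk f k x‖ := by
        refine mul_le_mul h1 h2 (norm_nonneg _) ?_
        have : 0 ≤ gs (ξ - iz k) := (Real.exp_pos _).le
        positivity
    _ = _ := by ring

lemma BB_cont (k : Fin d → ℤ) : Continuous (BB k) := by
  have h1 : Continuous (SB w0 : (Fin d → ℝ) → ℝ) := by
    unfold SB w0
    apply continuous_finsetProd
    intro i _
    exact (b1_cont.comp (continuous_apply i)).mul continuous_const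
  unfold BB
  exact (h1.comp (by fun_prop)).mul (h1.comp (by fun_prop))

lemma BBft_int {f : (Fin d → ℝ) → ℂ} (hf : Integrable f) (k : Fin d → ℤ) {N : (Fin d → ℝ) → ℂ}
    (hm : Measurable N) {A : ℝ} (hA : 0 ≤ A) {M : ℕ}
    (hb : ∀ ξ, ‖N ξ‖ ≤ A * (1 + nq (ξ - iz k)) ^ M) (x : Fin d → ℝ) :
    Integrable fun ξ => ec (dt x ξ) * (N ξ * ((BB k ξ : ℂ) * ft f ξ)) := by
  refine ((gs_int.comp_sub_right (iz k)).const_mul
    (A * (M.factorial * Real.exp 1) * (∫ x, ‖hk f k x‖))).mono' ?_ ?_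
  · refine Measurable.aestronglyMeasurable ?_
    have g1 : Measurable fun ξ : Fin d → ℝ => ec (dt x ξ) := ecdt_meas measurable_const measurable_id
    have g3 : Measurable fun ξ : Fin d → ℝ => ((BB k ξ : ℝ) : ℂ) :=
      Complex.measurable_ofReal.comp (BB_cont k).measurable
    exact g1.mul (hm.mul (g3.mul (ft_cont hf).measurable))
  · filter_upwards with ξ
    exact BBft_norm hf k hA hb x ξ

/-- **the representation** -/
lemma repV {s : ℝ} {y z : ℝ → ℂ → ℂ} (hy : Pair s y z) {f : (Fin (d + 1) → ℝ) → ℂ}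
    (hf : Integrable f) (k : Fin (d + 1) → ℤ) (σ ω : ℝ) (hσ : σ * σ = 1) (hω : ω ≠ 0) {A : ℝ}
    (hA : 0 ≤ A) {M : ℕ} (hb0 : ∀ t : ℝ, 1 ≤ t → t ≤ 2 → ∀ ξ : Fin (d + 1) → ℝ,
      ‖P0 y z σ ω t (nq ξ)‖ ≤ A * (1 + nq (ξ - iz k)) ^ M)
    (hb1 : ∀ t : ℝ, 1 ≤ t → t ≤ 2 → ∀ ξ : Fin (d + 1) → ℝ,
      ‖P1 y σ ω t (nq ξ)‖ ≤ A * (1 + nq (ξ - iz k)) ^ M) (t : ℝ) (ht1 : 1 ≤ t) (ht2 : t ≤ 2)
    (x : Fin (d + 1) → ℝ) : V y z f σ ω k t x =
      (∫ v, K0 y z σ ω k v * ec (σ * ω * t) * hk f k (x - v)) +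
      ∫ r in Ioc 1 t, ∫ v, K1 y σ ω k (r, v) * ec (σ * ω * t) * hk f k (x - v) := by
  have hm0 : ∀ r : ℝ, Measurable fun ξ : Fin (d + 1) → ℝ => P0 y z σ ω r (nq ξ) := fun r =>
    P0_nq hy σ ω measurable_const measurable_id
  have hm1 : ∀ r : ℝ, Measurable fun ξ : Fin (d + 1) → ℝ => P1 y σ ω r (nq ξ) := fun r =>
    P1_nq hy σ ω measurable_const measurable_id
  obtain ⟨F1, hF1⟩ : ∃ F1 : ℝ → (Fin (d + 1) → ℝ) → ℂ, F1 = fun r ξ =>
    ec (dt x ξ) * (P1 y σ ω r (nq ξ) * ((BB k ξ : ℂ) * ft f ξ)) := ⟨_, rfl⟩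
  obtain ⟨F0, hF0⟩ : ∃ F0 : (Fin (d + 1) → ℝ) → ℂ, F0 = fun ξ =>
    ec (dt x ξ) * (P0 y z σ ω 1 (nq ξ) * ((BB k ξ : ℂ) * ft f ξ)) := ⟨_, rfl⟩
  have hae : ∀ᵐ ξ : Fin (d + 1) → ℝ, 0 < nq ξ := by
    have h1 : ∀ᵐ ξ : Fin (d + 1) → ℝ, ξ ≠ 0 := by
      rw [ae_iff]
      simp
    filter_upwards [h1] with ξ hξ
    have h2 := nq_nonneg ξ
    rcases h2.lt_or_eq with h | h
    · exact h
    · exfalso
      apply hξ
      ext i
      have h3 : ξ i ^ 2 ≤ nq ξ := Finset.single_le_sum (f := fun i => ξ i ^ 2)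
        (fun i _ => sq_nonneg _) (Finset.mem_univ i)
      rw [← h] at h3
      have h4 : ξ i ^ 2 = 0 := le_antisymm h3 (sq_nonneg _)
      simpa using h4
  have hprod : Integrable (Function.uncurry fun (ξ : Fin (d + 1) → ℝ) (r : ℝ) =>
      ec (-(σ * ω) * r) * F1 r ξ) (volume.prod (volume.restrict (Ioc 1 t))) := by
    have hfin : IsFiniteMeasure (volume.restrict (Ioc (1 : ℝ) t)) := by
      refine ⟨?_⟩
      rw [Measure.restrict_apply_univ, Real.volume_Ioc]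
      exact ENNReal.ofReal_lt_top
    have h1 : Integrable (fun q : (Fin (d + 1) → ℝ) × ℝ =>
        A * (M.factorial * Real.exp 1) * (∫ x, ‖hk f k x‖) * gs (q.1 - iz k) * 1)
        (volume.prod (volume.restrict (Ioc 1 t))) :=
      ((gs_int.comp_sub_right (iz k)).const_mul
        (A * (M.factorial * Real.exp 1) * (∫ x, ‖hk f k x‖))).mul_prod (integrable_const (1 : ℝ))
    refine h1.mono' ?_ ?_
    · refine Measurable.aestronglyMeasurable ?_
      have hmF : Measurable fun q : (Fin (d + 1) → ℝ) × ℝ => F1 q.2 q.1 := by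
        rw [hF1]
        have g1 : Measurable fun q : (Fin (d + 1) → ℝ) × ℝ => ec (dt x q.1) :=
          ecdt_meas measurable_const measurable_fst
        have g2 : Measurable fun q : (Fin (d + 1) → ℝ) × ℝ => P1 y σ ω q.2 (nq q.1) :=
          P1_nq hy σ ω measurable_snd measurable_fst
        have g3 : Measurable fun q : (Fin (d + 1) → ℝ) × ℝ => ((BB k q.1 : ℝ) : ℂ) :=
          Complex.measurable_ofReal.comp ((BB_cont k).measurable.comp measurable_fst)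
        have g4 : Measurable fun q : (Fin (d + 1) → ℝ) × ℝ => ft f q.1 :=
          (ft_cont hf).measurable.comp measurable_fst
        exact g1.mul (g2.mul (g3.mul g4))
      have g5 : Measurable fun q : (Fin (d + 1) → ℝ) × ℝ => ec (-(σ * ω) * q.2) :=
        ec_cont.measurable.comp (by fun_prop)
      exact g5.mul hmF
    · have h2 : ∀ᵐ q : (Fin (d + 1) → ℝ) × ℝ ∂(volume.prod (volume.restrict (Ioc 1 t))),
          q.2 ∈ Ioc 1 t := by
        have h3 : ∀ᵐ r : ℝ ∂(volume.restrict (Ioc 1 t)), r ∈ Ioc 1 t :=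
          ae_restrict_mem measurableSet_Ioc
        exact Measure.quasiMeasurePreserving_snd.ae h3
      filter_upwards [h2] with q hq
      simp only [Function.uncurry]
      rw [norm_mul, ec_norm, one_mul, mul_one, hF1]
      exact BBft_norm hf k hA (hb1 q.2 hq.1.le (hq.2.trans ht2)) x q.1
  have hF0i : Integrable F0 := by
    rw [hF0]
    exact BBft_int hf k (hm0 1) hA (hb0 1 le_rfl (by norm_num)) x
  have e1 : V y z f σ ω k t x = ∫ ξ, ec (σ * ω * t) * (ec (-(σ * ω) * 1) * F0 ξ +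
      ∫ r in Ioc 1 t, ec (-(σ * ω) * r) * F1 r ξ) := by
    unfold V
    apply integral_congr_ae
    filter_upwards [hae] with ξ hξ
    rw [ode_split hy (nq ξ) hξ σ ω hσ hω t, intervalIntegral.integral_of_le ht1, hF0, hF1]
    simp only
    have e2 : ∫ r in Ioc 1 t, ec (-(σ * ω) * r) * (ec (dt x ξ) * (P1 y σ ω r (nq ξ) *
        ((BB k ξ : ℂ) * ft f ξ))) = (ec (dt x ξ) * ((BB k ξ : ℂ) * ft f ξ)) *
        ∫ r in Ioc 1 t, ec (-(σ * ω) * r) * P1 y σ ω r (nq ξ) := by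
      rw [← integral_const_mul]
      congr 1
      ext r
      ring
    rw [e2]
    ring
  have e3 : ∫ ξ, ec (σ * ω * t) * (ec (-(σ * ω) * 1) * F0 ξ +
      ∫ r in Ioc 1 t, ec (-(σ * ω) * r) * F1 r ξ) =
      ec (σ * ω * t) * (ec (-(σ * ω) * 1) * (∫ ξ, F0 ξ) +
        ∫ r in Ioc 1 t, ec (-(σ * ω) * r) * ∫ ξ, F1 r ξ) := by
    have i1 : Integrable fun ξ => ∫ r in Ioc 1 t, ec (-(σ * ω) * r) * F1 r ξ :=
      hprod.integral_prod_left
    rw [integral_const_mul, integral_add (hF0i.const_mul _) i1,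
      integral_const_mul, integral_integral_swap hprod]
    simp only [integral_const_mul]
  rw [e1, e3, mul_add]
  congr 1
  · rw [hF0, piece hf (hm0 1) hA (hb0 1 le_rfl (by norm_num)), ← integral_const_mul,
      ← integral_const_mul]
    congr 1
    ext v
    unfold K0
    ring
  · rw [← integral_const_mul]
    apply setIntegral_congr_fun measurableSet_Ioc
    intro r hr
    simp only
    rw [hF1]
    simp only
    rw [piece hf (hm1 r) hA (hb1 r hr.1.le (hr.2.trans ht2)), ← integral_const_mul,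
      ← integral_const_mul]
    congr 1
    ext v
    unfold K1
    ring

lemma U_eq {s : ℝ} {y z : ℝ → ℂ → ℂ} (hy : Pair s y z) {f : (Fin (d + 1) → ℝ) → ℂ}
    (hf : Integrable f) (k : Fin (d + 1) → ℤ) (ω : ℝ) {A : ℝ} (hA : 0 ≤ A) {M : ℕ} (t : ℝ)
    (hb : ∀ σ : ℝ, |σ| ≤ 1 → ∀ ξ : Fin (d + 1) → ℝ,
      ‖P0 y z σ ω t (nq ξ)‖ ≤ A * (1 + nq (ξ - iz k)) ^ M) (x : Fin (d + 1) → ℝ) :
    U y f k t x = V y z f 1 ω k t x + V y z f (-1) ω k t x := by
  have hm0 : ∀ σ : ℝ, Measurable fun ξ : Fin (d + 1) → ℝ => P0 y z σ ω t (nq ξ) := fun σ =>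
    P0_nq hy σ ω measurable_const measurable_id
  unfold V U
  rw [← integral_add (BBft_int hf k (hm0 1) hA (hb 1 (by norm_num)) x)
    (BBft_int hf k (hm0 (-1)) hA (hb (-1) (by norm_num)) x)]
  congr 1
  ext ξ
  unfold P0
  push_cast
  ring

end Pool.Agent.Q89.WS
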