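import Pool.Agent.Q89.WS.H
set_option autoImplicit false

/-! The estimate for finitely many cells. -/

namespace Pool.Agent.Q89.WS

open MeasureTheory Set Complex Filter Topology
open scoped ENNReal NNReal
open Pool.Agent.Y183.LS (ec ec_norm ec_enorm ec_add ec_cont ec_zero ec_sum dt dt_add dt_comm dt_cont
  dt_cont2 iz dt_add_left HC HC_meas tri tri_cont parseval_unit)

variable {d : ℕ}

lemma superp_meas {S : Finset (Fin d → ℤ)}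
    {E : (Fin d → ℤ) → ℝ → ℂ} (hE : ∀ k, Measurable (E k)) {f : (Fin d → ℝ) → ℂ} (hf : Integrable f)
    {X : Type*} [MeasurableSpace X] (μ : Measure X) [SFinite μ]
    (K : (Fin d → ℤ) → X → ℂ) (hK : ∀ k, Measurable (K k)) (τ : X → Fin d → ℝ)
    (hτ : Measurable τ) :
    Measurable fun q : ℝ × (Fin d → ℝ) =>
      ∫⁻ ξ, ‖∑ k ∈ S, K k ξ * E k q.1 * hk f k (q.2 - τ ξ)‖ₑ ∂μ := by
  have hhm : ∀ k, Measurable (hk f k) := fun k => (hk_cont hf k).measurable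
  have h : Measurable fun r : (ℝ × (Fin d → ℝ)) × X =>
      ‖∑ k ∈ S, K k r.2 * E k r.1.1 * hk f k (r.1.2 - τ r.2)‖ₑ := by
    apply Measurable.enorm
    apply Finset.measurable_sum
    intro k _
    have g1 : Measurable fun r : (ℝ × (Fin d → ℝ)) × X => K k r.2 := (hK k).comp measurable_snd
    have g2 : Measurable fun r : (ℝ × (Fin d → ℝ)) × X => E k r.1.1 :=
      (hE k).comp (measurable_fst.comp measurable_fst)
    have g3 : Measurable fun r : (ℝ × (Fin d → ℝ)) × X => r.1.2 - τ r.2 :=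
      (measurable_snd.comp measurable_fst).sub (hτ.comp measurable_snd)
    exact (g1.mul g2).mul ((hhm k).comp g3)
  exact h.lintegral_prod_right'

lemma Wt_lint (d : ℕ) : ∃ C : ℝ≥0, ∫⁻ v : Fin d → ℝ, ENNReal.ofReal (Wt v) ≤ C := by
  have h := (Wt_int (d := d)).2
  unfold HasFiniteIntegral at h
  refine ⟨(∫⁻ v : Fin d → ℝ, ENNReal.ofReal (Wt v)).toNNReal, ?_⟩
  rw [ENNReal.coe_toNNReal]
  refine ne_of_lt (lt_of_le_of_lt (le_of_eq ?_) h)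
  congr 1
  ext v
  rw [← ofReal_norm, Real.norm_of_nonneg (Wt_pos v).le]

lemma four_rpow (a b c e : ℝ≥0∞) (p : ℝ) (hp : 1 ≤ p) :
    ((a + b) + (c + e)) ^ p ≤ 2 ^ (p - 1) * (2 ^ (p - 1) * (a ^ p + b ^ p) +
      2 ^ (p - 1) * (c ^ p + e ^ p)) := by
  refine (ENNReal.rpow_add_le_mul_rpow_add_rpow _ _ hp).trans ?_
  gcongr
  · exact ENNReal.rpow_add_le_mul_rpow_add_rpow _ _ hp
  · exact ENNReal.rpow_add_le_mul_rpow_add_rpow _ _ hp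

/-- the kernel of the second part, cut off in time -/
noncomputable def K1c (y : ℝ → ℂ → ℂ) (σ ω : ℝ) (k : Fin d → ℤ) (q : ℝ × (Fin d → ℝ)) : ℂ :=
  (Icc (1 : ℝ) 2 ×ˢ (univ : Set (Fin d → ℝ))).indicator (K1 y σ ω k) q

/-- the total of one component -/
lemma comp_bd {s : ℝ} {y z : ℝ → ℂ → ℂ} (hy : Pair s y z) {f : (Fin (d + 1) → ℝ) → ℂ}
    (hf : Integrable f) (S : Finset (Fin (d + 1) → ℤ)) (ω : (Fin (d + 1) → ℤ) → ℝ) (σ : ℝ)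
    (hσ : σ * σ = 1) (hω : ∀ k ∈ S, ω k ≠ 0) {B : ℝ} (hB : 0 ≤ B)
    (hK0 : ∀ k ∈ S, ∀ v, ‖K0 y z σ (ω k) k v‖ ≤ B * Wt v)
    (hK1 : ∀ k ∈ S, ∀ r : ℝ, 1 ≤ r → r ≤ 2 → ∀ v, ‖K1 y σ (ω k) k (r, v)‖ ≤ B * Wt v)
    {A : ℝ} (hA : 0 ≤ A) {M : ℕ} (hb0 : ∀ k ∈ S, ∀ t : ℝ, 1 ≤ t → t ≤ 2 → ∀ ξ : Fin (d + 1) → ℝ,
      ‖P0 y z σ (ω k) t (nq ξ)‖ ≤ A * (1 + nq (ξ - iz k)) ^ M)
    (hb1 : ∀ k ∈ S, ∀ t : ℝ, 1 ≤ t → t ≤ 2 → ∀ ξ : Fin (d + 1) → ℝ,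
      ‖P1 y σ (ω k) t (nq ξ)‖ ≤ A * (1 + nq (ξ - iz k)) ^ M) (t : ℝ) (ht1 : 1 ≤ t) (ht2 : t ≤ 2)
    (x : Fin (d + 1) → ℝ) :
    ‖∑ k ∈ S, V y z f σ (ω k) k t x‖ₑ ≤
      (∫⁻ v, ‖∑ k ∈ S, K0 y z σ (ω k) k v * ec (σ * ω k * t) * hk f k (x - v)‖ₑ) +
      ∫⁻ q, ‖∑ k ∈ S, K1c y σ (ω k) k q * ec (σ * ω k * t) * hk f k (x - q.2)‖ₑ
        ∂((volume.restrict (Icc (1 : ℝ) 2)).prod volume) := by
  have hfin : IsFiniteMeasure (volume.restrict (Ioc (1 : ℝ) t)) := by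
    refine ⟨?_⟩
    rw [Measure.restrict_apply_univ, Real.volume_Ioc]
    exact ENNReal.ofReal_lt_top
  have hhx : ∀ k, Integrable fun v => hk f k (x - v) := fun k => (hk_int hf k).comp_sub_left x
  have hhm : ∀ k, Measurable (hk f k) := fun k => (hk_cont hf k).measurable
  have i0 : ∀ k ∈ S, Integrable fun v => K0 y z σ (ω k) k v * ec (σ * ω k * t) * hk f k (x - v) := by
    intro k hkS
    refine ((hhx k).norm.const_mul B).mono' ?_ ?_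
    · exact (((K0_meas hy σ (ω k) k).mul measurable_const).mul
        ((hhm k).comp (by fun_prop))).aestronglyMeasurable
    · filter_upwards with v
      rw [norm_mul, norm_mul, ec_norm, mul_one]
      refine mul_le_mul_of_nonneg_right ((hK0 k hkS v).trans ?_) (norm_nonneg _)
      have := Wt_le v
      nlinarith
  have m1 : ∀ k, Measurable fun q : ℝ × (Fin (d + 1) → ℝ) =>
      K1 y σ (ω k) k q * ec (σ * ω k * t) * hk f k (x - q.2) := by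
    intro k
    have g1 : Measurable fun q : ℝ × (Fin (d + 1) → ℝ) => hk f k (x - q.2) :=
      (hhm k).comp (measurable_const.sub measurable_snd)
    exact ((K1_meas hy σ (ω k) k).mul measurable_const).mul g1
  have i1 : ∀ k ∈ S, Integrable (fun q : ℝ × (Fin (d + 1) → ℝ) =>
      K1 y σ (ω k) k q * ec (σ * ω k * t) * hk f k (x - q.2))
      ((volume.restrict (Ioc 1 t)).prod volume) := by
    intro k hkS
    have h1 : Integrable (fun q : ℝ × (Fin (d + 1) → ℝ) => B * ‖hk f k (x - q.2)‖)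
        ((volume.restrict (Ioc 1 t)).prod volume) :=
      (integrable_const B).mul_prod (hhx k).norm
    refine h1.mono' (m1 k).aestronglyMeasurable ?_
    have h2 : ∀ᵐ q : ℝ × (Fin (d + 1) → ℝ) ∂((volume.restrict (Ioc 1 t)).prod volume),
        q.1 ∈ Ioc 1 t := by
      have h3 : ∀ᵐ r : ℝ ∂(volume.restrict (Ioc 1 t)), r ∈ Ioc 1 t :=
        ae_restrict_mem measurableSet_Ioc
      exact Measure.quasiMeasurePreserving_fst.ae h3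
    filter_upwards [h2] with q hq
    rw [norm_mul, norm_mul, ec_norm, mul_one]
    refine mul_le_mul_of_nonneg_right ((hK1 k hkS q.1 hq.1.le (hq.2.trans ht2) q.2).trans ?_)
      (norm_nonneg _)
    have := Wt_le q.2
    nlinarith
  have e1 : ∑ k ∈ S, V y z f σ (ω k) k t x =
      (∫ v, ∑ k ∈ S, K0 y z σ (ω k) k v * ec (σ * ω k * t) * hk f k (x - v)) +
      ∫ q, ∑ k ∈ S, K1 y σ (ω k) k q * ec (σ * ω k * t) * hk f k (x - q.2)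
        ∂((volume.restrict (Ioc 1 t)).prod volume) := by
    rw [integral_finsetSum _ i0, integral_finsetSum _ i1, ← Finset.sum_add_distrib]
    apply Finset.sum_congr rfl
    intro k hk
    rw [repV hy hf k σ (ω k) hσ (hω k hk) hA (hb0 k hk) (hb1 k hk) t ht1 ht2 x,
      integral_prod _ (i1 k hk)]
  rw [e1]
  refine (enorm_add_le _ _).trans (add_le_add (enorm_integral_le_lintegral_enorm _) ?_)
  refine (enorm_integral_le_lintegral_enorm _).trans ?_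
  have m2 : Measurable fun q : ℝ × (Fin (d + 1) → ℝ) =>
      ‖∑ k ∈ S, K1 y σ (ω k) k q * ec (σ * ω k * t) * hk f k (x - q.2)‖ₑ := by
    apply Measurable.enorm
    apply Finset.measurable_sum
    intro k _
    exact m1 k
  have m3 : Measurable fun q : ℝ × (Fin (d + 1) → ℝ) =>
      ‖∑ k ∈ S, K1c y σ (ω k) k q * ec (σ * ω k * t) * hk f k (x - q.2)‖ₑ := by
    apply Measurable.enorm
    apply Finset.measurable_sum
    intro k _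
    have g1 : Measurable fun q : ℝ × (Fin (d + 1) → ℝ) => hk f k (x - q.2) :=
      (hhm k).comp (measurable_const.sub measurable_snd)
    have g2 : Measurable (K1c y σ (ω k) k : ℝ × (Fin (d + 1) → ℝ) → ℂ) :=
      (K1_meas hy σ (ω k) k).indicator (measurableSet_Icc.prod MeasurableSet.univ)
    exact (g2.mul measurable_const).mul g1
  rw [lintegral_prod _ m2.aemeasurable, lintegral_prod _ m3.aemeasurable]
  calc ∫⁻ r in Ioc 1 t, ∫⁻ v, ‖∑ k ∈ S, K1 y σ (ω k) k (r, v) * ec (σ * ω k * t) *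
      hk f k (x - v)‖ₑ = ∫⁻ r in Ioc 1 t, ∫⁻ v, ‖∑ k ∈ S, K1c y σ (ω k) k (r, v) *
        ec (σ * ω k * t) * hk f k (x - v)‖ₑ := by
        apply setLIntegral_congr_fun measurableSet_Ioc
        intro r hr
        simp only
        congr 1
        ext v
        congr 1
        apply Finset.sum_congr rfl
        intro k _
        unfold K1c
        rw [indicator_of_mem]
        exact ⟨⟨hr.1.le, hr.2.trans ht2⟩, mem_univ _⟩
    _ ≤ _ := by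
        apply lintegral_mono_set
        intro r hr
        exact ⟨hr.1.le, hr.2.trans ht2⟩

lemma K0_norm (y z : ℝ → ℂ → ℂ) (σ ω : ℝ) (k : Fin d → ℤ) (v : Fin d → ℝ) :
    ‖K0 y z σ ω k v‖ = ‖Kn (fun ξ => P0 y z σ ω 1 (nq ξ) * gf k ξ) v‖ := by
  unfold K0
  rw [norm_mul, ec_norm, one_mul]

lemma K1_norm (y : ℝ → ℂ → ℂ) (σ ω : ℝ) (k : Fin d → ℤ) (r : ℝ) (v : Fin d → ℝ) :
    ‖K1 y σ ω k (r, v)‖ = ‖Kn (fun ξ => P1 y σ ω r (nq ξ) * gf k ξ) v‖ := by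
  unfold K1
  rw [norm_mul, ec_norm, one_mul]

lemma P0_diff {s : ℝ} {y z : ℝ → ℂ → ℂ} (hy : Pair s y z) (σ ω : ℝ) :
    DifferentiableOn ℂ (P0 y z σ ω 1) Hp := by
  unfold P0
  exact ((hy.dy 1).add (((hy.dz 1).const_mul _).div_const _)).const_mul _

lemma P1_diff {s : ℝ} {y z : ℝ → ℂ → ℂ} (hy : Pair s y z) (σ ω t : ℝ) :
    DifferentiableOn ℂ (P1 y σ ω t) Hp := by
  unfold P1
  exact DifferentiableOn.mul (by fun_prop) (hy.dy t)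

/-- majorants -/
noncomputable def A0 (y z : ℝ → ℂ → ℂ) (S : Finset (Fin d → ℤ)) (ω : (Fin d → ℤ) → ℝ) (σ : ℝ)
    (f : (Fin d → ℝ) → ℂ) (t : ℝ) (x : Fin d → ℝ) : ℝ≥0∞ :=
  ∫⁻ v, ‖∑ k ∈ S, K0 y z σ (ω k) k v * ec (σ * ω k * t) * hk f k (x - v)‖ₑ

noncomputable def A1 (y : ℝ → ℂ → ℂ) (S : Finset (Fin d → ℤ)) (ω : (Fin d → ℤ) → ℝ) (σ : ℝ)
    (f : (Fin d → ℝ) → ℂ) (t : ℝ) (x : Fin d → ℝ) : ℝ≥0∞ :=
  ∫⁻ q, ‖∑ k ∈ S, K1c y σ (ω k) k q * ec (σ * ω k * t) * hk f k (x - q.2)‖ₑ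
    ∂((volume.restrict (Icc (1 : ℝ) 2)).prod volume)

lemma K1c_meas {s : ℝ} {y z : ℝ → ℂ → ℂ} (hy : Pair s y z) (σ ω : ℝ) (k : Fin d → ℤ) :
    Measurable (K1c y σ ω k) :=
  (K1_meas hy σ ω k).indicator (measurableSet_Icc.prod MeasurableSet.univ)

lemma ecE_meas (σ : ℝ) (ω : (Fin d → ℤ) → ℝ) (k : Fin d → ℤ) :
    Measurable fun t : ℝ => ec (σ * ω k * t) := (ec_cont.comp (by fun_prop)).measurable

lemma A0_meas {s : ℝ} {y z : ℝ → ℂ → ℂ} (hy : Pair s y z) (S : Finset (Fin d → ℤ))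
    (ω : (Fin d → ℤ) → ℝ) (σ : ℝ) {f : (Fin d → ℝ) → ℂ} (hf : Integrable f) :
    Measurable fun q : ℝ × (Fin d → ℝ) => A0 y z S ω σ f q.1 q.2 := by
  have h := superp_meas (S := S) (E := fun k t => ec (σ * ω k * t)) (ecE_meas σ ω) hf
    (volume : Measure (Fin d → ℝ)) (fun k => K0 y z σ (ω k) k) (fun k => K0_meas hy σ (ω k) k)
    (fun v => v) measurable_id
  unfold A0
  exact h

lemma A1_meas {s : ℝ} {y z : ℝ → ℂ → ℂ} (hy : Pair s y z) (S : Finset (Fin d → ℤ))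
    (ω : (Fin d → ℤ) → ℝ) (σ : ℝ) {f : (Fin d → ℝ) → ℂ} (hf : Integrable f) :
    Measurable fun q : ℝ × (Fin d → ℝ) => A1 y S ω σ f q.1 q.2 := by
  have h := superp_meas (S := S) (E := fun k t => ec (σ * ω k * t)) (ecE_meas σ ω) hf
    ((volume.restrict (Icc (1 : ℝ) 2)).prod (volume : Measure (Fin d → ℝ)))
    (fun k => K1c y σ (ω k) k) (fun k => K1c_meas hy σ (ω k) k)
    (fun q => q.2) measurable_snd
  unfold A1
  exact h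

lemma eN {B : ℝ} (hB : 0 ≤ B) (c : ℂ) (v : Fin d → ℝ) (hc : ‖c‖ ≤ B * Wt v) :
    ‖c‖ₑ ≤ ENNReal.ofReal B * ENNReal.ofReal (Wt v) := by
  rw [← ENNReal.ofReal_mul hB, ← ofReal_norm]
  exact ENNReal.ofReal_le_ofReal hc

lemma A0_bd {s p : ℝ} (hp : 1 ≤ p) {y z : ℝ → ℂ → ℂ} (hy : Pair s y z) (S : Finset (Fin d → ℤ))
    (ω : (Fin d → ℤ) → ℝ) (σ : ℝ) {f : (Fin d → ℝ) → ℂ} (hf : Integrable f) {B : ℝ} (hB : 0 ≤ B)
    (hK0 : ∀ k ∈ S, ∀ v, ‖K0 y z σ (ω k) k v‖ ≤ B * Wt v) {Q : ℝ≥0∞}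
    (hQ : ∀ a : (Fin d → ℤ) → ℂ, (∀ k ∈ S, ‖a k‖ₑ ≤ ENNReal.ofReal B) →
      ∫⁻ t in Icc (1 : ℝ) 2, (∫⁻ x, ‖∑ k ∈ S, a k * ec (σ * ω k * t) * hk f k x‖ₑ ^ p) ≤ Q) :
    ∫⁻ t in Icc (1 : ℝ) 2, (∫⁻ x, A0 y z S ω σ f t x ^ p) ≤
      (∫⁻ v : Fin d → ℝ, ENNReal.ofReal (Wt v)) ^ p * Q := by
  have g := superp hp (ν := volume.restrict (Icc (1 : ℝ) 2)) (E := fun k t => ec (σ * ω k * t))
    (ecE_meas σ ω) hf hQ (volume : Measure (Fin d → ℝ)) Wt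
    Wt_cont.measurable Wt_pos (fun k => K0 y z σ (ω k) k) (fun k => K0_meas hy σ (ω k) k)
    (fun k hk v => eN hB _ v (hK0 k hk v)) (fun v => v) measurable_id
  unfold A0
  exact g

lemma A1_bd {s p : ℝ} (hp : 1 ≤ p) {y z : ℝ → ℂ → ℂ} (hy : Pair s y z) (S : Finset (Fin d → ℤ))
    (ω : (Fin d → ℤ) → ℝ) (σ : ℝ) {f : (Fin d → ℝ) → ℂ} (hf : Integrable f) {B : ℝ} (hB : 0 ≤ B)
    (hK1 : ∀ k ∈ S, ∀ r : ℝ, 1 ≤ r → r ≤ 2 → ∀ v, ‖K1 y σ (ω k) k (r, v)‖ ≤ B * Wt v) {Q : ℝ≥0∞}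
    (hQ : ∀ a : (Fin d → ℤ) → ℂ, (∀ k ∈ S, ‖a k‖ₑ ≤ ENNReal.ofReal B) →
      ∫⁻ t in Icc (1 : ℝ) 2, (∫⁻ x, ‖∑ k ∈ S, a k * ec (σ * ω k * t) * hk f k x‖ₑ ^ p) ≤ Q) :
    ∫⁻ t in Icc (1 : ℝ) 2, (∫⁻ x, A1 y S ω σ f t x ^ p) ≤
      (∫⁻ v : Fin d → ℝ, ENNReal.ofReal (Wt v)) ^ p * Q := by
  have m : Measurable fun q : ℝ × (Fin d → ℝ) => ENNReal.ofReal (Wt q.2) :=
    (Wt_cont.measurable.comp measurable_snd).ennreal_ofReal
  have g := superp hp (ν := volume.restrict (Icc (1 : ℝ) 2)) (E := fun k t => ec (σ * ω k * t))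
    (ecE_meas σ ω) hf hQ
    ((volume.restrict (Icc (1 : ℝ) 2)).prod (volume : Measure (Fin d → ℝ)))
    (fun q => Wt q.2) (Wt_cont.measurable.comp measurable_snd) (fun q => Wt_pos q.2)
    (fun k => K1c y σ (ω k) k) (fun k => K1c_meas hy σ (ω k) k)
    (fun k hk q => by
      refine eN hB _ q.2 ?_
      unfold K1c
      by_cases hq : q ∈ Icc (1 : ℝ) 2 ×ˢ (univ : Set (Fin d → ℝ))
      · rw [indicator_of_mem hq]
        exact hK1 k hk q.1 hq.1.1 hq.1.2 q.2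
      · rw [indicator_of_notMem hq, norm_zero]
        have := Wt_pos q.2
        positivity) (fun q => q.2) measurable_snd
  have e : ∫⁻ q, ENNReal.ofReal (Wt q.2)
      ∂((volume.restrict (Icc (1 : ℝ) 2)).prod (volume : Measure (Fin d → ℝ))) =
      ∫⁻ v : Fin d → ℝ, ENNReal.ofReal (Wt v) := by
    rw [lintegral_prod _ m.aemeasurable]
    simp only [lintegral_const, Measure.restrict_apply_univ, Real.volume_Icc]
    have : ENNReal.ofReal (2 - 1) = 1 := by norm_num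
    rw [this, mul_one]
  rw [e] at g
  unfold A1
  exact g

section
attribute [local irreducible] A0 A1 K0 K1 K1c P0 P1 U V

/-- adding up the four majorants -/
lemma sum_four {X : Type*} [MeasurableSpace X] (ν : Measure ℝ) (μ : Measure X) [SFinite μ]
    (F : ℝ → X → ℂ) (T : Set ℝ) (hT : MeasurableSet T) (a : Fin 4 → ℝ → X → ℝ≥0∞)
    (ha : ∀ i, Measurable fun q : ℝ × X => a i q.1 q.2) (p : ℝ) (hp : 1 ≤ p)
    (hF : ∀ t ∈ T, ∀ x, ‖F t x‖ₑ ≤ (a 0 t x + a 1 t x) + (a 2 t x + a 3 t x)) (Q : ℝ≥0∞)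
    (hQ : ∀ i, ∫⁻ t in T, (∫⁻ x, a i t x ^ p ∂μ) ∂ν ≤ Q) :
    ∫⁻ t in T, (∫⁻ x, ‖F t x‖ₑ ^ p ∂μ) ∂ν ≤ (2 ^ (p - 1)) ^ 2 * (4 * Q) := by
  have hp0 : 0 < p := by linarith
  have mp : ∀ i, Measurable fun q : ℝ × X => a i q.1 q.2 ^ p := fun i => (ha i).pow_const p
  have mx : ∀ i t, Measurable fun x => a i t x ^ p := fun i t =>
    (mp i).comp (measurable_const.prodMk measurable_id)
  have mt : ∀ i, Measurable fun t => ∫⁻ x, a i t x ^ p ∂μ := fun i => (mp i).lintegral_prod_right'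
  have e1 : ∀ t ∈ T, ∫⁻ x, ‖F t x‖ₑ ^ p ∂μ ≤ (2 ^ (p - 1)) ^ 2 * ∑ i, ∫⁻ x, a i t x ^ p ∂μ := by
    intro t ht
    rw [← lintegral_finsetSum _ fun i _ => mx i t, ← lintegral_const_mul]
    · apply lintegral_mono
      intro x
      simp only
      refine (ENNReal.rpow_le_rpow (hF t ht x) hp0.le).trans ((four_rpow _ _ _ _ p hp).trans
        (le_of_eq ?_))
      rw [Fin.sum_univ_four]
      ring
    · exact Finset.measurable_sum _ fun i _ => mx i t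
  calc ∫⁻ t in T, (∫⁻ x, ‖F t x‖ₑ ^ p ∂μ) ∂ν ≤
      ∫⁻ t in T, ((2 ^ (p - 1)) ^ 2 * ∑ i, ∫⁻ x, a i t x ^ p ∂μ) ∂ν :=
        setLIntegral_mono' hT e1
    _ = (2 ^ (p - 1)) ^ 2 * ∑ i, ∫⁻ t in T, (∫⁻ x, a i t x ^ p ∂μ) ∂ν := by
        rw [lintegral_const_mul, lintegral_finsetSum _ fun i _ => mt i]
        exact Finset.measurable_sum _ fun i _ => mt i
    _ ≤ (2 ^ (p - 1)) ^ 2 * ∑ _i : Fin 4, Q := by
        gcongr with i
        exact hQ i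
    _ = _ := by
        rw [Finset.sum_const, Finset.card_univ, Fintype.card_fin]
        simp

/-- **finitely many cells** -/
theorem finite_est (n : ℕ) (s p D : ℝ) (hs : 0 ≤ s) (hp : 2 ≤ p) (hD : 0 ≤ D) {y z : ℝ → ℂ → ℂ}
    (hy : Pair s y z) : ∃ C : ℝ≥0, ∀ (S : Finset (Fin (n + 1) → ℤ)) (ω : (Fin (n + 1) → ℤ) → ℝ),
    (∀ k ∈ S, 1 ≤ ω k ∧ |ω k - nrm (iz k)| ≤ D) → ∀ KK : ℝ≥0∞,
    (∀ σ : ℝ, σ * σ = 1 → HT (volume.restrict (Icc (1 : ℝ) 2)) S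
      (fun k t => ec (σ * ω k * t)) p KK) →
    ∀ f : (Fin (n + 1) → ℝ) → ℂ, Measurable f → Integrable f → ∀ A : ℝ, 0 < A →
    (∀ k ∈ S, (1 + nq (iz k)) ^ (-s / 2) ≤ A) →
    ∫⁻ t in Icc (1 : ℝ) 2, (∫⁻ x, ‖∑ k ∈ S, U y f k t x‖ₑ ^ p) ≤
      C * KK * ENNReal.ofReal A ^ p * ∫⁻ x, ‖f x‖ₑ ^ p := by
  obtain ⟨C1, M, hC1, h1⟩ := P_bd hs hy D hD
  obtain ⟨C2, hC2, h2⟩ := Kn_Wt n M
  obtain ⟨C3, h3⟩ := transf (n + 1) p hp
  obtain ⟨C4, h4⟩ := Wt_lint (n + 1)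
  have hp0 : 0 < p := by linarith
  have hp1 : 1 ≤ p := by linarith
  refine ⟨(2 ^ (p - 1)) ^ 2 * (4 * (C4 ^ p * C3 * (C2 * C1).toNNReal ^ p)), ?_⟩
  intro S ω hω KK hHT f hfm hf A hA hAk
  obtain ⟨B, hB⟩ : ∃ B : ℝ, B = C2 * (C1 * A) := ⟨_, rfl⟩
  have hB0 : 0 < B := by rw [hB]; positivity
  have hPb : ∀ k ∈ S, ∀ σ : ℝ, |σ| ≤ 1 → ∀ t : ℝ, 1 ≤ t → t ≤ 2 →
      ∀ (ξ : Fin (n + 1) → ℝ) (i : Fin (n + 1)) (η : ℝ), |η| ≤ 1 / 10 →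
      ‖P0 y z σ (ω k) t (pt ξ i η)‖ ≤ C1 * A * (1 + nq (ξ - iz k)) ^ M ∧
      ‖P1 y σ (ω k) t (pt ξ i η)‖ ≤ C1 * A * (1 + nq (ξ - iz k)) ^ M := by
    intro k hk σ hσ t ht1 ht2 ξ i η hη
    obtain ⟨g1, g2⟩ := h1 (n + 1) (iz k) (ω k) σ (hω k hk).1 (hω k hk).2 hσ ξ i η hη t ht1 ht2
    have g3 := hAk k hk
    have g4 := nq_nonneg (ξ - iz k)
    constructor
    · refine g1.trans ?_
      gcongr
    · refine g2.trans ?_
      gcongr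
  have hPr : ∀ k ∈ S, ∀ σ : ℝ, |σ| ≤ 1 → ∀ t : ℝ, 1 ≤ t → t ≤ 2 → ∀ (ξ : Fin (n + 1) → ℝ),
      ‖P0 y z σ (ω k) t (nq ξ)‖ ≤ C1 * A * (1 + nq (ξ - iz k)) ^ M ∧
      ‖P1 y σ (ω k) t (nq ξ)‖ ≤ C1 * A * (1 + nq (ξ - iz k)) ^ M := by
    intro k hk σ hσ t ht1 ht2 ξ
    have := hPb k hk σ hσ t ht1 ht2 ξ 0 0 (by norm_num)
    rwa [pt_zero] at this
  have hd0 : ∀ σ ω : ℝ, DifferentiableOn ℂ (P0 y z σ ω 1) Hp := P0_diff hy
  have hd1 : ∀ σ ω t : ℝ, DifferentiableOn ℂ (P1 y σ ω t) Hp := P1_diff hy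
  have hK0 : ∀ σ : ℝ, |σ| ≤ 1 → ∀ k ∈ S, ∀ v, ‖K0 y z σ (ω k) k v‖ ≤ B * Wt v := by
    intro σ hσ k hk v
    rw [K0_norm, hB]
    exact h2 (P0 y z σ (ω k) 1) (hd0 _ _) k (C1 * A) (by positivity)
      (fun ξ i η hη => (hPb k hk σ hσ 1 le_rfl (by norm_num) ξ i η hη).1) v
  have hK1 : ∀ σ : ℝ, |σ| ≤ 1 → ∀ k ∈ S, ∀ r : ℝ, 1 ≤ r → r ≤ 2 → ∀ v,
      ‖K1 y σ (ω k) k (r, v)‖ ≤ B * Wt v := by
    intro σ hσ k hk r hr1 hr2 v
    rw [K1_norm, hB]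
    exact h2 (P1 y σ (ω k) r) (hd1 _ _ _) k (C1 * A) (by positivity)
      (fun ξ i η hη => (hPb k hk σ hσ r hr1 hr2 ξ i η hη).2) v
  obtain ⟨Q, hQ⟩ : ∃ Q : ℝ≥0∞, Q = C3 * KK * ENNReal.ofReal B ^ p * ∫⁻ x, ‖f x‖ₑ ^ p := ⟨_, rfl⟩
  have hQb : ∀ σ : ℝ, σ * σ = 1 → ∀ a : (Fin (n + 1) → ℤ) → ℂ,
      (∀ k ∈ S, ‖a k‖ₑ ≤ ENNReal.ofReal B) →
      ∫⁻ t in Icc (1 : ℝ) 2, (∫⁻ x, ‖∑ k ∈ S, a k * ec (σ * ω k * t) * hk f k x‖ₑ ^ p) ≤ Q := by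
    intro σ hσ a ha
    rw [hQ]
    exact h3 (volume.restrict (Icc (1 : ℝ) 2)) S (fun k t => ec (σ * ω k * t)) (ecE_meas σ ω) KK
      (hHT σ hσ) f hfm hf a _ ha
  have hne : ∀ k ∈ S, ω k ≠ 0 := fun k hk => by
    have := (hω k hk).1
    linarith
  have e2 : ∀ σ : ℝ, σ * σ = 1 → |σ| ≤ 1 → ∀ t ∈ Icc (1 : ℝ) 2, ∀ x,
      ‖∑ k ∈ S, V y z f σ (ω k) k t x‖ₑ ≤ A0 y z S ω σ f t x + A1 y S ω σ f t x := by
    intro σ hσ hσ1 t ht x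
    have := comp_bd hy hf S ω σ hσ hne hB0.le (hK0 σ hσ1) (hK1 σ hσ1) (A := C1 * A) (by positivity)
      (M := M) (fun k hk t h1 h2 ξ => (hPr k hk σ hσ1 t h1 h2 ξ).1)
      (fun k hk t h1 h2 ξ => (hPr k hk σ hσ1 t h1 h2 ξ).2) t ht.1 ht.2 x
    unfold A0 A1
    exact this
  have hfin := sum_four (volume : Measure ℝ) (volume : Measure (Fin (n + 1) → ℝ))
    (fun t x => ∑ k ∈ S, U y f k t x) (Icc (1 : ℝ) 2) measurableSet_Icc
    ![A0 y z S ω 1 f, A1 y S ω 1 f, A0 y z S ω (-1) f, A1 y S ω (-1) f]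
    (by
      intro i
      fin_cases i
      · exact A0_meas hy S ω 1 hf
      · exact A1_meas hy S ω 1 hf
      · exact A0_meas hy S ω (-1) hf
      · exact A1_meas hy S ω (-1) hf) p hp1
    (by
      intro t ht x
      have e1 : ∑ k ∈ S, U y f k t x = (∑ k ∈ S, V y z f 1 (ω k) k t x) +
          ∑ k ∈ S, V y z f (-1) (ω k) k t x := by
        rw [← Finset.sum_add_distrib]
        apply Finset.sum_congr rfl
        intro k hk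
        exact U_eq hy hf k (ω k) (A := C1 * A) (by positivity) (M := M) t
          (fun σ hσ ξ => (hPr k hk σ hσ t ht.1 ht.2 ξ).1) x
      rw [e1]
      exact (enorm_add_le _ _).trans (add_le_add
        (e2 1 (by norm_num) (by norm_num) t ht x) (e2 (-1) (by norm_num) (by norm_num) t ht x)))
    ((C4 : ℝ≥0∞) ^ p * Q)
    (by
      have g : (∫⁻ v : Fin (n + 1) → ℝ, ENNReal.ofReal (Wt v)) ^ p * Q ≤ (C4 : ℝ≥0∞) ^ p * Q := by
        gcongr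
      intro i
      fin_cases i
      · exact (A0_bd hp1 hy S ω 1 hf hB0.le (hK0 1 (by norm_num)) (hQb 1 (by norm_num))).trans g
      · exact (A1_bd hp1 hy S ω 1 hf hB0.le (hK1 1 (by norm_num)) (hQb 1 (by norm_num))).trans g
      · exact (A0_bd hp1 hy S ω (-1) hf hB0.le (hK0 (-1) (by norm_num))
          (hQb (-1) (by norm_num))).trans g
      · exact (A1_bd hp1 hy S ω (-1) hf hB0.le (hK1 (-1) (by norm_num))
          (hQb (-1) (by norm_num))).trans g)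
  refine hfin.trans (le_of_eq ?_)
  have e1 : ENNReal.ofReal B = ((C2 * C1).toNNReal : ℝ≥0∞) * ENNReal.ofReal A := by
    have : B = C2 * C1 * A := by rw [hB]; ring
    rw [this, ENNReal.ofReal_mul (by positivity)]
    rfl
  rw [hQ, e1, ENNReal.mul_rpow_of_nonneg _ _ hp0.le]
  push_cast
  rw [ENNReal.coe_rpow_of_nonneg _ hp0.le, ENNReal.coe_rpow_of_nonneg _ hp0.le,
    ENNReal.coe_rpow_of_nonneg _ (by linarith)]
  push_cast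
  ring

end

end Pool.Agent.Q89.WS
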