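import Pool.Agent.Q89.WS.J
set_option autoImplicit false

/-! The partition of unity and the summation over dyadic shells. -/

namespace Pool.Agent.Q89.WS

open MeasureTheory Set Complex Filter Topology
open scoped ENNReal NNReal
open Pool.Agent.Y183.LS (ec ec_norm ec_enorm ec_add ec_cont ec_zero ec_sum dt dt_add dt_comm dt_cont
  dt_cont2 iz dt_add_left HC HC_meas tri tri_cont parseval_unit)

variable {d : ℕ}

lemma b1_nonneg (η : ℝ) : 0 ≤ b1 η := by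
  unfold b1
  apply Real.cos_nonneg_of_mem_Icc
  have h1 : -1 ≤ max (-1) (min η 1) := le_max_left _ _
  have h2 : max (-1) (min η 1) ≤ 1 := max_le (by norm_num) (min_le_right _ _)
  have := Real.pi_pos
  constructor <;> nlinarith

/-- two neighbouring bumps -/
lemma b1_two (η : ℝ) : b1 (η - ⌊η⌋) ^ 2 + b1 (η - ((⌊η⌋ + 1 : ℤ) : ℝ)) ^ 2 = 1 := by
  have h1 := Int.floor_le η
  have h2 := Int.lt_floor_add_one η
  rw [b1_in (η := η - ⌊η⌋) ⟨by linarith, by linarith⟩,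
    b1_in (η := η - ((⌊η⌋ + 1 : ℤ) : ℝ)) ⟨by push_cast; linarith, by push_cast; linarith⟩]
  have h3 : Real.pi / 2 * (η - ((⌊η⌋ + 1 : ℤ) : ℝ)) = Real.pi / 2 * (η - ⌊η⌋) - Real.pi / 2 := by
    push_cast
    ring
  rw [h3, Real.cos_sub_pi_div_two]
  have := Real.sin_sq_add_cos_sq (Real.pi / 2 * (η - ⌊η⌋))
  linarith

lemma b1_sum (η : ℝ) (s : Finset ℤ) (h : ⌊η⌋ ∈ s) (h' : ⌊η⌋ + 1 ∈ s) :
    ∑ j ∈ s, b1 (η - j) ^ 2 = 1 := by
  have h1 := Int.floor_le η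
  have h2 := Int.lt_floor_add_one η
  have hsub : ({⌊η⌋, ⌊η⌋ + 1} : Finset ℤ) ⊆ s := by
    intro j hj
    rw [Finset.mem_insert, Finset.mem_singleton] at hj
    rcases hj with rfl | rfl
    · exact h
    · exact h'
  rw [← Finset.sum_subset hsub, Finset.sum_pair (by omega)]
  · exact b1_two η
  · intro j _ hj
    rw [Finset.mem_insert, Finset.mem_singleton, not_or] at hj
    have h3 : b1 (η - j) = 0 := by
      apply b1_out
      rcases lt_or_gt_of_ne hj.1 with h4 | h4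
      · have h5 : (j : ℝ) ≤ ⌊η⌋ - 1 := by
          have : j ≤ ⌊η⌋ - 1 := by omega
          exact_mod_cast this
        rw [abs_of_nonneg (by linarith)]
        linarith
      · have h5 : ((⌊η⌋ : ℝ) + 2) ≤ j := by
          have : ⌊η⌋ + 2 ≤ j := by
            have := hj.2
            omega
          exact_mod_cast this
        rw [abs_of_neg (by linarith)]
        linarith
    rw [h3]
    ring

lemma b1_sum_le (η : ℝ) (s : Finset ℤ) : ∑ j ∈ s, b1 (η - j) ^ 2 ≤ 1 := by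
  have h := b1_sum η (s ∪ {⌊η⌋, ⌊η⌋ + 1}) (by simp) (by simp)
  rw [← h]
  exact Finset.sum_le_sum_of_subset_of_nonneg Finset.subset_union_left fun _ _ _ => sq_nonneg _

/-- boxes -/
noncomputable def box (d : ℕ) (N : ℕ) : Finset (Fin d → ℤ) := Fintype.piFinset fun _ => Finset.Icc (-(N : ℤ)) N

lemma mem_box {N : ℕ} {k : Fin d → ℤ} : k ∈ box d N ↔ ∀ i, |k i| ≤ N := by
  unfold box
  rw [Fintype.mem_piFinset]
  simp only [Finset.mem_Icc, abs_le]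

lemma BB_eq (k : Fin d → ℤ) (ξ : Fin d → ℝ) : BB k ξ = ∏ i, b1 (ξ i - k i) ^ 2 := by
  unfold BB SB w0
  rw [← Finset.prod_mul_distrib]
  apply Finset.prod_congr rfl
  intro i _
  simp only [Pi.sub_apply, iz]
  ring

lemma BB_sum (N : ℕ) (ξ : Fin d → ℝ) :
    ∑ k ∈ box d N, BB k ξ = ∏ i, ∑ j ∈ Finset.Icc (-(N : ℤ)) N, b1 (ξ i - j) ^ 2 := by
  rw [Finset.prod_univ_sum]
  unfold box
  apply Finset.sum_congr rfl
  intro k _
  exact BB_eq k ξ

lemma BB_nonneg (k : Fin d → ℤ) (ξ : Fin d → ℝ) : 0 ≤ BB k ξ := by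
  rw [BB_eq]
  exact Finset.prod_nonneg fun i _ => sq_nonneg _

lemma BB_sum_le (N : ℕ) (ξ : Fin d → ℝ) : ∑ k ∈ box d N, BB k ξ ≤ 1 := by
  rw [BB_sum]
  exact Finset.prod_le_one (fun i _ => Finset.sum_nonneg fun j _ => sq_nonneg _)
    fun i _ => b1_sum_le _ _

lemma BB_sum_one (ξ : Fin d → ℝ) : ∀ᶠ J : ℕ in atTop, ∑ k ∈ box d (2 ^ J), BB k ξ = 1 := by
  have h : ∀ i : Fin d, ∀ᶠ J : ℕ in atTop, |⌊ξ i⌋| + 1 ≤ ((2 ^ J : ℕ) : ℤ) := by
    intro i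
    filter_upwards [eventually_ge_atTop (|⌊ξ i⌋| + 1).toNat] with J hJ
    have h1 : J < 2 ^ J := Nat.lt_two_pow_self
    have h2 : |⌊ξ i⌋| + 1 ≤ (J : ℤ) := by
      have := Int.toNat_of_nonneg (by positivity : 0 ≤ |⌊ξ i⌋| + 1)
      omega
    have h3 : (J : ℤ) < ((2 ^ J : ℕ) : ℤ) := by exact_mod_cast h1
    omega
  have h' := eventually_all.mpr h
  filter_upwards [h'] with J hJ
  rw [BB_sum]
  apply Finset.prod_eq_one
  intro i _
  have h1 := hJ i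
  have h2 := neg_abs_le ⌊ξ i⌋
  have h3 := le_abs_self ⌊ξ i⌋
  apply b1_sum
  · rw [Finset.mem_Icc]
    constructor <;> omega
  · rw [Finset.mem_Icc]
    constructor <;> omega

/-- the neighbours of `L` -/
def Nb (L : Set (Fin d → ℤ)) (k : Fin d → ℤ) : Prop := ∃ l ∈ L, ∀ i, |k i - l i| ≤ 1

/-- the spectral condition -/
def Spec (L : Set (Fin d → ℤ)) (f : (Fin d → ℝ) → ℂ) : Prop :=
  ∀ ξ : Fin d → ℝ, ft f ξ ≠ 0 → ∃ l ∈ L, ∀ i, |ξ i - l i| ≤ 1 / 2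

lemma U_zero {L : Set (Fin d → ℤ)} {f : (Fin d → ℝ) → ℂ} (hf : Spec L f) (y : ℝ → ℂ → ℂ)
    {k : Fin d → ℤ} (hk : ¬Nb L k) (t : ℝ) (x : Fin d → ℝ) : U y f k t x = 0 := by
  unfold U
  have h : ∀ ξ : Fin d → ℝ, (BB k ξ : ℂ) * ft f ξ = 0 := by
    intro ξ
    by_contra hc
    rw [mul_eq_zero, not_or] at hc
    obtain ⟨l, hl, h1⟩ := hf ξ hc.2
    apply hk
    refine ⟨l, hl, fun i => ?_⟩
    have h2 : BB k ξ ≠ 0 := by exact_mod_cast hc.1
    rw [BB_eq, Finset.prod_ne_zero_iff] at h2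
    have h3 := h2 i (Finset.mem_univ i)
    have h4 : |ξ i - k i| < 1 := by
      by_contra h5
      push Not at h5
      apply h3
      rw [b1_out h5]
      ring
    have h5 := h1 i
    have h6 : |((k i - l i : ℤ) : ℝ)| < 2 := by
      push_cast
      have : (k i : ℝ) - l i = (ξ i - l i) - (ξ i - k i) := by ring
      rw [this]
      refine (abs_sub _ _).trans_lt ?_
      linarith
    have h7 : |k i - l i| < 2 := by exact_mod_cast h6
    omega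
  simp only [h, mul_zero, integral_zero]

/-- the solution -/
noncomputable def W (y : ℝ → ℂ → ℂ) (f : (Fin d → ℝ) → ℂ) (t : ℝ) (x : Fin d → ℝ) : ℂ :=
  ∫ ξ, ec (dt x ξ) * (y t (nq ξ) * ft f ξ)

lemma y_nq {X : Type*} [MeasurableSpace X] {s : ℝ} {y z : ℝ → ℂ → ℂ} (hy : Pair s y z)
    {a : X → ℝ} {b : X → Fin d → ℝ} (ha : Measurable a) (hb : Measurable b) :
    Measurable fun r => y (a r) (nq (b r) : ℂ) := by
  have h1 : Measurable fun r => ((a r, ((nq (b r) : ℝ) : ℂ)) : ℝ × ℂ) := ha.prodMk (nqc_meas.comp hb)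
  exact hy.my.comp h1

lemma y_bd {s : ℝ} {y z : ℝ → ℂ → ℂ} (hy : Pair s y z) (n : ℕ) : ∃ C : ℝ, 0 < C ∧
    ∀ t : ℝ, 1 ≤ t → t ≤ 2 → ∀ ξ : Fin (n + 1) → ℝ, ‖y t (nq ξ)‖ ≤ C * Jr ξ ^ (-s / 2) := by
  obtain ⟨C, hC, h⟩ := hy.bd
  refine ⟨C, hC, fun t h1 h2 ξ => ?_⟩
  have := (h (n + 1) ξ 0 0 (by norm_num) t h1 h2).1
  rwa [pt_zero] at this

lemma Jr_le_one {s : ℝ} (hs : 0 ≤ s) (ξ : Fin d → ℝ) : Jr ξ ^ (-s / 2) ≤ 1 :=
  Real.rpow_le_one_of_one_le_of_nonpos (Jr_one ξ) (by linarith)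

lemma U_int {s : ℝ} (hs : 0 ≤ s) {y z : ℝ → ℂ → ℂ} (hy : Pair s y z) {n : ℕ}
    {f : (Fin (n + 1) → ℝ) → ℂ} (hf : Integrable f) (k : Fin (n + 1) → ℤ) {t : ℝ} (ht1 : 1 ≤ t)
    (ht2 : t ≤ 2) (x : Fin (n + 1) → ℝ) :
    Integrable fun ξ => ec (dt x ξ) * (y t (nq ξ) * ((BB k ξ : ℂ) * ft f ξ)) := by
  obtain ⟨C, hC, h⟩ := y_bd hy n
  refine BBft_int hf k (y_nq hy measurable_const measurable_id) (A := C) (M := 0) hC.le ?_ x
  intro ξ
  rw [pow_zero, mul_one]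
  refine (h t ht1 ht2 ξ).trans ?_
  have := Jr_le_one hs ξ
  nlinarith

/-- the partial sums converge -/
lemma U_tendsto {s : ℝ} (hs : 0 ≤ s) {y z : ℝ → ℂ → ℂ} (hy : Pair s y z) {n : ℕ}
    {f : (Fin (n + 1) → ℝ) → ℂ} (hf : Integrable f)
    (hi : Integrable fun ξ => ((Jr ξ ^ (-s / 2) : ℝ) : ℂ) * ft f ξ) {t : ℝ} (ht1 : 1 ≤ t)
    (ht2 : t ≤ 2) (x : Fin (n + 1) → ℝ) :
    Tendsto (fun J : ℕ => ∑ k ∈ box (n + 1) (2 ^ J), U y f k t x) atTop (𝓝 (W y f t x)) := by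
  obtain ⟨C, hC, h⟩ := y_bd hy n
  have e1 : ∀ J : ℕ, ∑ k ∈ box (n + 1) (2 ^ J), U y f k t x =
      ∫ ξ, ec (dt x ξ) * (y t (nq ξ) * (((∑ k ∈ box (n + 1) (2 ^ J), BB k ξ : ℝ) : ℂ) * ft f ξ)) := by
    intro J
    unfold U
    rw [← integral_finsetSum _ fun k _ => U_int hs hy hf k ht1 ht2 x]
    congr 1
    ext ξ
    push_cast
    rw [Finset.sum_mul, Finset.mul_sum, Finset.mul_sum]
  simp only [e1]
  unfold W
  have my : Measurable fun ξ : Fin (n + 1) → ℝ => y t (nq ξ) :=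
    y_nq hy measurable_const measurable_id
  have me : Measurable fun ξ : Fin (n + 1) → ℝ => ec (dt x ξ) :=
    ecdt_meas measurable_const measurable_id
  refine tendsto_integral_of_dominated_convergence
    (fun ξ => C * ‖((Jr ξ ^ (-s / 2) : ℝ) : ℂ) * ft f ξ‖) ?_ (hi.norm.const_mul C) ?_ ?_
  · intro J
    refine (me.mul (my.mul (Measurable.mul ?_ (ft_cont hf).measurable))).aestronglyMeasurable
    refine Complex.measurable_ofReal.comp ?_
    exact Finset.measurable_sum _ fun k _ => (BB_cont k).measurable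
  · intro J
    filter_upwards with ξ
    rw [norm_mul, ec_norm, one_mul, norm_mul, norm_mul, norm_mul, Complex.norm_real,
      Complex.norm_real, Real.norm_of_nonneg (Finset.sum_nonneg fun k _ => BB_nonneg k ξ),
      Real.norm_of_nonneg (Real.rpow_nonneg (Jr_pos ξ).le _)]
    have h1 := h t ht1 ht2 ξ
    have h2 := BB_sum_le (2 ^ J) ξ
    have h3 : 0 ≤ ∑ k ∈ box (n + 1) (2 ^ J), BB k ξ := Finset.sum_nonneg fun k _ => BB_nonneg k ξ
    have hJp : 0 ≤ Jr ξ ^ (-s / 2) := Real.rpow_nonneg (Jr_pos ξ).le _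
    calc ‖y t (nq ξ)‖ * ((∑ k ∈ box (n + 1) (2 ^ J), BB k ξ) * ‖ft f ξ‖) ≤
        (C * Jr ξ ^ (-s / 2)) * (1 * ‖ft f ξ‖) := by gcongr
      _ = _ := by ring
  · filter_upwards with ξ
    refine Tendsto.congr' ?_ tendsto_const_nhds
    filter_upwards [BB_sum_one ξ] with J hJ
    rw [hJ]
    simp

lemma U_meas {s : ℝ} {y z : ℝ → ℂ → ℂ} (hy : Pair s y z) {f : (Fin d → ℝ) → ℂ}
    (hf : Integrable f) (k : Fin d → ℤ) :
    Measurable fun q : ℝ × (Fin d → ℝ) => U y f k q.1 q.2 := by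
  have g1 : Measurable fun r : (ℝ × (Fin d → ℝ)) × (Fin d → ℝ) => ec (dt r.1.2 r.2) :=
    ecdt_meas (by fun_prop) (by fun_prop)
  have g2 : Measurable fun r : (ℝ × (Fin d → ℝ)) × (Fin d → ℝ) => y r.1.1 (nq r.2) :=
    y_nq hy (by fun_prop) (by fun_prop)
  have g3 : Measurable fun r : (ℝ × (Fin d → ℝ)) × (Fin d → ℝ) => ((BB k r.2 : ℝ) : ℂ) :=
    Complex.measurable_ofReal.comp ((BB_cont k).measurable.comp measurable_snd)
  have g4 : Measurable fun r : (ℝ × (Fin d → ℝ)) × (Fin d → ℝ) => ft f r.2 :=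
    (ft_cont hf).measurable.comp measurable_snd
  have h := (g1.mul (g2.mul (g3.mul g4))).stronglyMeasurable.integral_prod_right'
    (ν := (volume : Measure (Fin d → ℝ)))
  exact h.measurable

lemma nq_box {N : ℕ} {k : Fin d → ℤ} (hk : k ∈ box d N) : nq (iz k) ≤ d * (N : ℝ) ^ 2 := by
  unfold nq
  have h : ∀ i ∈ (Finset.univ : Finset (Fin d)), iz k i ^ 2 ≤ (N : ℝ) ^ 2 := by
    intro i _
    have h1 := mem_box.mp hk i
    have h2 : |(k i : ℝ)| ≤ N := by exact_mod_cast h1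
    rw [← sq_abs]
    exact pow_le_pow_left₀ (abs_nonneg _) h2 2
  refine (Finset.sum_le_card_nsmul _ _ _ h).trans (le_of_eq ?_)
  rw [Finset.card_univ, Fintype.card_fin, nsmul_eq_mul]

lemma nq_not_box {N : ℕ} {k : Fin d → ℤ} (hk : k ∉ box d N) : (N : ℝ) ^ 2 ≤ nq (iz k) := by
  rw [mem_box] at hk
  push Not at hk
  obtain ⟨i, hi⟩ := hk
  have h1 : (N : ℝ) ≤ |(k i : ℝ)| := by exact_mod_cast hi.le
  have h2 : (N : ℝ) ^ 2 ≤ iz k i ^ 2 := by
    rw [← sq_abs (iz k i)]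
    exact pow_le_pow_left₀ (by positivity) h1 2
  exact h2.trans (Finset.single_le_sum (f := fun i => iz k i ^ 2) (fun i _ => sq_nonneg _)
    (Finset.mem_univ i))

end Pool.Agent.Q89.WS
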