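import Pool.Agent.Q89.WS.L
set_option autoImplicit false

/-! From the spectrum to its neighbours. -/

namespace Pool.Agent.Q89.WS

open MeasureTheory Set Complex Filter Topology
open scoped ENNReal NNReal
open Pool.Agent.Y183.LS (ec ec_norm ec_enorm ec_add ec_cont ec_zero ec_sum dt dt_add dt_comm dt_cont
  dt_cont2 iz dt_add_left HC HC_meas tri tri_cont parseval_unit convex_sum QQ HC_eq QQ_vol)

variable {d : ℕ}

lemma ec_conj (x : ℝ) : (starRingEnd ℂ) (ec x) = ec (-x) := by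
  unfold ec
  rw [← Complex.exp_conj]
  congr 1
  rw [map_mul, map_mul, map_mul, Complex.conj_I, Complex.conj_ofReal, Complex.conj_ofReal,
    map_ofNat]
  push_cast
  ring

lemma tri_conj (S : Finset (Fin d → ℤ)) (ω : (Fin d → ℤ) → ℝ) (c : (Fin d → ℤ) → ℂ) (t : ℝ)
    (y : Fin d → ℝ) : ‖tri S iz (fun k => c k * ec (-(ω k * t))) y‖ₑ =
    ‖tri S iz (fun k => (starRingEnd ℂ) (c k) * ec (ω k * t)) (-y)‖ₑ := by
  have h : tri S iz (fun k => c k * ec (-(ω k * t))) y =
      (starRingEnd ℂ) (tri S iz (fun k => (starRingEnd ℂ) (c k) * ec (ω k * t)) (-y)) := by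
    unfold tri
    rw [map_sum]
    apply Finset.sum_congr rfl
    intro k _
    rw [map_mul, map_mul, Complex.conj_conj, ec_conj, ec_conj]
    congr 2
    unfold dt
    rw [← Finset.sum_neg_distrib]
    apply Finset.sum_congr rfl
    intro i _
    rw [Pi.neg_apply]
    ring
  rw [h, ← ofReal_norm, RCLike.norm_conj, ofReal_norm]

lemma lint_HC_neg (F : (Fin d → ℝ) → ℝ≥0∞) : ∫⁻ y in HC d, F (-y) = ∫⁻ y in HC d, F y := by
  rw [HC_eq, ← lintegral_indicator measurableSet_Icc, ← lintegral_indicator measurableSet_Icc,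
    ← lintegral_neg_eq_self]
  congr 1
  ext y
  by_cases hy : y ∈ QQ d
  · have h2 : -y ∈ QQ d := by
      rw [mem_Icc, Pi.le_def, Pi.le_def] at hy ⊢
      constructor
      · intro i
        have := hy.2 i
        simp only [Pi.neg_apply]
        linarith
      · intro i
        have := hy.1 i
        simp only [Pi.neg_apply]
        linarith
    rw [indicator_of_mem h2, indicator_of_mem hy]
    simp
  · have h2 : -y ∉ QQ d := by
      intro h
      apply hy
      rw [mem_Icc, Pi.le_def, Pi.le_def] at h ⊢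
      constructor
      · intro i
        have := h.2 i
        simp only [Pi.neg_apply] at this
        linarith
      · intro i
        have := h.1 i
        simp only [Pi.neg_apply] at this
        linarith
    rw [indicator_of_notMem h2, indicator_of_notMem hy]

lemma HT_sign {ν : Measure ℝ} {S : Finset (Fin d → ℤ)} {ω : (Fin d → ℤ) → ℝ} {p : ℝ} {KK : ℝ≥0∞}
    (h : HT ν S (fun k t => ec (ω k * t)) p KK) (σ : ℝ) (hσ : σ * σ = 1) :
    HT ν S (fun k t => ec (σ * ω k * t)) p KK := by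
  rcases mul_self_eq_one_iff.mp hσ with rfl | rfl
  · simpa only [one_mul] using h
  · intro c
    have h1 := h fun k => (starRingEnd ℂ) (c k)
    have e1 : ∀ k, ‖(starRingEnd ℂ) (c k)‖ₑ = ‖c k‖ₑ := by
      intro k
      rw [← ofReal_norm, RCLike.norm_conj, ofReal_norm]
    simp only [e1] at h1
    refine le_trans (le_of_eq ?_) h1
    congr 1
    ext t
    have e2 : ∀ y : Fin d → ℝ, ‖tri S iz (fun k => c k * ec (-1 * ω k * t)) y‖ₑ ^ p =
        (fun y => ‖tri S iz (fun k => (starRingEnd ℂ) (c k) * ec (ω k * t)) y‖ₑ ^ p) (-y) := by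
      intro y
      simp only
      rw [← tri_conj]
      congr 4
      ext k
      congr 2
      ring
    simp only [e2]
    exact lint_HC_neg fun y => ‖tri S iz (fun k => (starRingEnd ℂ) (c k) * ec (ω k * t)) y‖ₑ ^ p

/-- the frequency, at least one -/
noncomputable def om (k : Fin d → ℤ) : ℝ := max 1 (nrm (iz k))

lemma nrm_int {k : Fin d → ℤ} (hk : k ≠ 0) : 1 ≤ nrm (iz k) := by
  obtain ⟨i, hi⟩ : ∃ i, k i ≠ 0 := by
    by_contra hc
    push Not at hc
    exact hk (funext hc)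
  unfold nrm
  apply Real.le_sqrt_of_sq_le
  rw [one_pow]
  have h1 : (1 : ℝ) ≤ iz k i ^ 2 := by
    have h2 : (1 : ℤ) ≤ k i ^ 2 := by
      have := Int.one_le_abs hi
      rw [← sq_abs]
      nlinarith
    unfold iz
    exact_mod_cast h2
  exact h1.trans (Finset.single_le_sum (f := fun i => iz k i ^ 2) (fun i _ => sq_nonneg _)
    (Finset.mem_univ i))

lemma om_eq {k : Fin d → ℤ} (hk : k ≠ 0) : om k = nrm (iz k) := max_eq_right (nrm_int hk)

lemma HC_vol : volume (HC d : Set (Fin d → ℝ)) = 1 := by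
  have h := congrArg (fun μ : Measure (Fin d → ℝ) => μ univ) (HC_eq (m := d))
  simp only [Measure.restrict_apply_univ] at h
  rw [h, QQ_vol]

lemma two_bd (ν : Measure ℝ) (hν : ν univ = 1) (F G : ℝ → (Fin d → ℝ) → ℝ≥0∞)
    (hG : Measurable fun q : ℝ × (Fin d → ℝ) => G q.1 q.2) (c : ℝ≥0∞) (p : ℝ) (hp : 1 ≤ p)
    (h : ∀ t y, F t y ≤ G t y + c) :
    ∫⁻ t, (∫⁻ y in HC d, F t y ^ p) ∂ν ≤
      2 ^ (p - 1) * ((∫⁻ t, (∫⁻ y in HC d, G t y ^ p) ∂ν) + c ^ p) := by
  have hp0 : 0 < p := by linarith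
  have m1 : Measurable fun q : ℝ × (Fin d → ℝ) => G q.1 q.2 ^ p := hG.pow_const p
  have m2 : ∀ t, Measurable fun y : Fin d → ℝ => G t y ^ p := fun t =>
    m1.comp (measurable_const.prodMk measurable_id)
  have m3 : Measurable fun t => ∫⁻ y in HC d, G t y ^ p := m1.lintegral_prod_right'
  have e1 : ∀ t : ℝ, (∫⁻ y in HC d, F t y ^ p) ≤
      2 ^ (p - 1) * ((∫⁻ y in HC d, G t y ^ p) + c ^ p) := by
    intro t
    calc (∫⁻ y in HC d, F t y ^ p) ≤ ∫⁻ y in HC d, 2 ^ (p - 1) * (G t y ^ p + c ^ p) := by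
          apply lintegral_mono
          intro y
          exact (ENNReal.rpow_le_rpow (h t y) hp0.le).trans
            (ENNReal.rpow_add_le_mul_rpow_add_rpow _ _ hp)
      _ = _ := by
          rw [lintegral_const_mul, lintegral_add_left (m2 t), lintegral_const,
            Measure.restrict_apply_univ, HC_vol, mul_one]
          exact (m2 t).add measurable_const
  calc ∫⁻ t, (∫⁻ y in HC d, F t y ^ p) ∂ν ≤
      ∫⁻ t, (2 ^ (p - 1) * ((∫⁻ y in HC d, G t y ^ p) + c ^ p)) ∂ν := lintegral_mono e1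
    _ = _ := by
        rw [lintegral_const_mul, lintegral_add_left m3, lintegral_const, hν, mul_one]
        exact m3.add measurable_const

lemma many_bd {ι : Type*} (I : Finset ι) (ν : Measure ℝ) (F : ℝ → (Fin d → ℝ) → ℝ≥0∞)
    (G : ι → ℝ → (Fin d → ℝ) → ℝ≥0∞)
    (hG : ∀ i, Measurable fun q : ℝ × (Fin d → ℝ) => G i q.1 q.2) (p : ℝ) (hp : 1 ≤ p)
    (h : ∀ t y, F t y ≤ ∑ i ∈ I, G i t y) (Q : ℝ≥0∞)
    (hQ : ∀ i ∈ I, ∫⁻ t, (∫⁻ y in HC d, G i t y ^ p) ∂ν ≤ Q) :
    ∫⁻ t, (∫⁻ y in HC d, F t y ^ p) ∂ν ≤ (I.card : ℝ≥0∞) ^ p * Q := by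
  have hp0 : 0 < p := by linarith
  have m1 : ∀ i, Measurable fun q : ℝ × (Fin d → ℝ) => G i q.1 q.2 ^ p := fun i =>
    (hG i).pow_const p
  have m2 : ∀ i t, Measurable fun y : Fin d → ℝ => G i t y ^ p := fun i t =>
    (m1 i).comp (measurable_const.prodMk measurable_id)
  have m3 : ∀ i, Measurable fun t => ∫⁻ y in HC d, G i t y ^ p := fun i => (m1 i).lintegral_prod_right'
  have e6 : ∀ t y, F t y ^ p ≤ (I.card : ℝ≥0∞) ^ (p - 1) * ∑ i ∈ I, G i t y ^ p := by
    intro t y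
    have h6 := convex_sum I (fun _ => 1) (fun i => G i t y) p hp (fun _ _ => ENNReal.one_ne_top)
    simp only [one_mul, Finset.sum_const, nsmul_eq_mul, mul_one] at h6
    exact (ENNReal.rpow_le_rpow (h t y) hp0.le).trans h6
  have e1 : ∀ t, (∫⁻ y in HC d, F t y ^ p) ≤
      (I.card : ℝ≥0∞) ^ (p - 1) * ∑ i ∈ I, ∫⁻ y in HC d, G i t y ^ p := by
    intro t
    calc (∫⁻ y in HC d, F t y ^ p) ≤
        ∫⁻ y in HC d, (I.card : ℝ≥0∞) ^ (p - 1) * ∑ i ∈ I, G i t y ^ p :=
          lintegral_mono fun y => e6 t y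
      _ = _ := by
          rw [lintegral_const_mul, lintegral_finsetSum _ fun i _ => m2 i t]
          exact Finset.measurable_sum _ fun i _ => m2 i t
  calc ∫⁻ t, (∫⁻ y in HC d, F t y ^ p) ∂ν ≤
      ∫⁻ t, ((I.card : ℝ≥0∞) ^ (p - 1) * ∑ i ∈ I, ∫⁻ y in HC d, G i t y ^ p) ∂ν := lintegral_mono e1
    _ = (I.card : ℝ≥0∞) ^ (p - 1) * ∑ i ∈ I, ∫⁻ t, (∫⁻ y in HC d, G i t y ^ p) ∂ν := by
        rw [lintegral_const_mul, lintegral_finsetSum _ fun i _ => m3 i]
        exact Finset.measurable_sum _ fun i _ => m3 i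
    _ ≤ (I.card : ℝ≥0∞) ^ (p - 1) * ∑ _i ∈ I, Q := by
        gcongr with i hi
        exact hQ i hi
    _ = (I.card : ℝ≥0∞) ^ (p - 1) * (I.card : ℝ≥0∞) ^ (1 : ℝ) * Q := by
        rw [Finset.sum_const, nsmul_eq_mul, ENNReal.rpow_one]
        ring
    _ = _ := by
        rw [← ENNReal.rpow_add_of_nonneg _ _ (by linarith) (by norm_num)]
        have e7 : p - 1 + 1 = p := by ring
        rw [e7]

lemma tri_jm (T : Finset (Fin d → ℤ)) (c : (Fin d → ℤ) → ℂ) (E : (Fin d → ℤ) → ℝ → ℂ)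
    (hE : ∀ k, Measurable (E k)) : Measurable fun q : ℝ × (Fin d → ℝ) =>
      ‖tri T iz (fun l => c l * E l q.1) q.2‖ₑ := by
  refine Measurable.enorm ?_
  unfold tri
  apply Finset.measurable_sum
  intro k _
  have g1 : Measurable fun q : ℝ × (Fin d → ℝ) => E k q.1 := (hE k).comp measurable_fst
  have g2 : Measurable fun q : ℝ × (Fin d → ℝ) => ec (dt (iz k) q.2) :=
    ecdt_meas measurable_const measurable_snd
  exact (measurable_const.mul g1).mul g2

lemma HT_om {S : Finset (Fin d → ℤ)} {p : ℝ} (hp : 2 ≤ p) {KK : ℝ≥0∞}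
    (h : HT (volume.restrict (Icc (1 : ℝ) 2)) S (fun k t => ec (nrm (iz k) * t)) p KK) :
    HT (volume.restrict (Icc (1 : ℝ) 2)) S (fun k t => ec (om k * t)) p
      (2 ^ (p - 1) * (KK + 2 ^ p)) := by
  classical
  intro c
  have hp0 : 0 < p := by linarith
  obtain ⟨X, hX⟩ : ∃ X : ℝ≥0∞, X = ∑ k ∈ S, ‖c k‖ₑ ^ 2 := ⟨_, rfl⟩
  obtain ⟨c0, hc0⟩ : ∃ c0 : ℝ≥0∞, c0 = if (0 : Fin d → ℤ) ∈ S then ‖c 0‖ₑ else 0 := ⟨_, rfl⟩
  rw [← hX]
  have h0 : c0 ^ p ≤ X ^ (p / 2) := by
    rw [hc0]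
    split_ifs with h0
    · have h1 : ‖c 0‖ₑ ^ 2 ≤ X := by
        rw [hX]
        exact Finset.single_le_sum (f := fun k => ‖c k‖ₑ ^ 2) (fun _ _ => zero_le) h0
      have h2 := ENNReal.rpow_le_rpow h1 (by positivity : 0 ≤ p / 2)
      refine le_trans (le_of_eq ?_) h2
      rw [← ENNReal.rpow_ofNat, ← ENNReal.rpow_mul]
      congr 1
      ring
    · rw [ENNReal.zero_rpow_of_pos hp0]
      exact zero_le
  have h1 : ∀ (t : ℝ) (y : Fin d → ℝ), ‖tri S iz (fun k => c k * ec (om k * t)) y‖ₑ ≤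
      ‖tri S iz (fun k => c k * ec (nrm (iz k) * t)) y‖ₑ + 2 * c0 := by
    intro t y
    have e1 : tri S iz (fun k => c k * ec (om k * t)) y =
        tri S iz (fun k => c k * ec (nrm (iz k) * t)) y +
        (if (0 : Fin d → ℤ) ∈ S then c 0 * (ec (om (0 : Fin d → ℤ) * t) -
          ec (nrm (iz (0 : Fin d → ℤ)) * t)) * ec (dt (iz (0 : Fin d → ℤ)) y) else 0) := by
      unfold tri
      rw [← sub_eq_iff_eq_add', ← Finset.sum_sub_distrib]
      have e2 : ∀ k ∈ S, c k * ec (om k * t) * ec (dt (iz k) y) -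
          c k * ec (nrm (iz k) * t) * ec (dt (iz k) y) =
          if k = 0 then c 0 * (ec (om (0 : Fin d → ℤ) * t) -
          ec (nrm (iz (0 : Fin d → ℤ)) * t)) * ec (dt (iz (0 : Fin d → ℤ)) y) else 0 := by
        intro k _
        by_cases hk : k = 0
        · rw [if_pos hk, hk]
          ring
        · rw [if_neg hk, om_eq hk]
          ring
      rw [Finset.sum_congr rfl e2, Finset.sum_ite_eq']
    rw [e1]
    refine (enorm_add_le _ _).trans (add_le_add le_rfl ?_)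
    rw [hc0]
    split_ifs with h0
    · rw [enorm_mul, enorm_mul, ec_enorm, mul_one, mul_comm]
      gcongr
      refine (enorm_sub_le).trans ?_
      rw [ec_enorm, ec_enorm]
      norm_num
    · simp
  have hν : (volume.restrict (Icc (1 : ℝ) 2)) univ = 1 := by
    rw [Measure.restrict_apply_univ, Real.volume_Icc]
    norm_num
  have h2 := two_bd (volume.restrict (Icc (1 : ℝ) 2)) hν
    (fun t y => ‖tri S iz (fun k => c k * ec (om k * t)) y‖ₑ)
    (fun t y => ‖tri S iz (fun k => c k * ec (nrm (iz k) * t)) y‖ₑ)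
    (tri_jm S c (fun k t => ec (nrm (iz k) * t)) fun k => (ec_cont.comp (by fun_prop)).measurable)
    (2 * c0) p (by linarith) h1
  refine h2.trans ?_
  have h3 := h c
  rw [← hX] at h3
  calc 2 ^ (p - 1) * ((∫⁻ t, (∫⁻ y in HC d, ‖tri S iz (fun k => c k * ec (nrm (iz k) * t)) y‖ₑ ^ p)
        ∂(volume.restrict (Icc (1 : ℝ) 2))) + (2 * c0) ^ p) ≤
      2 ^ (p - 1) * (KK * X ^ (p / 2) + 2 ^ p * X ^ (p / 2)) := by
        rw [ENNReal.mul_rpow_of_nonneg _ _ hp0.le]
        gcongr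
    _ = _ := by ring

/-- from the spectrum to its neighbours -/
lemma HT_nb {ν : Measure ℝ} [SFinite ν] {p : ℝ} (hp : 2 ≤ p) (S T : Finset (Fin d → ℤ))
    (lam : (Fin d → ℤ) → (Fin d → ℤ)) (hlam : ∀ k ∈ S, lam k ∈ T ∧ ∀ i, |k i - lam k i| ≤ 1)
    (E : (Fin d → ℤ) → ℝ → ℂ) (hE : ∀ k, Measurable (E k)) {KK : ℝ≥0∞} (h : HT ν T E p KK) :
    HT ν S (fun k t => E (lam k) t) p (((box d 1).card : ℝ≥0∞) ^ p * KK) := by
  classical
  intro c
  have hp0 : 0 < p := by linarith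
  obtain ⟨X, hX⟩ : ∃ X : ℝ≥0∞, X = ∑ k ∈ S, ‖c k‖ₑ ^ 2 := ⟨_, rfl⟩
  obtain ⟨c', hc'⟩ : ∃ c' : (Fin d → ℤ) → (Fin d → ℤ) → ℂ, c' = fun e l =>
    if l + e ∈ S ∧ lam (l + e) = l then c (l + e) else 0 := ⟨_, rfl⟩
  rw [← hX]
  have e1 : ∀ t y, tri S iz (fun k => c k * E (lam k) t) y =
      ∑ e ∈ box d 1, ec (dt (iz e) y) * tri T iz (fun l => c' e l * E l t) y := by
    intro t y
    unfold tri
    have hmap : ∀ k ∈ S, k - lam k ∈ box d 1 := by
      intro k hk
      rw [mem_box]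
      intro i
      simpa using (hlam k hk).2 i
    rw [← Finset.sum_fiberwise_of_maps_to hmap]
    apply Finset.sum_congr rfl
    intro e _
    rw [Finset.mul_sum]
    have e2 : ∀ l ∈ T, ec (dt (iz e) y) * (c' e l * E l t * ec (dt (iz l) y)) =
        if l + e ∈ S ∧ lam (l + e) = l then c (l + e) * E (lam (l + e)) t *
          ec (dt (iz (l + e)) y) else 0 := by
      intro l _
      rw [hc']
      simp only
      split_ifs with hl
      · have h3 : ec (dt (iz (l + e)) y) = ec (dt (iz l) y) * ec (dt (iz e) y) := by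
          rw [← ec_add]
          congr 1
          unfold dt iz
          rw [← Finset.sum_add_distrib]
          apply Finset.sum_congr rfl
          intro i _
          rw [Pi.add_apply]
          push_cast
          ring
        rw [h3, hl.2]
        ring
      · ring
    rw [Finset.sum_congr rfl e2, ← Finset.sum_filter]
    symm
    apply Finset.sum_bij (fun l _ => l + e)
    · intro l hl
      rw [Finset.mem_filter] at hl ⊢
      refine ⟨hl.2.1, ?_⟩
      rw [hl.2.2]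
      simp
    · intro a _ b _ hab
      simpa using hab
    · intro k hk
      rw [Finset.mem_filter] at hk
      have h4 : lam k + e = k := by
        rw [← hk.2]
        simp
      refine ⟨lam k, ?_, h4⟩
      rw [Finset.mem_filter, h4]
      exact ⟨(hlam k hk.1).1, hk.1, rfl⟩
    · intro l _
      rfl
  have e3 : ∀ e, ∑ l ∈ T, ‖c' e l‖ₑ ^ 2 ≤ X := by
    intro e
    have e4 : ∀ l ∈ T, ‖c' e l‖ₑ ^ 2 = if l + e ∈ S ∧ lam (l + e) = l then ‖c (l + e)‖ₑ ^ 2 else 0 := by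
      intro l _
      rw [hc']
      simp only
      split_ifs <;> simp
    rw [Finset.sum_congr rfl e4, ← Finset.sum_filter]
    have e5 : ∑ l ∈ T.filter (fun l => l + e ∈ S ∧ lam (l + e) = l), ‖c (l + e)‖ₑ ^ 2 =
        ∑ k ∈ (T.filter (fun l => l + e ∈ S ∧ lam (l + e) = l)).image (fun l => l + e), ‖c k‖ₑ ^ 2 := by
      rw [Finset.sum_image]
      intro a _ b _ hab
      simpa using hab
    rw [e5]
    rw [hX]
    apply Finset.sum_le_sum_of_subset
    intro k hk
    rw [Finset.mem_image] at hk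
    obtain ⟨l, hl, rfl⟩ := hk
    exact (Finset.mem_filter.mp hl).2.1
  have e5 : ∀ t y, ‖tri S iz (fun k => c k * E (lam k) t) y‖ₑ ≤
      ∑ e ∈ box d 1, ‖tri T iz (fun l => c' e l * E l t) y‖ₑ := by
    intro t y
    rw [e1]
    refine (enorm_sum_le _ _).trans (Finset.sum_le_sum fun e _ => ?_)
    rw [enorm_mul, ec_enorm, one_mul]
  have h2 := many_bd (box d 1) ν (fun t y => ‖tri S iz (fun k => c k * E (lam k) t) y‖ₑ)
    (fun e t y => ‖tri T iz (fun l => c' e l * E l t) y‖ₑ) (fun e => tri_jm T (c' e) E hE) p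
    (by linarith) e5 (KK * X ^ (p / 2)) (fun e _ => by
      refine (h fun l => c' e l).trans ?_
      gcongr
      exact e3 e)
  refine h2.trans (le_of_eq ?_)
  ring

end Pool.Agent.Q89.WS
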