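import Pool.Agent.Q89.WS.M
import Pool.Agent.Q89.AS.A
set_option autoImplicit false

/-! Summation over the dyadic shells. -/

namespace Pool.Agent.Q89.WS

open MeasureTheory Set Complex Filter Topology
open scoped ENNReal NNReal
open Pool.Agent.Y183.LS (ec ec_norm ec_enorm ec_add ec_cont ec_zero ec_sum dt dt_add dt_comm dt_cont
  dt_cont2 iz dt_add_left HC HC_meas tri tri_cont parseval_unit convex_sum QQ HC_eq QQ_vol)

variable {d : ℕ}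

/-- growth of the trigonometric polynomials with spectrum in `L` -/
def Gr (L : Set (Fin d → ℤ)) (p κ B : ℝ) : Prop := ∀ R : ℝ, 1 ≤ R → ∀ T : Finset (Fin d → ℤ),
  (∀ l ∈ T, l ∈ L ∧ nrm (iz l) ≤ R) →
  HT (volume.restrict (Icc (1 : ℝ) 2)) T (fun k t => ec (nrm (iz k) * t)) p
    (ENNReal.ofReal (B * R ^ κ) ^ p)

/-- the shells -/
noncomputable def Sh (d : ℕ) : ℕ → Finset (Fin d → ℤ)
  | 0 => box d 1
  | j + 1 => box d (2 ^ (j + 1)) \ box d (2 ^ j)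

lemma box_mono {a b : ℕ} (h : a ≤ b) : box d a ⊆ box d b := by
  intro k hk
  rw [mem_box] at hk ⊢
  intro i
  have h1 : (a : ℤ) ≤ b := by exact_mod_cast h
  exact (hk i).trans h1

lemma Sh_box (j : ℕ) : Sh d j ⊆ box d (2 ^ j) := by
  cases j with
  | zero => exact box_mono (by norm_num)
  | succ j => exact Finset.sdiff_subset

lemma Sh_sum {E : Type*} [AddCommMonoid E] (F : (Fin d → ℤ) → E) (J : ℕ) :
    ∑ k ∈ box d (2 ^ J), F k = ∑ j ∈ Finset.range (J + 1), ∑ k ∈ Sh d j, F k := by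
  induction J with
  | zero => simp [Sh]
  | succ J ih =>
    rw [Finset.sum_range_succ, ← ih]
    have h : box d (2 ^ J) ⊆ box d (2 ^ (J + 1)) :=
      box_mono (Nat.pow_le_pow_right (by norm_num) (by omega))
    exact (Finset.sum_sdiff h).symm.trans (add_comm _ _)

lemma box_nrm {N : ℕ} {k : Fin d → ℤ} (hk : k ∈ box d N) : nrm (iz k) ≤ d * N := by
  have h1 := nq_box hk
  rw [← nrm_sq] at h1
  have hd : (d : ℝ) ≤ (d : ℝ) ^ 2 := by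
    rcases Nat.eq_zero_or_pos d with h | h
    · rw [h]
      norm_num
    · have : (1 : ℝ) ≤ d := by exact_mod_cast h
      nlinarith
  have h2 : nrm (iz k) ^ 2 ≤ (d * (N : ℝ)) ^ 2 := by
    rw [mul_pow]
    refine h1.trans ?_
    gcongr
  exact le_of_sq_le_sq h2 (by positivity)

lemma iz_sub (k l : Fin d → ℤ) : iz k - iz l = iz (k - l) := by
  ext i
  simp [iz]

lemma Sh_pow {s : ℝ} (hs : 0 ≤ s) {j : ℕ} {k : Fin d → ℤ} (hk : k ∈ Sh d j) :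
    (1 + nq (iz k)) ^ (-s / 2) ≤ 2 ^ s * ((2 : ℝ) ^ j) ^ (-s) := by
  have h0 := nq_nonneg (iz k)
  cases j with
  | zero =>
    rw [pow_zero, Real.one_rpow, mul_one]
    refine (Real.rpow_le_one_of_one_le_of_nonpos (by linarith) (by linarith)).trans ?_
    exact Real.one_le_rpow (by norm_num) hs
  | succ j =>
    simp only [Sh] at hk
    rw [Finset.mem_sdiff] at hk
    have h1 := nq_not_box hk.2
    push_cast at h1
    have h2 : (1 + nq (iz k)) ^ (-s / 2) ≤ (((2 : ℝ) ^ j) ^ 2) ^ (-s / 2) := by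
      apply Real.rpow_le_rpow_of_nonpos (by positivity) (by linarith) (by linarith)
    refine h2.trans (le_of_eq ?_)
    rw [← Real.rpow_natCast ((2 : ℝ) ^ j) 2, ← Real.rpow_mul (by positivity), pow_succ,
      Real.mul_rpow (by positivity) (by norm_num)]
    have e1 : ((2 : ℕ) : ℝ) * (-s / 2) = -s := by
      push_cast
      ring
    rw [e1]
    have e2 : (2 : ℝ) ^ s * 2 ^ (-s) = 1 := by
      rw [← Real.rpow_add (by norm_num)]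
      simp
    calc ((2 : ℝ) ^ j) ^ (-s) = ((2 : ℝ) ^ s * 2 ^ (-s)) * ((2 : ℝ) ^ j) ^ (-s) := by
          rw [e2, one_mul]
      _ = _ := by ring

section
attribute [local irreducible] U HT

/-- one shell -/
lemma shell_est (n : ℕ) (s p κ B : ℝ) (hs : 0 ≤ s) (hp : 2 ≤ p) (hκ : 0 ≤ κ) (hB : 0 ≤ B)
    {y z : ℝ → ℂ → ℂ} (hy : Pair s y z) :
    ∃ C : ℝ≥0, ∀ L : Set (Fin (n + 1) → ℤ), Gr L p κ B →
      ∀ f : (Fin (n + 1) → ℝ) → ℂ, Measurable f → Integrable f → Spec L f → ∀ j : ℕ,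
      ∫⁻ t in Icc (1 : ℝ) 2, (∫⁻ x, ‖∑ k ∈ Sh (n + 1) j, U y f k t x‖ₑ ^ p) ≤
      C * (ENNReal.ofReal (2 ^ (κ - s)) ^ j) ^ p * ∫⁻ x, ‖f x‖ₑ ^ p := by
  classical
  have hp0 : 0 < p := by linarith
  obtain ⟨C, hC⟩ := finite_est n s p (1 + (n + 1 : ℕ)) hs hp (by positivity) hy
  obtain ⟨Nc, hNc⟩ : ∃ Nc : ℕ, Nc = (box (n + 1) 1).card := ⟨_, rfl⟩
  obtain ⟨c1, hc1⟩ : ∃ c1 : ℝ, c1 = B * (2 * (n + 1 : ℕ)) ^ κ := ⟨_, rfl⟩
  have hc10 : 0 ≤ c1 := by rw [hc1]; positivity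
  obtain ⟨c2, hc2⟩ : ∃ c2 : ℝ≥0, c2 = (Nc : ℝ≥0) ^ p * (2 ^ (p - 1) * (c1.toNNReal ^ p + 2 ^ p)) :=
    ⟨_, rfl⟩
  refine ⟨C * c2 * ((2 : ℝ) ^ s).toNNReal ^ p, ?_⟩
  intro L hL f hfm hf hsp j
  -- the neighbours
  have hch : ∀ k : Fin (n + 1) → ℤ, ∃ l : Fin (n + 1) → ℤ, Nb L k → l ∈ L ∧ ∀ i, |k i - l i| ≤ 1 := by
    intro k
    by_cases h : Nb L k
    · obtain ⟨l, hl, h1⟩ := h
      exact ⟨l, fun _ => ⟨hl, h1⟩⟩
    · exact ⟨0, fun h' => absurd h' h⟩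
  choose lam hlam using hch
  obtain ⟨S, hS⟩ : ∃ S : Finset (Fin (n + 1) → ℤ), S = (Sh (n + 1) j).filter fun k => Nb L k :=
    ⟨_, rfl⟩
  have hSm : ∀ k ∈ S, k ∈ Sh (n + 1) j ∧ Nb L k := fun k hk => by
    rw [hS, Finset.mem_filter] at hk
    exact hk
  have e1 : ∀ t x, ∑ k ∈ Sh (n + 1) j, U y f k t x = ∑ k ∈ S, U y f k t x := by
    intro t x
    rw [hS, Finset.sum_filter_of_ne]
    intro k _ hk
    by_contra hc
    exact hk (U_zero hsp y hc t x)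
  simp only [e1]
  obtain ⟨T, hT⟩ : ∃ T : Finset (Fin (n + 1) → ℤ), T = S.image lam := ⟨_, rfl⟩
  have hnrm1 : ∀ k ∈ S, nrm (iz k - iz (lam k)) ≤ (n + 1 : ℕ) := by
    intro k hk
    rw [iz_sub]
    have h1 : k - lam k ∈ box (n + 1) 1 := by
      rw [mem_box]
      intro i
      simpa using (hlam k (hSm k hk).2).2 i
    have := box_nrm h1
    simpa using this
  have hnrm2 : ∀ k ∈ S, nrm (iz k) ≤ (n + 1 : ℕ) * 2 ^ j := by
    intro k hk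
    have := box_nrm (Sh_box j (hSm k hk).1)
    push_cast at this ⊢
    exact this
  have h2j : (1 : ℝ) ≤ 2 ^ j := one_le_pow₀ (by norm_num)
  have hTL : ∀ l ∈ T, l ∈ L ∧ nrm (iz l) ≤ 2 * (n + 1 : ℕ) * 2 ^ j := by
    intro l hl
    rw [hT, Finset.mem_image] at hl
    obtain ⟨k, hk, rfl⟩ := hl
    refine ⟨(hlam k (hSm k hk).2).1, ?_⟩
    have h1 := nrm_sub (iz k) (iz (lam k))
    have h2 := hnrm1 k hk
    have h3 := hnrm2 k hk
    have h4 := (abs_le.mp h1).1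
    have h5 : (1 : ℝ) ≤ (n + 1 : ℕ) := by
      push_cast
      have : (0 : ℝ) ≤ n := Nat.cast_nonneg n
      linarith
    nlinarith
  have hR : (1 : ℝ) ≤ 2 * (n + 1 : ℕ) * 2 ^ j := by
    have h5 : (1 : ℝ) ≤ (n + 1 : ℕ) := by
      push_cast
      have : (0 : ℝ) ≤ n := Nat.cast_nonneg n
      linarith
    nlinarith
  have g1 := hL _ hR T hTL
  have g2 := HT_om hp g1
  have g3 := HT_nb hp S T lam (fun k hk => ⟨by rw [hT]; exact Finset.mem_image_of_mem _ hk,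
    (hlam k (hSm k hk).2).2⟩) (fun k t => ec (om k * t))
    (fun k => (ec_cont.comp (by fun_prop)).measurable) g2
  obtain ⟨KK, hKK⟩ : ∃ KK : ℝ≥0∞, KK = ((box (n + 1) 1).card : ℝ≥0∞) ^ p * (2 ^ (p - 1) *
    (ENNReal.ofReal (B * (2 * (n + 1 : ℕ) * 2 ^ j) ^ κ) ^ p + 2 ^ p)) := ⟨_, rfl⟩
  rw [← hKK] at g3
  have g4 := hC S (fun k => om (lam k)) (fun k hk => by
    refine ⟨le_max_left _ _, ?_⟩
    have h1 := nrm_sub (iz k) (iz (lam k))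
    have h2 := hnrm1 k hk
    have h4 := abs_le.mp (h1.trans h2)
    have h5 := nrm_nonneg (iz (lam k))
    have h6 : om (lam k) ≤ 1 + nrm (iz (lam k)) := max_le (by linarith) (by linarith)
    have h7 : nrm (iz (lam k)) ≤ om (lam k) := le_max_right _ _
    rw [abs_le]
    constructor <;> linarith [h4.1, h4.2]) KK
    (fun σ hσ => by
      have := HT_sign (ω := fun k => om (lam k)) g3 σ hσ
      exact this) f hfm hf (2 ^ s * ((2 : ℝ) ^ j) ^ (-s)) (by positivity)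
    (fun k hk => Sh_pow hs (hSm k hk).1)
  refine g4.trans ?_
  -- the constants
  have hq : (1 : ℝ) ≤ ((2 : ℝ) ^ j) ^ κ := Real.one_le_rpow h2j hκ
  have e2 : B * (2 * (n + 1 : ℕ) * 2 ^ j) ^ κ = c1 * ((2 : ℝ) ^ j) ^ κ := by
    rw [hc1, Real.mul_rpow (by positivity) (by positivity)]
    ring
  have e3 : KK ≤ (c2 : ℝ≥0∞) * ENNReal.ofReal (((2 : ℝ) ^ j) ^ κ) ^ p := by
    rw [hc2, hKK, e2, ENNReal.ofReal_mul hc10, ENNReal.mul_rpow_of_nonneg _ _ hp0.le, ← hNc]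
    have h1 : (1 : ℝ≥0∞) ≤ ENNReal.ofReal (((2 : ℝ) ^ j) ^ κ) ^ p := by
      apply ENNReal.one_le_rpow _ hp0
      rw [← ENNReal.ofReal_one]
      exact ENNReal.ofReal_le_ofReal hq
    have h2 : (2 : ℝ≥0∞) ^ p ≤ 2 ^ p * ENNReal.ofReal (((2 : ℝ) ^ j) ^ κ) ^ p := by
      calc (2 : ℝ≥0∞) ^ p = 2 ^ p * 1 := (mul_one _).symm
        _ ≤ _ := by gcongr
    calc (Nc : ℝ≥0∞) ^ p * (2 ^ (p - 1) * (ENNReal.ofReal c1 ^ p *
        ENNReal.ofReal (((2 : ℝ) ^ j) ^ κ) ^ p + 2 ^ p)) ≤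
        (Nc : ℝ≥0∞) ^ p * (2 ^ (p - 1) * (ENNReal.ofReal c1 ^ p *
        ENNReal.ofReal (((2 : ℝ) ^ j) ^ κ) ^ p + 2 ^ p * ENNReal.ofReal (((2 : ℝ) ^ j) ^ κ) ^ p)) := by
          gcongr
      _ = _ := by
        rw [ENNReal.coe_mul, ENNReal.coe_mul, ENNReal.coe_add,
          ENNReal.coe_rpow_of_nonneg _ hp0.le, ENNReal.coe_rpow_of_nonneg _ hp0.le,
          ENNReal.coe_rpow_of_nonneg _ (by linarith : 0 ≤ p - 1),
          ENNReal.coe_rpow_of_nonneg _ hp0.le]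
        push_cast
        rw [ENNReal.ofReal]
        ring
  have e4 : ENNReal.ofReal (((2 : ℝ) ^ j) ^ κ) * ENNReal.ofReal (((2 : ℝ) ^ j) ^ (-s)) =
      ENNReal.ofReal (2 ^ (κ - s)) ^ j := by
    rw [← ENNReal.ofReal_mul (by positivity), ← Real.rpow_add (by positivity),
      ← ENNReal.ofReal_pow (by positivity)]
    congr 1
    rw [← Real.rpow_natCast (2 : ℝ) j, ← Real.rpow_natCast, ← Real.rpow_mul (by norm_num),
      ← Real.rpow_mul (by norm_num)]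
    congr 1
    ring
  have e5 : ENNReal.ofReal (2 ^ s * ((2 : ℝ) ^ j) ^ (-s)) =
      ((((2 : ℝ) ^ s).toNNReal : ℝ≥0) : ℝ≥0∞) * ENNReal.ofReal (((2 : ℝ) ^ j) ^ (-s)) := by
    rw [ENNReal.ofReal_mul (by positivity)]
    rfl
  calc (C : ℝ≥0∞) * KK * ENNReal.ofReal (2 ^ s * ((2 : ℝ) ^ j) ^ (-s)) ^ p * ∫⁻ x, ‖f x‖ₑ ^ p ≤
      (C : ℝ≥0∞) * ((c2 : ℝ≥0∞) * ENNReal.ofReal (((2 : ℝ) ^ j) ^ κ) ^ p) *
        ENNReal.ofReal (2 ^ s * ((2 : ℝ) ^ j) ^ (-s)) ^ p * ∫⁻ x, ‖f x‖ₑ ^ p := by gcongr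
    _ = _ := by
      rw [← e4, e5, ENNReal.mul_rpow_of_nonneg _ _ hp0.le, ENNReal.mul_rpow_of_nonneg _ _ hp0.le,
        ENNReal.coe_mul, ENNReal.coe_mul, ENNReal.coe_rpow_of_nonneg _ hp0.le]
      ring

end

lemma W_meas {s : ℝ} {y z : ℝ → ℂ → ℂ} (hy : Pair s y z) {f : (Fin d → ℝ) → ℂ}
    (hf : Integrable f) : Measurable fun q : ℝ × (Fin d → ℝ) => W y f q.1 q.2 := by
  have g1 : Measurable fun r : (ℝ × (Fin d → ℝ)) × (Fin d → ℝ) => ec (dt r.1.2 r.2) :=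
    ecdt_meas (by fun_prop) (by fun_prop)
  have g2 : Measurable fun r : (ℝ × (Fin d → ℝ)) × (Fin d → ℝ) => y r.1.1 (nq r.2) :=
    y_nq hy (by fun_prop) (by fun_prop)
  have g4 : Measurable fun r : (ℝ × (Fin d → ℝ)) × (Fin d → ℝ) => ft f r.2 :=
    (ft_cont hf).measurable.comp measurable_snd
  have h := (g1.mul (g2.mul g4)).stronglyMeasurable.integral_prod_right'
    (ν := (volume : Measure (Fin d → ℝ)))
  exact h.measurable

/-- summing the shells -/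
theorem W_est (n : ℕ) (s p κ B : ℝ) (hp : 2 ≤ p) (hκ : 0 ≤ κ) (hs : κ < s) (hB : 0 ≤ B)
    {y z : ℝ → ℂ → ℂ} (hy : Pair s y z) :
    ∃ C : ℝ≥0, ∀ L : Set (Fin (n + 1) → ℤ), Gr L p κ B →
      ∀ f : (Fin (n + 1) → ℝ) → ℂ, Measurable f → Integrable f → Spec L f →
      (Integrable fun ξ => ((Jr ξ ^ (-s / 2) : ℝ) : ℂ) * ft f ξ) →
      ∫⁻ t in Icc (1 : ℝ) 2, (∫⁻ x, ‖W y f t x‖ₑ ^ p) ≤ C * ∫⁻ x, ‖f x‖ₑ ^ p := by
  have hp0 : 0 < p := by linarith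
  have hs0 : 0 ≤ s := by linarith
  obtain ⟨C, hC⟩ := shell_est n s p κ B hs0 hp hκ hB hy
  obtain ⟨r, hr⟩ : ∃ r : ℝ≥0∞, r = ENNReal.ofReal (2 ^ (κ - s)) := ⟨_, rfl⟩
  have hr1 : r < 1 := by
    rw [hr, ← ENNReal.ofReal_one]
    apply (ENNReal.ofReal_lt_ofReal_iff one_pos).mpr
    exact Real.rpow_lt_one_of_one_lt_of_neg (by norm_num) (by linarith)
  have hr2 : (1 - r)⁻¹ ≠ ⊤ := by
    rw [ENNReal.inv_ne_top]
    exact (tsub_pos_of_lt hr1).ne'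
  obtain ⟨g, hg⟩ : ∃ g : ℝ≥0, (g : ℝ≥0∞) = (1 - r)⁻¹ := ⟨_, ENNReal.coe_toNNReal hr2⟩
  refine ⟨C * g ^ p, ?_⟩
  intro L hL f hfm hf hsp hi
  obtain ⟨ρ, hρ⟩ : ∃ ρ : Measure (ℝ × (Fin (n + 1) → ℝ)),
    ρ = (volume.restrict (Icc (1 : ℝ) 2)).prod volume := ⟨_, rfl⟩
  obtain ⟨F, hF⟩ : ∃ F : ℕ → ℝ × (Fin (n + 1) → ℝ) → ℂ, F = fun j q =>
    ∑ k ∈ Sh (n + 1) j, U y f k q.1 q.2 := ⟨_, rfl⟩
  have mF : ∀ j, Measurable (F j) := by
    intro j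
    rw [hF]
    exact Finset.measurable_sum _ fun k _ => U_meas hy hf k
  obtain ⟨X, hX⟩ : ∃ X : ℝ≥0∞, X = ∫⁻ x, ‖f x‖ₑ ^ p := ⟨_, rfl⟩
  have e1 : ∀ j, eLpNorm (F j) (ENNReal.ofReal p) ρ ≤ ((C : ℝ≥0∞) * X) ^ (1 / p) * r ^ j := by
    intro j
    have h1 := hC L hL f hfm hf hsp j
    rw [← hr, ← hX] at h1
    have h2 : ∫⁻ q, ‖F j q‖ₑ ^ p ∂ρ = ∫⁻ t in Icc (1 : ℝ) 2,
        (∫⁻ x, ‖∑ k ∈ Sh (n + 1) j, U y f k t x‖ₑ ^ p) := by
      rw [hρ, lintegral_prod _ ((mF j).enorm.pow_const p).aemeasurable, hF]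
    rw [← h2, AS.lint_eLp ρ p hp0] at h1
    rw [← ENNReal.rpow_le_rpow_iff hp0]
    refine h1.trans (le_of_eq ?_)
    rw [ENNReal.mul_rpow_of_nonneg _ _ hp0.le, ← ENNReal.rpow_mul, one_div_mul_cancel hp0.ne',
      ENNReal.rpow_one]
    ring
  have e2 : ∀ J, eLpNorm (fun q => ∑ k ∈ box (n + 1) (2 ^ J), U y f k q.1 q.2) (ENNReal.ofReal p) ρ ≤
      ((C : ℝ≥0∞) * X) ^ (1 / p) * g := by
    intro J
    have h1 : (fun q : ℝ × (Fin (n + 1) → ℝ) => ∑ k ∈ box (n + 1) (2 ^ J), U y f k q.1 q.2) =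
        ∑ j ∈ Finset.range (J + 1), F j := by
      ext q
      rw [Sh_sum (fun k => U y f k q.1 q.2) J, Finset.sum_apply, hF]
    rw [h1]
    have h2 : (1 : ℝ≥0∞) ≤ ENNReal.ofReal p := by
      rw [← ENNReal.ofReal_one]
      exact ENNReal.ofReal_le_ofReal (by linarith)
    refine (eLpNorm_sum_le (fun j _ => (mF j).aestronglyMeasurable) h2).trans ?_
    calc ∑ j ∈ Finset.range (J + 1), eLpNorm (F j) (ENNReal.ofReal p) ρ ≤
        ∑ j ∈ Finset.range (J + 1), ((C : ℝ≥0∞) * X) ^ (1 / p) * r ^ j :=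
          Finset.sum_le_sum fun j _ => e1 j
      _ = ((C : ℝ≥0∞) * X) ^ (1 / p) * ∑ j ∈ Finset.range (J + 1), r ^ j := by
          rw [Finset.mul_sum]
      _ ≤ ((C : ℝ≥0∞) * X) ^ (1 / p) * g := by
          gcongr
          rw [hg, ← ENNReal.tsum_geometric]
          exact ENNReal.sum_le_tsum _
  have e3 : eLpNorm (fun q : ℝ × (Fin (n + 1) → ℝ) => W y f q.1 q.2) (ENNReal.ofReal p) ρ ≤
      ((C : ℝ≥0∞) * X) ^ (1 / p) * g := by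
    refine (Lp.eLpNorm_lim_le_liminf_eLpNorm
      (f := fun J q => ∑ k ∈ box (n + 1) (2 ^ J), U y f k q.1 q.2) ?_ _ ?_).trans ?_
    · intro J
      exact (Finset.measurable_sum _ fun k _ => U_meas hy hf k).aestronglyMeasurable
    · have h2 : ∀ᵐ q : ℝ × (Fin (n + 1) → ℝ) ∂ρ, q.1 ∈ Icc (1 : ℝ) 2 := by
        rw [hρ]
        have h3 : ∀ᵐ r : ℝ ∂(volume.restrict (Icc (1 : ℝ) 2)), r ∈ Icc (1 : ℝ) 2 :=
          ae_restrict_mem measurableSet_Icc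
        exact Measure.quasiMeasurePreserving_fst.ae h3
      filter_upwards [h2] with q hq
      exact U_tendsto hs0 hy hf hi hq.1 hq.2 q.2
    · exact liminf_le_of_le (by isBoundedDefault) fun b hb => by
        obtain ⟨J, hJ⟩ := hb.exists
        exact hJ.trans (e2 J)
  have e4 : ∫⁻ t in Icc (1 : ℝ) 2, (∫⁻ x, ‖W y f t x‖ₑ ^ p) =
      ∫⁻ q, ‖W y f q.1 q.2‖ₑ ^ p ∂ρ := by
    rw [hρ, lintegral_prod _ ((W_meas hy hf).enorm.pow_const p).aemeasurable]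
  rw [e4, AS.lint_eLp ρ p hp0 (fun q : ℝ × (Fin (n + 1) → ℝ) => W y f q.1 q.2)]
  refine (ENNReal.rpow_le_rpow e3 hp0.le).trans (le_of_eq ?_)
  rw [ENNReal.mul_rpow_of_nonneg _ _ hp0.le, ← ENNReal.rpow_mul, one_div_mul_cancel hp0.ne',
    ENNReal.rpow_one, ENNReal.coe_mul, ENNReal.coe_rpow_of_nonneg _ hp0.le, hX]
  ring

end Pool.Agent.Q89.WS
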