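import Pool.Agent.Q89.WS.N
import Pool.Agent.Y183.LS.N
set_option autoImplicit false

/-! Averaging in time. -/

namespace Pool.Agent.Q89.WS

open MeasureTheory Set Complex Filter Topology
open scoped ENNReal NNReal
open Pool.Agent.Y183.LS (ec ec_norm ec_enorm ec_add ec_cont ec_zero ec_sum dt dt_add dt_comm dt_cont
  dt_cont2 iz dt_add_left HC HC_meas tri tri_cont parseval_unit convex_sum QQ HC_eq QQ_vol)

variable {d : ℕ}

/-- the weight in time -/
noncomputable def th (v : ℝ) : ℝ := ‖kr w0 v‖ ^ 2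

lemma th_nonneg (v : ℝ) : 0 ≤ th v := sq_nonneg _

lemma th_cont : Continuous th := by
  have := kr_cont w0 w0_cd.continuous
  unfold th
  fun_prop

lemma th_int : Integrable th := by
  obtain ⟨C, hC, h⟩ := kr_bound w0 w0_cd
  refine (inv_sq_int.const_mul (C ^ 2)).mono' th_cont.aestronglyMeasurable ?_
  filter_upwards with v
  rw [Real.norm_of_nonneg (th_nonneg v)]
  unfold th
  have h1 : ‖kr w0 v‖ ≤ C * (1 + v ^ 2)⁻¹ := by
    rw [← div_eq_mul_inv]
    exact h v
  have h2 : (0 : ℝ) < (1 + v ^ 2)⁻¹ := by positivity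
  have h3 : (1 + v ^ 2)⁻¹ ≤ (1 : ℝ) := inv_le_one_of_one_le₀ (by nlinarith [sq_nonneg v])
  calc ‖kr w0 v‖ ^ 2 ≤ (C * (1 + v ^ 2)⁻¹) ^ 2 := pow_le_pow_left₀ (norm_nonneg _) h1 2
    _ = C ^ 2 * ((1 + v ^ 2)⁻¹ * (1 + v ^ 2)⁻¹) := by ring
    _ ≤ C ^ 2 * (1 * (1 + v ^ 2)⁻¹) := by gcongr
    _ = _ := by ring

lemma ec_re (x : ℝ) : (ec x).re = Real.cos (2 * Real.pi * x) := by
  unfold ec
  have : (2 * Real.pi * I * (x : ℂ)) = ((2 * Real.pi * x : ℝ) : ℂ) * I := by
    push_cast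
    ring
  rw [this, Complex.exp_ofReal_mul_I_re]

lemma th_low {v : ℝ} (hv : |v| ≤ 1 / 8) : 1 / 4 ≤ th v := by
  have hcos : ∫ η in (-1 : ℝ)..1, Real.cos (Real.pi / 2 * η) = 4 / Real.pi := by
    rw [intervalIntegral.integral_comp_mul_left (fun x => Real.cos x)
      (by positivity : Real.pi / 2 ≠ 0), integral_cos]
    have e1 : Real.pi / 2 * -1 = -(Real.pi / 2) := by ring
    rw [mul_one, e1, Real.sin_neg, Real.sin_pi_div_two, smul_eq_mul]
    field_simp
    norm_num
  have h1 : (kr w0 v).re = ∫ η in (-1 : ℝ)..1, Real.cos (Real.pi / 2 * η) *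
      Real.cos (2 * Real.pi * (v * η)) := by
    rw [kr_eq]
    have hi : IntervalIntegrable (fun η : ℝ => ((Real.cos (Real.pi / 2 * η) * w0 η : ℝ) : ℂ) *
        ec (v * η)) volume (-1) 1 := by
      apply Continuous.intervalIntegrable
      have := ec_cont
      unfold w0
      fun_prop
    rw [show (∫ η in (-1 : ℝ)..1, ((Real.cos (Real.pi / 2 * η) * w0 η : ℝ) : ℂ) *
        ec (v * η)).re = Complex.reCLM (∫ η in (-1 : ℝ)..1, ((Real.cos (Real.pi / 2 * η) *
          w0 η : ℝ) : ℂ) * ec (v * η)) from rfl,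
      ← ContinuousLinearMap.intervalIntegral_comp_comm _ hi]
    apply intervalIntegral.integral_congr
    intro η _
    simp only [Complex.reCLM_apply]
    rw [Complex.re_ofReal_mul, ec_re]
    unfold w0
    rw [mul_one]
  have h2 : (1 / 2 : ℝ) ≤ (kr w0 v).re := by
    rw [h1]
    have h3 : ∫ η in (-1 : ℝ)..1, Real.cos (Real.pi / 2 * η) * (1 / 2) ≤
        ∫ η in (-1 : ℝ)..1, Real.cos (Real.pi / 2 * η) * Real.cos (2 * Real.pi * (v * η)) := by
      apply intervalIntegral.integral_mono_on (by norm_num)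
      · apply Continuous.intervalIntegrable
        fun_prop
      · apply Continuous.intervalIntegrable
        fun_prop
      · intro η hη
        have hpi := Real.pi_pos
        apply mul_le_mul_of_nonneg_left
        · have h4 : |2 * Real.pi * (v * η)| ≤ Real.pi / 3 := by
            rw [abs_mul (2 * Real.pi), abs_of_pos (by positivity : (0 : ℝ) < 2 * Real.pi), abs_mul v]
            have h5 : |η| ≤ 1 := abs_le.mpr ⟨hη.1, hη.2⟩
            have h6 : |v| * |η| ≤ 1 / 8 * 1 := by gcongr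
            nlinarith
          rw [← Real.cos_abs, ← Real.cos_pi_div_three]
          apply Real.cos_le_cos_of_nonneg_of_le_pi (abs_nonneg _) (by linarith) h4
        · apply Real.cos_nonneg_of_mem_Icc
          constructor <;> nlinarith [hη.1, hη.2]
    rw [intervalIntegral.integral_mul_const, hcos] at h3
    refine le_trans ?_ h3
    have := Real.pi_lt_four
    have hpi := Real.pi_pos
    rw [div_mul_eq_mul_div, le_div_iff₀ hpi]
    linarith
  unfold th
  have h7 : (1 / 2 : ℝ) ≤ ‖kr w0 v‖ := h2.trans ((le_abs_self _).trans (Complex.abs_re_le_norm _))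
  nlinarith

lemma kr_star (v : ℝ) : (starRingEnd ℂ) (kr w0 v) = ∫ η in (-1 : ℝ)..1, (b1 η : ℂ) * ec (-(v * η)) := by
  unfold kr
  rw [intervalIntegral.integral_of_le (by norm_num), intervalIntegral.integral_of_le (by norm_num),
    ← integral_conj]
  congr 1
  ext η
  rw [map_mul, Complex.conj_ofReal, ec_conj]
  unfold w0
  rw [mul_one]

/-- the transform of the weight vanishes off a compact interval -/
lemma th_ft {μ : ℝ} (hμ : 2 ≤ |μ|) : ∫ v, (th v : ℂ) * ec (v * μ) = 0 := by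
  have hkm := (kr_cont w0 w0_cd.continuous)
  have e1 : ∀ v : ℝ, (th v : ℂ) * ec (v * μ) =
      ∫ η in Ioc (-1 : ℝ) 1, (b1 η : ℂ) * (ec (-(v * (η - μ))) * kr w0 v) := by
    intro v
    have h1 : (th v : ℂ) = kr w0 v * (starRingEnd ℂ) (kr w0 v) := by
      rw [Complex.mul_conj, Complex.normSq_eq_norm_sq]
      rfl
    rw [h1, kr_star, intervalIntegral.integral_of_le (by norm_num), mul_right_comm,
      ← integral_const_mul]
    congr 1
    ext η
    have h2 : ec (-(v * (η - μ))) = ec (v * μ) * ec (-(v * η)) := by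
      rw [← ec_add]
      congr 1
      ring
    rw [h2]
    ring
  simp only [e1]
  rw [integral_integral_swap]
  · apply integral_eq_zero_of_ae
    filter_upwards with η
    rw [integral_const_mul, kr_ft w0 w0_cd (η - μ)]
    by_cases h : 1 ≤ |η|
    · rw [b1_out h]
      simp
    · push Not at h
      have h3 : 1 ≤ |η - μ| := by
        have := abs_sub_abs_le_abs_sub μ η
        rw [abs_sub_comm] at this
        linarith
      rw [b1_out h3]
      simp
  · have hfin : IsFiniteMeasure (volume.restrict (Ioc (-1 : ℝ) 1)) := by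
      refine ⟨?_⟩
      rw [Measure.restrict_apply_univ, Real.volume_Ioc]
      exact ENNReal.ofReal_lt_top
    have h1 : Integrable (fun q : ℝ × ℝ => ‖kr w0 q.1‖ * 1) (volume.prod
      (volume.restrict (Ioc (-1 : ℝ) 1))) := (kr_int w0 w0_cd).norm.mul_prod (integrable_const (1 : ℝ))
    refine h1.mono' ?_ ?_
    · apply Continuous.aestronglyMeasurable
      have := b1_cont
      have := ec_cont
      unfold Function.uncurry
      fun_prop
    · filter_upwards with q
      unfold Function.uncurry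
      rw [norm_mul, norm_mul, ec_norm, one_mul, Complex.norm_real, mul_one]
      have h4 : ‖b1 q.2‖ ≤ 1 := b1_abs _
      nlinarith [norm_nonneg (kr w0 q.1)]

/-- **the large sieve in time** -/
lemma sieve : ∃ C : ℝ, 0 < C ∧ ∀ (P : Finset ((Fin d → ℤ) × (Fin d → ℤ)))
    (μ : (Fin d → ℤ) × (Fin d → ℤ) → ℝ) (a : (Fin d → ℤ) × (Fin d → ℤ) → ℂ) (M : ℝ),
    (∀ w ∈ P, ((P.filter fun w' => |μ w - μ w'| ≤ 1).card : ℝ) ≤ M) →
    ∫ t in (1 : ℝ)..2, ‖∑ w ∈ P, a w * ec (μ w * t)‖ ^ 2 ≤ C * M * ∑ w ∈ P, ‖a w‖ ^ 2 := by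
  classical
  obtain ⟨C0, hC0⟩ : ∃ C0 : ℝ, C0 = ∫ v, th v := ⟨_, rfl⟩
  have hC00 : 0 ≤ C0 := by
    rw [hC0]
    exact integral_nonneg th_nonneg
  refine ⟨16 * C0 + 1, by linarith, ?_⟩
  intro P μ a M hM
  obtain ⟨G, hG⟩ : ∃ G : ℝ → ℂ, G = fun t => ∑ w ∈ P, a w * ec (μ w * t) := ⟨_, rfl⟩
  have hGc : Continuous G := by
    rw [hG]
    have := ec_cont
    fun_prop
  have hGb : ∀ t, ‖G t‖ ≤ ∑ w ∈ P, ‖a w‖ := by
    intro t
    rw [hG]
    refine (norm_sum_le _ _).trans (le_of_eq ?_)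
    apply Finset.sum_congr rfl
    intro w _
    rw [norm_mul, ec_norm, mul_one]
  have e1 : ∫ t in (1 : ℝ)..2, ‖G t‖ ^ 2 =
      4 * ∫ v in (-(1 / 8) : ℝ)..(1 / 8), ‖G (4 * v + 3 / 2)‖ ^ 2 := by
    rw [intervalIntegral.integral_comp_mul_add (fun t => ‖G t‖ ^ 2) (by norm_num : (4 : ℝ) ≠ 0)]
    norm_num
    ring
  have hi : Integrable fun v => th v * ‖G (4 * v + 3 / 2)‖ ^ 2 := by
    refine (th_int.mul_const ((∑ w ∈ P, ‖a w‖) ^ 2)).mono' ?_ ?_
    · apply Continuous.aestronglyMeasurable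
      have := th_cont
      fun_prop
    · filter_upwards with v
      rw [norm_mul, Real.norm_of_nonneg (th_nonneg v), norm_pow, norm_norm]
      exact mul_le_mul_of_nonneg_left (pow_le_pow_left₀ (norm_nonneg _) (hGb _) 2) (th_nonneg v)
  have e2 : ∫ v in (-(1 / 8) : ℝ)..(1 / 8), ‖G (4 * v + 3 / 2)‖ ^ 2 ≤
      4 * ∫ v, th v * ‖G (4 * v + 3 / 2)‖ ^ 2 := by
    calc ∫ v in (-(1 / 8) : ℝ)..(1 / 8), ‖G (4 * v + 3 / 2)‖ ^ 2 ≤
        ∫ v in (-(1 / 8) : ℝ)..(1 / 8), 4 * (th v * ‖G (4 * v + 3 / 2)‖ ^ 2) := by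
          apply intervalIntegral.integral_mono_on (by norm_num)
          · apply Continuous.intervalIntegrable
            fun_prop
          · apply Continuous.intervalIntegrable
            have := th_cont
            fun_prop
          · intro v hv
            have h1 := th_low (v := v) (abs_le.mpr ⟨hv.1, hv.2⟩)
            nlinarith [sq_nonneg ‖G (4 * v + 3 / 2)‖]
      _ = 4 * ∫ v in Ioc (-(1 / 8) : ℝ) (1 / 8), th v * ‖G (4 * v + 3 / 2)‖ ^ 2 := by
          rw [intervalIntegral.integral_const_mul, intervalIntegral.integral_of_le (by norm_num)]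
      _ ≤ _ := by
          apply mul_le_mul_of_nonneg_left _ (by norm_num)
          apply setIntegral_le_integral hi
          filter_upwards with v
          exact mul_nonneg (th_nonneg v) (sq_nonneg _)
  have e3 : ∀ v : ℝ, ((th v * ‖G (4 * v + 3 / 2)‖ ^ 2 : ℝ) : ℂ) = ∑ w ∈ P, ∑ w' ∈ P,
      a w * (starRingEnd ℂ) (a w') * ec ((μ w - μ w') * (3 / 2)) *
        ((th v : ℂ) * ec (v * (4 * (μ w - μ w')))) := by
    intro v
    have h1 : ((‖G (4 * v + 3 / 2)‖ ^ 2 : ℝ) : ℂ) =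
        G (4 * v + 3 / 2) * (starRingEnd ℂ) (G (4 * v + 3 / 2)) := by
      rw [Complex.mul_conj, Complex.normSq_eq_norm_sq]
    rw [Complex.ofReal_mul, h1, hG]
    simp only
    rw [map_sum, Finset.sum_mul_sum, Finset.mul_sum]
    apply Finset.sum_congr rfl
    intro w _
    rw [Finset.mul_sum]
    apply Finset.sum_congr rfl
    intro w' _
    rw [map_mul, ec_conj]
    have h2 : ec ((μ w - μ w') * (3 / 2)) * ec (v * (4 * (μ w - μ w'))) =
        ec (μ w * (4 * v + 3 / 2)) * ec (-(μ w' * (4 * v + 3 / 2))) := by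
      rw [← ec_add, ← ec_add]
      congr 1
      ring
    linear_combination (-(th v : ℂ) * a w * (starRingEnd ℂ) (a w')) * h2
  have ie : ∀ μ : ℝ, Integrable fun v => (th v : ℂ) * ec (v * μ) := by
    intro μ
    refine th_int.mono ?_ ?_
    · apply Continuous.aestronglyMeasurable
      have := th_cont
      have := ec_cont
      fun_prop
    · filter_upwards with v
      rw [norm_mul, ec_norm, mul_one, Complex.norm_real]
  have nb : ∀ μ : ℝ, ‖∫ v, (th v : ℂ) * ec (v * μ)‖ ≤ C0 := by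
    intro μ
    refine (norm_integral_le_integral_norm _).trans (le_of_eq ?_)
    rw [hC0]
    congr 1
    ext v
    rw [norm_mul, ec_norm, mul_one, Complex.norm_real, Real.norm_of_nonneg (th_nonneg v)]
  have e4 : ((∫ v, th v * ‖G (4 * v + 3 / 2)‖ ^ 2 : ℝ) : ℂ) = ∑ w ∈ P, ∑ w' ∈ P,
      a w * (starRingEnd ℂ) (a w') * ec ((μ w - μ w') * (3 / 2)) *
        ∫ v, (th v : ℂ) * ec (v * (4 * (μ w - μ w'))) := by
    rw [← integral_complex_ofReal]
    simp only [e3]
    rw [integral_finsetSum _ fun w _ => integrable_finsetSum _ fun w' _ => (ie _).const_mul _]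
    apply Finset.sum_congr rfl
    intro w _
    rw [integral_finsetSum _ fun w' _ => (ie _).const_mul _]
    apply Finset.sum_congr rfl
    intro w' _
    rw [integral_const_mul]
  have e5 : ∫ v, th v * ‖G (4 * v + 3 / 2)‖ ^ 2 ≤ C0 * M * ∑ w ∈ P, ‖a w‖ ^ 2 := by
    have h0 : ∫ v, th v * ‖G (4 * v + 3 / 2)‖ ^ 2 ≤
        ‖((∫ v, th v * ‖G (4 * v + 3 / 2)‖ ^ 2 : ℝ) : ℂ)‖ := by
      rw [Complex.norm_real]
      exact le_abs_self _
    refine h0.trans ?_
    rw [e4]
    calc ‖∑ w ∈ P, ∑ w' ∈ P, a w * (starRingEnd ℂ) (a w') * ec ((μ w - μ w') * (3 / 2)) *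
        ∫ v, (th v : ℂ) * ec (v * (4 * (μ w - μ w')))‖ ≤
        ∑ w ∈ P, ∑ w' ∈ P, if |μ w - μ w'| ≤ 1 then C0 * ((‖a w‖ ^ 2 + ‖a w'‖ ^ 2) / 2) else 0 := by
          refine (norm_sum_le _ _).trans (Finset.sum_le_sum fun w _ => ?_)
          refine (norm_sum_le _ _).trans (Finset.sum_le_sum fun w' _ => ?_)
          split_ifs with h
          · rw [norm_mul, norm_mul, norm_mul, ec_norm, mul_one, RCLike.norm_conj]
            have h1 := nb (4 * (μ w - μ w'))
            have h2 : ‖a w‖ * ‖a w'‖ ≤ (‖a w‖ ^ 2 + ‖a w'‖ ^ 2) / 2 := by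
              nlinarith [sq_nonneg (‖a w‖ - ‖a w'‖)]
            calc ‖a w‖ * ‖a w'‖ * ‖∫ v, (th v : ℂ) * ec (v * (4 * (μ w - μ w')))‖ ≤
                ‖a w‖ * ‖a w'‖ * C0 := by gcongr
              _ ≤ ((‖a w‖ ^ 2 + ‖a w'‖ ^ 2) / 2) * C0 := by gcongr
              _ = _ := by ring
          · push Not at h
            rw [th_ft, mul_zero, norm_zero]
            rw [abs_mul, abs_of_pos (by norm_num : (0 : ℝ) < 4)]
            linarith
      _ = C0 / 2 * (∑ w ∈ P, ∑ w' ∈ P, (if |μ w - μ w'| ≤ 1 then ‖a w‖ ^ 2 else 0)) +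
          C0 / 2 * (∑ w ∈ P, ∑ w' ∈ P, (if |μ w - μ w'| ≤ 1 then ‖a w'‖ ^ 2 else 0)) := by
          rw [Finset.mul_sum, Finset.mul_sum, ← Finset.sum_add_distrib]
          apply Finset.sum_congr rfl
          intro w _
          rw [Finset.mul_sum, Finset.mul_sum, ← Finset.sum_add_distrib]
          apply Finset.sum_congr rfl
          intro w' _
          split_ifs <;> ring
      _ = C0 * ∑ w ∈ P, ∑ w' ∈ P, (if |μ w - μ w'| ≤ 1 then ‖a w‖ ^ 2 else 0) := by
          have h1 : ∑ w ∈ P, ∑ w' ∈ P, (if |μ w - μ w'| ≤ 1 then ‖a w'‖ ^ 2 else 0) =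
              ∑ w ∈ P, ∑ w' ∈ P, (if |μ w - μ w'| ≤ 1 then ‖a w‖ ^ 2 else 0) := by
            rw [Finset.sum_comm]
            apply Finset.sum_congr rfl
            intro w _
            apply Finset.sum_congr rfl
            intro w' _
            rw [abs_sub_comm]
          rw [h1]
          ring
      _ ≤ C0 * ∑ w ∈ P, M * ‖a w‖ ^ 2 := by
          apply mul_le_mul_of_nonneg_left _ hC00
          apply Finset.sum_le_sum
          intro w hw
          rw [← Finset.sum_filter, Finset.sum_const, nsmul_eq_mul]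
          exact mul_le_mul_of_nonneg_right (hM w hw) (sq_nonneg _)
      _ = _ := by
          rw [← Finset.mul_sum]
          ring
  have hX : 0 ≤ ∑ w ∈ P, ‖a w‖ ^ 2 := Finset.sum_nonneg fun _ _ => sq_nonneg _
  have hMX : 0 ≤ M * ∑ w ∈ P, ‖a w‖ ^ 2 := by
    rw [Finset.mul_sum]
    apply Finset.sum_nonneg
    intro w hw
    exact mul_nonneg ((Nat.cast_nonneg _).trans (hM w hw)) (sq_nonneg _)
  have e6 : ∫ t in (1 : ℝ)..2, ‖∑ w ∈ P, a w * ec (μ w * t)‖ ^ 2 = ∫ t in (1 : ℝ)..2, ‖G t‖ ^ 2 := by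
    rw [hG]
  rw [e6, e1]
  nlinarith

end Pool.Agent.Q89.WS
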