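import Pool.Agent.Q89.WS.O
set_option autoImplicit false

/-! The multiplicity hypothesis. -/

namespace Pool.Agent.Q89.WS

open MeasureTheory Set Complex Filter Topology
open scoped ENNReal NNReal
open Pool.Agent.Y183.LS (ec ec_norm ec_enorm ec_add ec_cont ec_zero ec_sum dt dt_add dt_comm dt_cont
  dt_cont2 iz dt_add_left HC HC_meas tri tri_cont parseval_unit convex_sum QQ HC_eq QQ_vol)

variable {d : ℕ}

lemma sieve' : ∃ C : ℝ≥0, ∀ (P : Finset ((Fin d → ℤ) × (Fin d → ℤ)))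
    (μ : (Fin d → ℤ) × (Fin d → ℤ) → ℝ) (a : (Fin d → ℤ) × (Fin d → ℤ) → ℂ) (M : ℝ),
    (∀ w ∈ P, ((P.filter fun w' => |μ w - μ w'| ≤ 1).card : ℝ) ≤ M) →
    ∫⁻ t in Icc (1 : ℝ) 2, ‖∑ w ∈ P, a w * ec (μ w * t)‖ₑ ^ 2 ≤
      C * ENNReal.ofReal M * ∑ w ∈ P, ‖a w‖ₑ ^ 2 := by
  obtain ⟨C, hC, h⟩ := sieve (d := d)
  refine ⟨C.toNNReal, ?_⟩
  intro P μ a M hM
  have h1 := h P μ a M hM
  have hc : Continuous fun t : ℝ => ‖∑ w ∈ P, a w * ec (μ w * t)‖ ^ 2 := by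
    have := ec_cont
    fun_prop
  have e1 : ∫⁻ t in Icc (1 : ℝ) 2, ‖∑ w ∈ P, a w * ec (μ w * t)‖ₑ ^ 2 =
      ENNReal.ofReal (∫ t in (1 : ℝ)..2, ‖∑ w ∈ P, a w * ec (μ w * t)‖ ^ 2) := by
    rw [intervalIntegral.integral_of_le (by norm_num), ← integral_Icc_eq_integral_Ioc,
      ofReal_integral_eq_lintegral_ofReal (hc.continuousOn.integrableOn_compact isCompact_Icc)
        (Filter.Eventually.of_forall fun t => sq_nonneg _)]
    congr 1
    ext t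
    rw [← ofReal_norm, ENNReal.ofReal_pow (norm_nonneg _)]
  rw [e1]
  have hX : 0 ≤ ∑ w ∈ P, ‖a w‖ ^ 2 := Finset.sum_nonneg fun _ _ => sq_nonneg _
  have e2 : ∑ w ∈ P, ‖a w‖ₑ ^ 2 = ENNReal.ofReal (∑ w ∈ P, ‖a w‖ ^ 2) := by
    rw [ENNReal.ofReal_sum_of_nonneg fun _ _ => sq_nonneg _]
    apply Finset.sum_congr rfl
    intro w _
    rw [← ofReal_norm, ENNReal.ofReal_pow (norm_nonneg _)]
  have e3 : (C.toNNReal : ℝ≥0∞) = ENNReal.ofReal C := rfl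
  rw [e2, e3, ← ENNReal.ofReal_mul hC.le, ← ENNReal.ofReal_mul' hX]
  exact ENNReal.ofReal_le_ofReal h1

lemma tri_sq' (F : Finset (Fin d → ℤ)) (c : (Fin d → ℤ) → ℂ) (v : Fin d → ℝ) :
    tri F iz c v ^ 2 = tri ((F ×ˢ F).image fun w => w.1 + w.2) iz
      (fun n => ∑ w ∈ (F ×ˢ F).filter (fun w => w.1 + w.2 = n), c w.1 * c w.2) v := by
  have h1 : ∀ k l : Fin d → ℤ, dt (iz (k + l)) v = dt (iz k) v + dt (iz l) v := by
    intro k l
    unfold dt iz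
    rw [← Finset.sum_add_distrib]
    apply Finset.sum_congr rfl
    intro i _
    rw [Pi.add_apply]
    push_cast
    ring
  have h2 : tri F iz c v ^ 2 = ∑ w ∈ F ×ˢ F, c w.1 * c w.2 * ec (dt (iz (w.1 + w.2)) v) := by
    unfold tri
    rw [sq, Finset.sum_mul_sum, Finset.sum_product]
    apply Finset.sum_congr rfl
    intro k _
    apply Finset.sum_congr rfl
    intro l _
    rw [h1, ec_add]
    ring
  rw [h2]
  unfold tri
  rw [← Finset.sum_fiberwise_of_maps_to (t := (F ×ˢ F).image fun w => w.1 + w.2)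
    (g := fun w => w.1 + w.2) (fun w hw => Finset.mem_image_of_mem _ hw)]
  apply Finset.sum_congr rfl
  intro n _
  rw [Finset.sum_mul]
  apply Finset.sum_congr rfl
  intro w hw
  rw [(Finset.mem_filter.mp hw).2]

/-- **the fourth power** -/
lemma fourth : ∃ C : ℝ≥0, ∀ (T : Finset (Fin d → ℤ)) (ω : (Fin d → ℤ) → ℝ) (M : ℝ),
    (∀ (n : Fin d → ℤ) (τ : ℝ), (((T ×ˢ T).filter fun w => w.1 + w.2 = n ∧
      |ω w.1 + ω w.2 - τ| ≤ 1).card : ℝ) ≤ M) → ∀ c : (Fin d → ℤ) → ℂ,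
    ∫⁻ t in Icc (1 : ℝ) 2, (∫⁻ y in HC d, ‖tri T iz (fun k => c k * ec (ω k * t)) y‖ₑ ^ 4) ≤
      C * ENNReal.ofReal M * (∑ k ∈ T, ‖c k‖ₑ ^ 2) ^ 2 := by
  obtain ⟨C, hC⟩ := sieve' (d := d)
  refine ⟨C, ?_⟩
  intro T ω M hM c
  obtain ⟨I, hI⟩ : ∃ I : Finset (Fin d → ℤ), I = (T ×ˢ T).image fun w => w.1 + w.2 := ⟨_, rfl⟩
  have e1 : ∀ t : ℝ, ∫⁻ y in HC d, ‖tri T iz (fun k => c k * ec (ω k * t)) y‖ₑ ^ 4 =
      ∑ n ∈ I, ‖∑ w ∈ (T ×ˢ T).filter (fun w => w.1 + w.2 = n),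
        c w.1 * c w.2 * ec ((ω w.1 + ω w.2) * t)‖ₑ ^ 2 := by
    intro t
    have e2 : ∀ y, ‖tri T iz (fun k => c k * ec (ω k * t)) y‖ₑ ^ 4 =
        ‖tri I iz (fun n => ∑ w ∈ (T ×ˢ T).filter (fun w => w.1 + w.2 = n),
        c w.1 * ec (ω w.1 * t) * (c w.2 * ec (ω w.2 * t))) y‖ₑ ^ 2 := by
      intro y
      have h := tri_sq' T (fun k => c k * ec (ω k * t)) y
      rw [hI, ← h, enorm_pow, ← pow_mul]
    simp only [e2]
    rw [parseval_unit]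
    apply Finset.sum_congr rfl
    intro n _
    congr 2
    apply Finset.sum_congr rfl
    intro w _
    rw [add_mul, ec_add]
    ring
  simp only [e1]
  rw [lintegral_finsetSum]
  · have e3 : ∀ n ∈ I, ∫⁻ t in Icc (1 : ℝ) 2, ‖∑ w ∈ (T ×ˢ T).filter (fun w => w.1 + w.2 = n),
        c w.1 * c w.2 * ec ((ω w.1 + ω w.2) * t)‖ₑ ^ 2 ≤ C * ENNReal.ofReal M *
        ∑ w ∈ (T ×ˢ T).filter (fun w => w.1 + w.2 = n), ‖c w.1‖ₑ ^ 2 * ‖c w.2‖ₑ ^ 2 := by
      intro n _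
      have h := hC ((T ×ˢ T).filter (fun w => w.1 + w.2 = n)) (fun w => ω w.1 + ω w.2)
        (fun w => c w.1 * c w.2) M (fun w _ => by
          refine le_trans ?_ (hM n (ω w.1 + ω w.2))
          rw [Finset.filter_filter]
          apply le_of_eq
          congr 2
          apply Finset.filter_congr
          intro w' _
          rw [abs_sub_comm])
      refine h.trans (le_of_eq ?_)
      congr 1
      apply Finset.sum_congr rfl
      intro w _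
      rw [enorm_mul, mul_pow]
    refine (Finset.sum_le_sum e3).trans (le_of_eq ?_)
    rw [← Finset.mul_sum, hI, Finset.sum_fiberwise_of_maps_to
      (fun w hw => Finset.mem_image_of_mem (fun w : (Fin d → ℤ) × (Fin d → ℤ) => w.1 + w.2) hw),
      Finset.sum_product, sq (∑ k ∈ T, ‖c k‖ₑ ^ 2), Finset.sum_mul_sum]
  · intro n _
    apply Measurable.pow_const
    apply Measurable.enorm
    apply Finset.measurable_sum
    intro w _
    exact measurable_const.mul (ec_cont.comp (by fun_prop)).measurable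

/-- between two and four -/
lemma HT_four : ∃ C : ℝ≥0, ∀ (T : Finset (Fin d → ℤ)) (ω : (Fin d → ℤ) → ℝ) (M : ℝ),
    (∀ (n : Fin d → ℤ) (τ : ℝ), (((T ×ˢ T).filter fun w => w.1 + w.2 = n ∧
      |ω w.1 + ω w.2 - τ| ≤ 1).card : ℝ) ≤ M) → ∀ p : ℝ, 2 ≤ p → p ≤ 4 →
    HT (volume.restrict (Icc (1 : ℝ) 2)) T (fun k t => ec (ω k * t)) p
      ((C * ENNReal.ofReal M) ^ ((p - 2) / 2)) := by
  obtain ⟨C, hC⟩ := fourth (d := d)
  refine ⟨C, ?_⟩
  intro T ω M hM p hp2 hp4 c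
  have h4 := hC T ω M hM c
  obtain ⟨ρ, hρ⟩ : ∃ ρ : Measure (ℝ × (Fin d → ℝ)),
    ρ = (volume.restrict (Icc (1 : ℝ) 2)).prod (volume.restrict (HC d)) := ⟨_, rfl⟩
  obtain ⟨F, hF⟩ : ∃ F : ℝ × (Fin d → ℝ) → ℝ≥0∞, F = fun q =>
    ‖tri T iz (fun k => c k * ec (ω k * q.1)) q.2‖ₑ := ⟨_, rfl⟩
  have hFm : Measurable F := by
    rw [hF]
    exact tri_jm T c (fun k t => ec (ω k * t)) fun k => (ec_cont.comp (by fun_prop)).measurable
  obtain ⟨X, hX⟩ : ∃ X : ℝ≥0∞, X = ∑ k ∈ T, ‖c k‖ₑ ^ 2 := ⟨_, rfl⟩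
  have g2 : ∫⁻ q, F q ^ 2 ∂ρ = X := by
    rw [hρ, lintegral_prod _ (hFm.pow_const 2).aemeasurable, hF]
    have e1 : ∀ t : ℝ, ∫⁻ y in HC d, ‖tri T iz (fun k => c k * ec (ω k * t)) y‖ₑ ^ 2 = X := by
      intro t
      rw [parseval_unit, hX]
      apply Finset.sum_congr rfl
      intro k _
      rw [enorm_mul, ec_enorm, mul_one]
    simp only [e1]
    rw [lintegral_const, Measure.restrict_apply_univ, Real.volume_Icc]
    norm_num
  have g4 : ∫⁻ q, F q ^ 4 ∂ρ ≤ C * ENNReal.ofReal M * X ^ 2 := by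
    rw [hρ, lintegral_prod _ (hFm.pow_const 4).aemeasurable, hF, hX]
    exact h4
  have gp : ∫⁻ t in Icc (1 : ℝ) 2, (∫⁻ y in HC d, ‖tri T iz (fun k => c k * ec (ω k * t)) y‖ₑ ^ p) =
      ∫⁻ q, F q ^ p ∂ρ := by
    rw [hρ, lintegral_prod _ (hFm.pow_const p).aemeasurable, hF]
  rw [gp, ← hX]
  have e2 : ∀ q, F q ^ p = (F q ^ 2) ^ ((4 - p) / 2) * (F q ^ 4) ^ ((p - 2) / 2) := by
    intro q
    rw [← ENNReal.rpow_natCast, ← ENNReal.rpow_natCast, ← ENNReal.rpow_mul, ← ENNReal.rpow_mul,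
      ← ENNReal.rpow_add_of_nonneg]
    · congr 1
      push_cast
      ring
    · push_cast
      linarith
    · push_cast
      linarith
  simp only [e2]
  refine (ENNReal.lintegral_mul_norm_pow_le (hFm.pow_const 2).aemeasurable
    (hFm.pow_const 4).aemeasurable (by linarith) (by linarith) (by ring)).trans ?_
  rw [g2]
  calc X ^ ((4 - p) / 2) * (∫⁻ q, F q ^ 4 ∂ρ) ^ ((p - 2) / 2) ≤
      X ^ ((4 - p) / 2) * (C * ENNReal.ofReal M * X ^ 2) ^ ((p - 2) / 2) := by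
        gcongr
    _ = (C * ENNReal.ofReal M) ^ ((p - 2) / 2) * (X ^ ((4 - p) / 2) * X ^ (2 * ((p - 2) / 2))) := by
        rw [ENNReal.mul_rpow_of_nonneg _ _ (by linarith : 0 ≤ (p - 2) / 2), ← ENNReal.rpow_natCast X 2,
          ← ENNReal.rpow_mul]
        push_cast
        ring
    _ = _ := by
        rw [← ENNReal.rpow_add_of_nonneg _ _ (by linarith) (by linarith)]
        congr 2
        ring

/-- the multiplicity hypothesis -/
def Mul (L : Set (Fin d → ℤ)) (β A : ℝ) : Prop := ∀ R : ℝ, 1 ≤ R → ∀ (n : Fin d → ℤ) (τ : ℝ)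
  (P : Finset (Fin d → ℤ)), (∀ k ∈ P, k ∈ L ∧ n - k ∈ L ∧ nrm (iz k) ≤ R ∧ nrm (iz (n - k)) ≤ R ∧
    |nrm (iz k) + nrm (iz (n - k)) - τ| ≤ 1) → (P.card : ℝ) ≤ A * R ^ β

lemma Gr_of_Mul (d : ℕ) {β A : ℝ} (hA : 0 ≤ A) {p : ℝ}
    (hp2 : 2 ≤ p) (hp4 : p ≤ 4) : ∃ B : ℝ, 0 ≤ B ∧ ∀ L : Set (Fin d → ℤ), Mul L β A →
      Gr L p (β * (1 / 2 - 1 / p)) B := by
  classical
  obtain ⟨C, hC⟩ := HT_four (d := d)
  have hp0 : 0 < p := by linarith
  have hCA : 0 ≤ C * A := by positivity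
  refine ⟨(C * A) ^ ((p - 2) / 2 / p), by positivity, ?_⟩
  intro L h R hR T hT
  have hM : ∀ (n : Fin d → ℤ) (τ : ℝ), (((T ×ˢ T).filter fun w => w.1 + w.2 = n ∧
      |nrm (iz w.1) + nrm (iz w.2) - τ| ≤ 1).card : ℝ) ≤ A * R ^ β := by
    intro n τ
    have hinj : Set.InjOn (fun w : (Fin d → ℤ) × (Fin d → ℤ) => w.1)
        ((T ×ˢ T).filter fun w => w.1 + w.2 = n ∧ |nrm (iz w.1) + nrm (iz w.2) - τ| ≤ 1) := by
      intro a ha b hb hab
      rw [Finset.mem_coe, Finset.mem_filter] at ha hb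
      simp only at hab
      apply Prod.ext hab
      have h1 := ha.2.1
      have h2 := hb.2.1
      rw [← h2, hab] at h1
      exact add_left_cancel h1
    rw [← Finset.card_image_of_injOn hinj]
    apply h R hR n τ
    intro k hk
    rw [Finset.mem_image] at hk
    obtain ⟨w, hw, rfl⟩ := hk
    rw [Finset.mem_filter, Finset.mem_product] at hw
    obtain ⟨⟨h1, h2⟩, h3, h4⟩ := hw
    have h5 : n - w.1 = w.2 := by
      rw [← h3]
      abel
    rw [h5]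
    exact ⟨(hT _ h1).1, (hT _ h2).1, (hT _ h1).2, (hT _ h2).2, h4⟩
  have g := hC T (fun k => nrm (iz k)) (A * R ^ β) hM p hp2 hp4
  have e : ENNReal.ofReal ((C * A) ^ ((p - 2) / 2 / p) * R ^ (β * (1 / 2 - 1 / p))) ^ p =
      (C * ENNReal.ofReal (A * R ^ β)) ^ ((p - 2) / 2) := by
    have hR0 : 0 < R := by linarith
    have e1 : (C : ℝ≥0∞) * ENNReal.ofReal (A * R ^ β) = ENNReal.ofReal (C * A * R ^ β) := by
      rw [mul_assoc, ENNReal.ofReal_mul (by positivity : (0 : ℝ) ≤ C), ENNReal.ofReal_coe_nnreal]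
    rw [e1, ENNReal.ofReal_rpow_of_nonneg (by positivity) (by linarith),
      ENNReal.ofReal_rpow_of_nonneg (by positivity) (by linarith)]
    congr 1
    obtain ⟨cA, hcA⟩ : ∃ x : ℝ, x = C * A := ⟨_, rfl⟩
    rw [← hcA] at hCA ⊢
    rw [Real.mul_rpow (by positivity) (by positivity), Real.mul_rpow (by positivity) (by positivity),
      ← Real.rpow_mul (by positivity), ← Real.rpow_mul (by positivity), ← Real.rpow_mul (by positivity)]
    congr 2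
    · field_simp
    · field_simp
  rw [e]
  exact g

end Pool.Agent.Q89.WS
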