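import Pool.Agent.Q89.WS.Q
set_option autoImplicit false

/-! The estimate for the solution of the wave equation. -/

namespace Pool.Agent.Q89.WS

open MeasureTheory Set Complex Filter Topology
open scoped ENNReal NNReal
open Pool.Agent.Y183.LS (ec ec_norm ec_enorm ec_add ec_cont ec_zero ec_sum dt dt_add dt_comm dt_cont
  dt_cont2 iz dt_add_left HC HC_meas tri tri_cont parseval_unit convex_sum QQ HC_eq QQ_vol)

variable {d : ℕ}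

/-- the solution -/
noncomputable def wv (s : ℝ) (f₀ f₁ : (Fin d → ℝ) → ℂ) (t : ℝ) (x : Fin d → ℝ) : ℂ :=
  ∫ ξ, ec (dt x ξ) * (((Real.cos (2 * Real.pi * t * nrm ξ) * Jr ξ ^ (-s / 2) : ℝ) : ℂ) * ft f₀ ξ +
    ((Real.sin (2 * Real.pi * t * nrm ξ) / (2 * Real.pi * nrm ξ) * Jr ξ ^ ((1 - s) / 2) : ℝ) : ℂ) *
      ft f₁ ξ)

lemma jw_real (a : ℝ) (ξ : Fin d → ℝ) : jw (nq ξ) ^ (a : ℂ) = ((Jr ξ ^ a : ℝ) : ℂ) := by
  have h : jw (nq ξ) = ((Jr ξ : ℝ) : ℂ) := by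
    unfold jw Jr
    push_cast
    ring
  rw [h, Complex.ofReal_cpow (Jr_pos ξ).le]

lemma y0_real (s t : ℝ) (ξ : Fin d → ℝ) : y0 s t (nq ξ) =
    ((Real.cos (2 * Real.pi * t * nrm ξ) * Jr ξ ^ (-s / 2) : ℝ) : ℂ) := by
  unfold y0
  rw [jw_real, Cc_real t _ (nq_nonneg ξ), ← Complex.ofReal_cos, ← Complex.ofReal_mul]
  rfl

lemma y1_real (s t : ℝ) {ξ : Fin d → ℝ} (hξ : ξ ≠ 0) : y1 s t (nq ξ) =
    ((Real.sin (2 * Real.pi * t * nrm ξ) / (2 * Real.pi * nrm ξ) * Jr ξ ^ ((1 - s) / 2) : ℝ) : ℂ) := by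
  unfold y1
  have h0 : nrm ξ ≠ 0 := by
    rw [nrm_eq]
    rw [norm_ne_zero_iff]
    intro h
    apply hξ
    have := congrArg (fun v : EuclideanSpace ℝ (Fin d) => v.ofLp) h
    simpa using this
  have h1 : (2 * (Real.pi : ℂ) * (nrm ξ : ℂ)) ≠ 0 := by
    have : (2 * Real.pi * nrm ξ : ℝ) ≠ 0 := by
      have := Real.pi_ne_zero
      positivity
    exact_mod_cast this
  have h2 := Sc_real t _ (nq_nonneg ξ)
  have h3 : Sc t (nq ξ) = ((Real.sin (2 * Real.pi * t * nrm ξ) / (2 * Real.pi * nrm ξ) : ℝ) : ℂ) := by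
    push_cast
    rw [eq_div_iff h1, mul_comm]
    rw [show Real.sqrt (nq ξ) = nrm ξ from rfl] at h2
    rw [h2]
    push_cast
    rfl
  rw [jw_real, h3, Complex.ofReal_mul]

lemma W_int {s : ℝ} {y z : ℝ → ℂ → ℂ} (hy : Pair s y z) {n : ℕ}
    {f : (Fin (n + 1) → ℝ) → ℂ} (hf : Integrable f)
    (hi : Integrable fun ξ => ((Jr ξ ^ (-s / 2) : ℝ) : ℂ) * ft f ξ) {t : ℝ} (ht1 : 1 ≤ t)
    (ht2 : t ≤ 2) (x : Fin (n + 1) → ℝ) :
    Integrable fun ξ => ec (dt x ξ) * (y t (nq ξ) * ft f ξ) := by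
  obtain ⟨C, hC, h⟩ := y_bd hy n
  refine (hi.norm.const_mul C).mono' ?_ ?_
  · have my : Measurable fun ξ : Fin (n + 1) → ℝ => y t (nq ξ) :=
      y_nq hy measurable_const measurable_id
    have me : Measurable fun ξ : Fin (n + 1) → ℝ => ec (dt x ξ) :=
      ecdt_meas measurable_const measurable_id
    exact (me.mul (my.mul (ft_cont hf).measurable)).aestronglyMeasurable
  · filter_upwards with ξ
    rw [norm_mul, ec_norm, one_mul, norm_mul, norm_mul, Complex.norm_real,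
      Real.norm_of_nonneg (Real.rpow_nonneg (Jr_pos ξ).le _)]
    have h1 := h t ht1 ht2 ξ
    calc ‖y t (nq ξ)‖ * ‖ft f ξ‖ ≤ (C * Jr ξ ^ (-s / 2)) * ‖ft f ξ‖ := by gcongr
      _ = _ := by ring

lemma wv_eq {s : ℝ} {n : ℕ} {f₀ f₁ : (Fin (n + 1) → ℝ) → ℂ} (h0 : Integrable f₀)
    (h1 : Integrable f₁) (i0 : Integrable fun ξ => ((Jr ξ ^ (-s / 2) : ℝ) : ℂ) * ft f₀ ξ)
    (i1 : Integrable fun ξ => ((Jr ξ ^ (-s / 2) : ℝ) : ℂ) * ft f₁ ξ) {t : ℝ} (ht1 : 1 ≤ t)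
    (ht2 : t ≤ 2) (x : Fin (n + 1) → ℝ) :
    wv s f₀ f₁ t x = W (y0 s) f₀ t x + W (y1 s) f₁ t x := by
  unfold W wv
  rw [← integral_add (W_int (pair0 s) h0 i0 ht1 ht2 x) (W_int (pair1 s) h1 i1 ht1 ht2 x)]
  apply integral_congr_ae
  have hae : ∀ᵐ ξ : Fin (n + 1) → ℝ, ξ ≠ 0 := by
    rw [ae_iff]
    simp
  filter_upwards [hae] with ξ hξ
  rw [y0_real, y1_real s t hξ]
  ring

/-- admissible data -/
def Adm (s : ℝ) (L : Set (Fin d → ℤ)) (f : (Fin d → ℝ) → ℂ) : Prop :=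
  Integrable f ∧ (Integrable fun ξ => ((Jr ξ ^ (-s / 2) : ℝ) : ℂ) * ft f ξ) ∧ Spec L f

lemma ft_congr {f g : (Fin d → ℝ) → ℂ} (h : f =ᵐ[volume] g) : ft f = ft g := by
  ext ξ
  unfold ft
  apply integral_congr_ae
  filter_upwards [h] with x hx
  rw [hx]

section
attribute [local irreducible] W ft

/-- **transference for the wave equation** -/
theorem wave_est (n : ℕ) (s p κ B : ℝ) (hp : 2 ≤ p) (hκ : 0 ≤ κ) (hs : κ < s) (hB : 0 ≤ B)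
    : ∃ C : ℝ≥0, ∀ L : Set (Fin (n + 1) → ℤ), Gr L p κ B → 
    ∀ f₀ f₁ : (Fin (n + 1) → ℝ) → ℂ, Adm s L f₀ → Adm s L f₁ →
    ∫⁻ t in Icc (1 : ℝ) 2, (∫⁻ x, ‖wv s f₀ f₁ t x‖ₑ ^ p) ≤
      C * ((∫⁻ x, ‖f₀ x‖ₑ ^ p) + ∫⁻ x, ‖f₁ x‖ₑ ^ p) := by
  have hp0 : 0 < p := by linarith
  have hp1 : 1 ≤ p := by linarith
  obtain ⟨C0, hC0⟩ := W_est n s p κ B hp hκ hs hB (pair0 s)
  obtain ⟨C1, hC1⟩ := W_est n s p κ B hp hκ hs hB (pair1 s)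
  -- from measurable to integrable functions
  have key : ∀ (L : Set (Fin (n + 1) → ℤ)) (y : ℝ → ℂ → ℂ) (C : ℝ≥0),
      (∀ f : (Fin (n + 1) → ℝ) → ℂ, Measurable f →
      Integrable f → Spec L f → (Integrable fun ξ => ((Jr ξ ^ (-s / 2) : ℝ) : ℂ) * ft f ξ) →
      ∫⁻ t in Icc (1 : ℝ) 2, (∫⁻ x, ‖W y f t x‖ₑ ^ p) ≤ C * ∫⁻ x, ‖f x‖ₑ ^ p) →
      ∀ f : (Fin (n + 1) → ℝ) → ℂ, Adm s L f →
      ∫⁻ t in Icc (1 : ℝ) 2, (∫⁻ x, ‖W y f t x‖ₑ ^ p) ≤ C * ∫⁻ x, ‖f x‖ₑ ^ p := by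
    intro L y C h f hf
    obtain ⟨hf1, hf2, hf3⟩ := hf
    obtain ⟨g, hg⟩ : ∃ g : (Fin (n + 1) → ℝ) → ℂ, g = hf1.1.mk f := ⟨_, rfl⟩
    have hgm : Measurable g := by
      rw [hg]
      exact hf1.1.measurable_mk
    have hfg : f =ᵐ[volume] g := by
      rw [hg]
      exact hf1.1.ae_eq_mk
    have hft : ft f = ft g := ft_congr hfg
    have hW : ∀ t x, W y f t x = W y g t x := by
      intro t x
      unfold W
      rw [hft]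
    have hn : ∫⁻ x, ‖f x‖ₑ ^ p = ∫⁻ x, ‖g x‖ₑ ^ p := by
      apply lintegral_congr_ae
      filter_upwards [hfg] with x hx
      rw [hx]
    simp only [hW]
    rw [hn]
    refine h g hgm (hf1.congr hfg) ?_ ?_
    · intro ξ hξ
      apply hf3 ξ
      rwa [hft]
    · rw [← hft]
      exact hf2
  refine ⟨2 ^ (p - 1) * max C0 C1, ?_⟩
  intro L hL f₀ f₁ h0 h1
  have m0 := (W_meas (pair0 s) h0.1).enorm.pow_const p
  have m1 := (W_meas (pair1 s) h1.1).enorm.pow_const p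
  have e1 : ∀ t ∈ Icc (1 : ℝ) 2, ∫⁻ x, ‖wv s f₀ f₁ t x‖ₑ ^ p ≤
      2 ^ (p - 1) * ((∫⁻ x, ‖W (y0 s) f₀ t x‖ₑ ^ p) + ∫⁻ x, ‖W (y1 s) f₁ t x‖ₑ ^ p) := by
    intro t ht
    have mx : Measurable fun x => ‖W (y0 s) f₀ t x‖ₑ ^ p :=
      m0.comp (measurable_const.prodMk measurable_id)
    rw [← lintegral_add_left mx, ← lintegral_const_mul']
    · apply lintegral_mono
      intro x
      simp only
      rw [wv_eq h0.1 h1.1 h0.2.1 h1.2.1 ht.1 ht.2 x]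
      exact (ENNReal.rpow_le_rpow (enorm_add_le _ _) hp0.le).trans
        (ENNReal.rpow_add_le_mul_rpow_add_rpow _ _ hp1)
    · exact ENNReal.rpow_ne_top_of_nonneg (by linarith) (by norm_num)
  calc ∫⁻ t in Icc (1 : ℝ) 2, (∫⁻ x, ‖wv s f₀ f₁ t x‖ₑ ^ p) ≤
      ∫⁻ t in Icc (1 : ℝ) 2, (2 ^ (p - 1) * ((∫⁻ x, ‖W (y0 s) f₀ t x‖ₑ ^ p) +
        ∫⁻ x, ‖W (y1 s) f₁ t x‖ₑ ^ p)) := setLIntegral_mono' measurableSet_Icc e1
    _ = 2 ^ (p - 1) * ((∫⁻ t in Icc (1 : ℝ) 2, (∫⁻ x, ‖W (y0 s) f₀ t x‖ₑ ^ p)) +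
        ∫⁻ t in Icc (1 : ℝ) 2, (∫⁻ x, ‖W (y1 s) f₁ t x‖ₑ ^ p)) := by
        rw [lintegral_const_mul', lintegral_add_left m0.lintegral_prod_right']
        exact ENNReal.rpow_ne_top_of_nonneg (by linarith) (by norm_num)
    _ ≤ 2 ^ (p - 1) * (((max C0 C1 : ℝ≥0) : ℝ≥0∞) * (∫⁻ x, ‖f₀ x‖ₑ ^ p) +
        ((max C0 C1 : ℝ≥0) : ℝ≥0∞) * ∫⁻ x, ‖f₁ x‖ₑ ^ p) := by
        gcongr
        · refine (key L _ C0 (hC0 L hL) f₀ h0).trans ?_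
          gcongr
          exact le_max_left _ _
        · refine (key L _ C1 (hC1 L hL) f₁ h1).trans ?_
          gcongr
          exact le_max_right _ _
    _ = _ := by
        rw [ENNReal.coe_mul, ENNReal.coe_rpow_of_nonneg _ (by linarith : 0 ≤ p - 1)]
        push_cast
        ring

end

end Pool.Agent.Q89.WS
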