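import Pool.Agent.Q89.WS.R
set_option autoImplicit false

/-! Exponents above four. -/

namespace Pool.Agent.Q89.WS

open MeasureTheory Set Complex Filter Topology
open scoped ENNReal NNReal
open Pool.Agent.Y183.LS (ec ec_norm ec_enorm ec_add ec_cont ec_zero ec_sum dt dt_add dt_comm dt_cont
  dt_cont2 iz dt_add_left HC HC_meas tri tri_cont parseval_unit convex_sum QQ HC_eq QQ_vol)

variable {d : ℕ}

lemma high_gen (F : ℝ → (Fin d → ℝ) → ℝ≥0∞) (hF : Measurable fun q : ℝ × (Fin d → ℝ) => F q.1 q.2)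
    (K Q : ℝ≥0∞) (hK : ∀ t y, F t y ≤ K ^ (1 / 2 : ℝ))
    (hQ : ∫⁻ t in Icc (1 : ℝ) 2, (∫⁻ y in HC d, F t y ^ 4) ≤ Q) (p : ℝ) (hp : 4 ≤ p) :
    ∫⁻ t in Icc (1 : ℝ) 2, (∫⁻ y in HC d, F t y ^ p) ≤ K ^ ((p - 4) / 2) * Q := by
  have e2 : ∀ (t : ℝ) (y : Fin d → ℝ), F t y ^ p ≤ K ^ ((p - 4) / 2) * F t y ^ 4 := by
    intro t y
    have h6 := hK t y
    obtain ⟨v, hv⟩ : ∃ v : ℝ≥0∞, v = F t y := ⟨_, rfl⟩
    rw [← hv] at h6 ⊢
    have e3 : v ^ p = v ^ (p - 4) * v ^ 4 := by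
      rw [← ENNReal.rpow_natCast v 4, ← ENNReal.rpow_add_of_nonneg _ _ (by linarith) (by positivity)]
      congr 1
      push_cast
      ring
    rw [e3]
    gcongr
    refine (ENNReal.rpow_le_rpow h6 (by linarith : 0 ≤ p - 4)).trans (le_of_eq ?_)
    rw [← ENNReal.rpow_mul]
    congr 1
    ring
  have m1 : Measurable fun q : ℝ × (Fin d → ℝ) => F q.1 q.2 ^ 4 := hF.pow_const 4
  have m2 : ∀ t : ℝ, Measurable fun y : Fin d → ℝ => F t y ^ 4 := fun t =>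
    m1.comp (measurable_const.prodMk measurable_id)
  calc ∫⁻ t in Icc (1 : ℝ) 2, (∫⁻ y in HC d, F t y ^ p) ≤
      ∫⁻ t in Icc (1 : ℝ) 2, (∫⁻ y in HC d, K ^ ((p - 4) / 2) * F t y ^ 4) :=
        lintegral_mono fun t => lintegral_mono fun y => e2 t y
    _ = K ^ ((p - 4) / 2) * ∫⁻ t in Icc (1 : ℝ) 2, (∫⁻ y in HC d, F t y ^ 4) := by
        rw [← lintegral_const_mul _ m1.lintegral_prod_right']
        congr 1
        ext t
        rw [lintegral_const_mul _ (m2 t)]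
    _ ≤ _ := by gcongr

lemma tri_sup (T : Finset (Fin d → ℤ)) (ω : (Fin d → ℤ) → ℝ) (N : ℝ) (hN : (T.card : ℝ) ≤ N)
    (c : (Fin d → ℤ) → ℂ) (t : ℝ) (y : Fin d → ℝ) :
    ‖tri T iz (fun k => c k * ec (ω k * t)) y‖ₑ ≤
      (ENNReal.ofReal N * ∑ k ∈ T, ‖c k‖ₑ ^ 2) ^ (1 / 2 : ℝ) := by
  have h1 : ‖tri T iz (fun k => c k * ec (ω k * t)) y‖ₑ ≤ ∑ k ∈ T, ‖c k‖ₑ := by
    unfold tri
    refine (enorm_sum_le _ _).trans (le_of_eq ?_)
    apply Finset.sum_congr rfl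
    intro k _
    rw [enorm_mul, enorm_mul, ec_enorm, ec_enorm, mul_one, mul_one]
  refine h1.trans ?_
  have h2 := convex_sum T (fun _ => 1) (fun k => ‖c k‖ₑ) 2 (by norm_num)
    (fun _ _ => ENNReal.one_ne_top)
  simp only [one_mul, Finset.sum_const, nsmul_eq_mul, mul_one] at h2
  have e1 : (2 : ℝ) - 1 = 1 := by norm_num
  rw [e1, ENNReal.rpow_one] at h2
  simp only [ENNReal.rpow_ofNat] at h2
  have h3 : ((T.card : ℝ≥0∞)) ≤ ENNReal.ofReal N := by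
    rw [← ENNReal.ofReal_natCast]
    exact ENNReal.ofReal_le_ofReal hN
  obtain ⟨X, hX⟩ : ∃ X : ℝ≥0∞, X = ∑ k ∈ T, ‖c k‖ₑ ^ 2 := ⟨_, rfl⟩
  obtain ⟨v, hv⟩ : ∃ v : ℝ≥0∞, v = ∑ k ∈ T, ‖c k‖ₑ := ⟨_, rfl⟩
  rw [← hX, ← hv] at h2
  rw [← hX, ← hv]
  have h4 : v ^ 2 ≤ ENNReal.ofReal N * X := h2.trans (by gcongr)
  have h5 := ENNReal.rpow_le_rpow h4 (by norm_num : (0 : ℝ) ≤ 1 / 2)
  refine le_trans (le_of_eq ?_) h5
  rw [← ENNReal.rpow_natCast, ← ENNReal.rpow_mul]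
  norm_num

/-- above four -/
lemma HT_high : ∃ C : ℝ≥0, ∀ (T : Finset (Fin d → ℤ)) (ω : (Fin d → ℤ) → ℝ) (M N : ℝ),
    (∀ (n : Fin d → ℤ) (τ : ℝ), (((T ×ˢ T).filter fun w => w.1 + w.2 = n ∧
      |ω w.1 + ω w.2 - τ| ≤ 1).card : ℝ) ≤ M) → (T.card : ℝ) ≤ N → ∀ p : ℝ, 4 ≤ p →
    HT (volume.restrict (Icc (1 : ℝ) 2)) T (fun k t => ec (ω k * t)) p
      (ENNReal.ofReal N ^ ((p - 4) / 2) * (C * ENNReal.ofReal M)) := by
  obtain ⟨C, hC⟩ := fourth (d := d)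
  refine ⟨C, ?_⟩
  intro T ω M N hM hN p hp c
  have h4 := hC T ω M hM c
  have hs := tri_sup T ω N hN c
  have hm := tri_jm T c (fun k t => ec (ω k * t)) fun k => (ec_cont.comp (by fun_prop)).measurable
  obtain ⟨X, hX⟩ : ∃ X : ℝ≥0∞, X = ∑ k ∈ T, ‖c k‖ₑ ^ 2 := ⟨_, rfl⟩
  obtain ⟨F, hF⟩ : ∃ F : ℝ → (Fin d → ℝ) → ℝ≥0∞, F = fun t y =>
    ‖tri T iz (fun k => c k * ec (ω k * t)) y‖ₑ := ⟨_, rfl⟩
  have hs' : ∀ t y, F t y ≤ (ENNReal.ofReal N * X) ^ (1 / 2 : ℝ) := by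
    intro t y
    rw [hF, hX]
    exact hs t y
  have h4' : ∫⁻ t in Icc (1 : ℝ) 2, (∫⁻ y in HC d, F t y ^ 4) ≤ C * ENNReal.ofReal M * X ^ 2 := by
    rw [hF, hX]
    exact h4
  have hm' : Measurable fun q : ℝ × (Fin d → ℝ) => F q.1 q.2 := by
    rw [hF]
    exact hm
  have h := high_gen F hm' _ _ hs' h4' p hp
  rw [← hX]
  rw [hF] at h
  refine h.trans (le_of_eq ?_)
  have e4 : ENNReal.ofReal N ^ ((p - 4) / 2) * (C * ENNReal.ofReal M) * X ^ (p / 2) =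
      ENNReal.ofReal N ^ ((p - 4) / 2) * (C * ENNReal.ofReal M) * (X ^ ((p - 4) / 2) * X ^ 2) := by
    congr 1
    rw [← ENNReal.rpow_natCast X 2, ← ENNReal.rpow_add_of_nonneg _ _ (by linarith) (by positivity)]
    congr 1
    push_cast
    ring
  rw [e4, ENNReal.mul_rpow_of_nonneg _ _ (by linarith : 0 ≤ (p - 4) / 2)]
  ring

/-- the counting hypothesis -/
def Cnt (L : Set (Fin d → ℤ)) (γ A : ℝ) : Prop := ∀ R : ℝ, 1 ≤ R → ∀ T : Finset (Fin d → ℤ),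
  (∀ k ∈ T, k ∈ L ∧ nrm (iz k) ≤ R) → (T.card : ℝ) ≤ A * R ^ γ

lemma mul_pairs {L : Set (Fin d → ℤ)} {β A : ℝ} (h : Mul L β A) {R : ℝ} (hR : 1 ≤ R)
    {T : Finset (Fin d → ℤ)} (hT : ∀ l ∈ T, l ∈ L ∧ nrm (iz l) ≤ R) (n : Fin d → ℤ) (τ : ℝ) :
    (((T ×ˢ T).filter fun w => w.1 + w.2 = n ∧
      |nrm (iz w.1) + nrm (iz w.2) - τ| ≤ 1).card : ℝ) ≤ A * R ^ β := by
  classical
  have hinj : Set.InjOn (fun w : (Fin d → ℤ) × (Fin d → ℤ) => w.1)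
      ((T ×ˢ T).filter fun w => w.1 + w.2 = n ∧ |nrm (iz w.1) + nrm (iz w.2) - τ| ≤ 1) := by
    intro a ha b hb hab
    rw [Finset.mem_coe, Finset.mem_filter] at ha hb
    simp only at hab
    apply Prod.ext hab
    have h1 := ha.2.1
    have h2 := hb.2.1
    rw [← h2, hab] at h1
    exact add_left_cancel h1
  rw [← Finset.card_image_of_injOn hinj]
  apply h R hR n τ
  intro k hk
  rw [Finset.mem_image] at hk
  obtain ⟨w, hw, rfl⟩ := hk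
  rw [Finset.mem_filter, Finset.mem_product] at hw
  obtain ⟨⟨h1, h2⟩, h3, h4⟩ := hw
  have h5 : n - w.1 = w.2 := by
    rw [← h3]
    abel
  rw [h5]
  exact ⟨(hT _ h1).1, (hT _ h2).1, (hT _ h1).2, (hT _ h2).2, h4⟩

lemma Gr_of_Cnt (d : ℕ) {β γ A A' : ℝ} (hA : 0 ≤ A) (hA' : 0 ≤ A') {p : ℝ} (hp4 : 4 ≤ p) :
    ∃ B : ℝ, 0 ≤ B ∧ ∀ L : Set (Fin d → ℤ), Mul L β A → Cnt L γ A' →
      Gr L p (γ * (1 / 2 - 2 / p) + β / p) B := by
  obtain ⟨C, hC⟩ := HT_high (d := d)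
  have hp0 : 0 < p := by linarith
  refine ⟨(A' ^ ((p - 4) / 2) * (C * A)) ^ (1 / p), by positivity, ?_⟩
  intro L h h' R hR T hT
  have g := hC T (fun k => nrm (iz k)) (A * R ^ β) (A' * R ^ γ) (mul_pairs h hR hT) (h' R hR T hT)
    p hp4
  have e : ENNReal.ofReal ((A' ^ ((p - 4) / 2) * (C * A)) ^ (1 / p) *
      R ^ (γ * (1 / 2 - 2 / p) + β / p)) ^ p =
      ENNReal.ofReal (A' * R ^ γ) ^ ((p - 4) / 2) * (C * ENNReal.ofReal (A * R ^ β)) := by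
    have hR0 : 0 < R := by linarith
    have e1 : (C : ℝ≥0∞) * ENNReal.ofReal (A * R ^ β) = ENNReal.ofReal (C * A * R ^ β) := by
      rw [mul_assoc, ENNReal.ofReal_mul (by positivity : (0 : ℝ) ≤ C), ENNReal.ofReal_coe_nnreal]
    have hK : 0 ≤ A' ^ ((p - 4) / 2) * (C * A) := by positivity
    rw [e1, ENNReal.ofReal_rpow_of_nonneg (by positivity) (by linarith),
      ENNReal.ofReal_rpow_of_nonneg (by positivity) (by linarith),
      ← ENNReal.ofReal_mul (by positivity)]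
    congr 1
    rw [Real.mul_rpow (by positivity) (by positivity), ← Real.rpow_mul hK,
      one_div_mul_cancel hp0.ne', Real.rpow_one, ← Real.rpow_mul (by positivity),
      Real.mul_rpow hA' (by positivity), ← Real.rpow_mul (by positivity)]
    have e2 : (γ * (1 / 2 - 2 / p) + β / p) * p = γ * ((p - 4) / 2) + β := by
      field_simp
      ring
    rw [e2, Real.rpow_add hR0]
    ring
  rw [e]
  exact g

end Pool.Agent.Q89.WS
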